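import Mathlib

set_option autoImplicit false

namespace Pool.Agent.H.MP_f87a07_co

open Relation

/-- `b` is reached from `a` in at most `k` steps -/
inductive Within {S : Type} (R : S → S → Prop) (a : S) : ℕ → S → Prop
  | refl : Within R a 0 a
  | stay {k : ℕ} {b : S} : Within R a k b → Within R a (k + 1) b
  | step {k : ℕ} {b c : S} : Within R a k b → R b c → Within R a (k + 1) c

/-- `b` is reachable from `a`, but not in fewer than `N` steps -/
def Far {S : Type} (R : S → S → Prop) (a b : S) (N : ℕ) : Prop :=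
  ReflTransGen R a b ∧ ∀ k, Within R a k b → N ≤ k

theorem Far.sim {L U : Type} {RL : L → L → Prop} {RU : U → U → Prop} (Rep : L → U → Prop)
    (Good : L → U → Prop) {u0 u1 : U} {N : ℕ} (h : Far RU u0 u1 N) (l0 : L) (h0 : Good l0 u0)
    (hG : ∀ l u, Good l u → Rep l u)
    (huniq : ∀ l u u', Good l u → Rep l u' → u' = u)
    (hsim : ∀ l u l', Rep l u → RL l l' → ∃ u', Rep l' u' ∧ (u' = u ∨ RU u u'))
    (hlift : ∀ l u u', Good l u → RU u u' → ∃ l', Good l' u' ∧ ReflTransGen RL l l') :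
    ∃ l1, Good l1 u1 ∧ Far RL l0 l1 N := by
  have h1 : ∀ u, ReflTransGen RU u0 u → ∃ l, Good l u ∧ ReflTransGen RL l0 l := by
    intro u hu
    induction hu with
    | refl => exact ⟨l0, h0, .refl⟩
    | tail _ hs ih =>
      obtain ⟨l, hl, hr⟩ := ih
      obtain ⟨l', hl', hr'⟩ := hlift _ _ _ hl hs
      exact ⟨l', hl', hr.trans hr'⟩
  have h2 : ∀ k l, Within RL l0 k l → ∃ u, Rep l u ∧ Within RU u0 k u := by
    intro k l hw
    induction hw with
    | refl => exact ⟨u0, hG _ _ h0, .refl⟩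
    | stay _ ih =>
      obtain ⟨u, hu, hw⟩ := ih
      exact ⟨u, hu, .stay hw⟩
    | step _ hs ih =>
      obtain ⟨u, hu, hw⟩ := ih
      obtain ⟨u', hu', rfl | hr⟩ := hsim _ _ _ hu hs
      · exact ⟨_, hu', .stay hw⟩
      · exact ⟨_, hu', .step hw hr⟩
  obtain ⟨l1, hl1, hr⟩ := h1 u1 h.1
  refine ⟨l1, hl1, hr, fun k hw => ?_⟩
  obtain ⟨u, hu, hw⟩ := h2 k l1 hw
  rw [huniq _ _ _ hl1 hu] at hw
  exact h.2 k hw

/-- the friends-and-strangers graph -/
def FS {n : ℕ} (X Y : SimpleGraph (Fin n)) : SimpleGraph (Equiv.Perm (Fin n)) :=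
  SimpleGraph.fromRel (fun s t : Equiv.Perm (Fin n) =>
    ∃ a b : Fin n, X.Adj a b ∧ Y.Adj (s a) (s b) ∧ t = s * Equiv.swap a b)

/-- some component on `n` vertices has two vertices at distance at least `N` -/
def Hard (n N : ℕ) : Prop :=
  ∃ (X Y : SimpleGraph (Fin n)) (σ τ : Equiv.Perm (Fin n)),
    (FS X Y).Reachable σ τ ∧ N ≤ (FS X Y).dist σ τ

/-- swapping tokens of friendly types -/
def TL {P T : Type} [DecidableEq P] (X : P → P → Prop) (Fr : T → T → Prop) (c c' : P → T) : Prop :=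
  ∃ a b, X a b ∧ (Fr (c a) (c b) ∨ Fr (c b) (c a)) ∧ c' = c ∘ Equiv.swap a b

theorem walk_within {S : Type} {G : SimpleGraph S} {a b : S} (w : G.Walk a b) :
    Within G.Adj b w.length a := by
  induction w with
  | nil => exact .refl
  | cons h _ ih => exact .step ih h.symm

theorem hard_of_TL {P T : Type} [Fintype P] [DecidableEq P] (X : P → P → Prop) (Fr : T → T → Prop)
    {c0 c1 : P → T} {N : ℕ} (h : Far (TL X Fr) c0 c1 N) : Hard (Fintype.card P) N := by
  let e : Fin (Fintype.card P) ≃ P := (Fintype.equivFin P).symm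
  let X' : SimpleGraph (Fin (Fintype.card P)) := SimpleGraph.fromRel fun a b => X (e a) (e b)
  let Y' : SimpleGraph (Fin (Fintype.card P)) :=
    SimpleGraph.fromRel fun a b => Fr (c0 (e a)) (c0 (e b))
  let Rep : Equiv.Perm (Fin (Fintype.card P)) → (P → T) → Prop :=
    fun σ c => c = fun p => c0 (e (σ (e.symm p)))
  have hsw : ∀ (σ : Equiv.Perm (Fin (Fintype.card P))) (a b : Fin (Fintype.card P)),
      (fun p => c0 (e ((σ * Equiv.swap a b) (e.symm p))))
        = (fun p => c0 (e (σ (e.symm p)))) ∘ Equiv.swap (e a) (e b) := by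
    intro σ a b
    funext p
    simp only [Equiv.Perm.mul_apply, Function.comp_apply]
    rw [e.symm.injective.map_swap]
    simp
  have key : ∀ σ τ : Equiv.Perm (Fin (Fintype.card P)),
      (∃ a b, X'.Adj a b ∧ Y'.Adj (σ a) (σ b) ∧ τ = σ * Equiv.swap a b) →
      TL X Fr (fun p => c0 (e (σ (e.symm p)))) (fun p => c0 (e (τ (e.symm p)))) := by
    rintro σ τ ⟨a, b, hX, hY, rfl⟩
    rw [SimpleGraph.fromRel_adj] at hX hY
    rcases hX.2 with h | h
    · exact ⟨e a, e b, h, by simpa using hY.2, hsw σ a b⟩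
    · exact ⟨e b, e a, h, by simpa using hY.2.symm, by rw [hsw, Equiv.swap_comm]⟩
  obtain ⟨τ, -, hr, hk⟩ := h.sim (RL := (FS X' Y').Adj) Rep Rep 1 (by simp [Rep])
    (fun _ _ h => h) (fun _ _ _ h h' => h'.trans h.symm)
    (fun σ c τ hc hs => by
      refine ⟨_, rfl, Or.inr ?_⟩
      rw [hc]
      rcases ((SimpleGraph.fromRel_adj _ _ _).1 hs).2 with h | ⟨a, b, hX, hY, rfl⟩
      · exact key _ _ h
      · refine key _ _ ⟨a, b, hX, ?_, by simp [mul_assoc]⟩
        simpa using hY.symm)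
    (fun σ c c' hc hs => by
      obtain ⟨a, b, hX, hF, rfl⟩ := hs
      by_cases hab : a = b
      · subst hab
        exact ⟨σ, by simpa using hc, .refl⟩
      refine ⟨σ * Equiv.swap (e.symm a) (e.symm b), ?_, .single ?_⟩
      · simp only [Rep]
        rw [hsw, hc]; simp
      · have hab' : e.symm a ≠ e.symm b := fun h => hab (e.symm.injective h)
        refine (SimpleGraph.fromRel_adj _ _ _).2 ⟨?_, Or.inl ⟨e.symm a, e.symm b, ?_, ?_, rfl⟩⟩
        · intro h
          have := congrArg (fun s : Equiv.Perm _ => s (e.symm a)) h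
          simp only [Equiv.Perm.mul_apply, Equiv.swap_apply_left] at this
          exact hab' (σ.injective this)
        · exact (SimpleGraph.fromRel_adj _ _ _).2 ⟨hab', Or.inl (by simpa using hX)⟩
        · refine (SimpleGraph.fromRel_adj _ _ _).2 ⟨fun h => hab' (σ.injective h), ?_⟩
          rw [hc] at hF
          exact hF)
  have hreach : (FS X' Y').Reachable τ 1 :=
    ((SimpleGraph.reachable_iff_reflTransGen _ _).2 hr).symm
  obtain ⟨w, hw⟩ := hreach.exists_walk_length_eq_dist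
  exact ⟨X', Y', τ, 1, hreach, hw ▸ hk _ (walk_within w)⟩

/-- rotation of the contents of the cells `ring 0, ..., ring (len - 1)` -/
def Sh {Q T : Type} (len : ℕ) (ring : ℕ → Q) (c c' : Q → T) : Prop :=
  (∀ n < len, c' (ring n) = c (ring ((n + 1) % len))) ∧
    ∀ q, (∀ n < len, ring n ≠ q) → c' q = c q

/-- guarded rotations -/
def RS {Q G T : Type} (len : G → ℕ) (ring : G → ℕ → Q) (F : G → T → Prop) (c c' : Q → T) : Prop :=
  ∃ g, (∀ n < len g, F g (c (ring g n))) ∧ (Sh (len g) (ring g) c c' ∨ Sh (len g) (ring g) c' c)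

theorem exists_reidx {Q T : Type} (len : ℕ) (ring : ℕ → Q)
    (hinj : ∀ n < len, ∀ n' < len, ring n = ring n' → n = n') (c : Q → T) (v : ℕ → T) :
    ∃ c' : Q → T, (∀ n < len, c' (ring n) = v n) ∧ ∀ q, (∀ n < len, ring n ≠ q) → c' q = c q := by
  classical
  refine ⟨fun q => if h : ∃ n < len, ring n = q then v h.choose else c q, fun n hn => ?_,
    fun q hq => ?_⟩
  · have h : ∃ n' < len, ring n' = ring n := ⟨n, hn, rfl⟩
    simp only [dif_pos h]
    rw [hinj _ h.choose_spec.1 _ hn h.choose_spec.2]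
  · have h : ¬ ∃ n < len, ring n = q := fun ⟨n, hn, h⟩ => hq n hn h
    simp only [dif_neg h]

theorem pred_mod {len n : ℕ} (hn : n < len) : ((n + 1) % len + len - 1) % len = n := by
  rcases Nat.lt_or_ge (n + 1) len with h | h
  · rw [Nat.mod_eq_of_lt h, show n + 1 + len - 1 = n + len by omega, Nat.add_mod_right,
      Nat.mod_eq_of_lt hn]
  · have : n + 1 = len := by omega
    rw [this, Nat.mod_self, Nat.mod_eq_of_lt (by omega)]; omega

theorem succ_mod {len n : ℕ} (hn : n < len) : ((n + len - 1) % len + 1) % len = n := by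
  rcases Nat.eq_zero_or_pos n with rfl | h
  · rw [Nat.mod_eq_of_lt (by omega : 0 + len - 1 < len), show 0 + len - 1 + 1 = len by omega,
      Nat.mod_self]
  · rw [show n + len - 1 = (n - 1) + len by omega, Nat.add_mod_right,
      Nat.mod_eq_of_lt (by omega : n - 1 < len), show n - 1 + 1 = n by omega, Nat.mod_eq_of_lt hn]

theorem exists_Sh {Q T : Type} (len : ℕ) (ring : ℕ → Q)
    (hinj : ∀ n < len, ∀ n' < len, ring n = ring n' → n = n') (c : Q → T) :
    ∃ c', Sh len ring c c' :=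
  exists_reidx len ring hinj c _

theorem exists_Sh' {Q T : Type} (len : ℕ) (ring : ℕ → Q)
    (hinj : ∀ n < len, ∀ n' < len, ring n = ring n' → n = n') (c : Q → T) :
    ∃ c', Sh len ring c' c := by
  obtain ⟨c', h1, h2⟩ := exists_reidx len ring hinj c fun n => c (ring ((n + len - 1) % len))
  refine ⟨c', fun n hn => ?_, fun q hq => (h2 q hq).symm⟩
  rw [h1 _ (Nat.mod_lt _ (by omega)), pred_mod hn]

theorem Sh.uniq {Q T : Type} {len : ℕ} {ring : ℕ → Q} {c c1 c2 : Q → T} (h1 : Sh len ring c c1)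
    (h2 : Sh len ring c c2) : c1 = c2 := by
  funext q
  by_cases h : ∃ n < len, ring n = q
  · obtain ⟨n, hn, rfl⟩ := h
    rw [h1.1 n hn, h2.1 n hn]
  · push Not at h
    rw [h1.2 q h, h2.2 q h]

theorem Sh.back {Q T : Type} {len : ℕ} {ring : ℕ → Q} {c c' : Q → T} (h : Sh len ring c c')
    {n : ℕ} (hn : n < len) : c (ring n) = c' (ring ((n + len - 1) % len)) := by
  rw [h.1 _ (Nat.mod_lt _ (by omega)), succ_mod hn]

theorem Sh.uniq' {Q T : Type} {len : ℕ} {ring : ℕ → Q} {c c1 c2 : Q → T} (h1 : Sh len ring c1 c)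
    (h2 : Sh len ring c2 c) : c1 = c2 := by
  funext q
  by_cases h : ∃ n < len, ring n = q
  · obtain ⟨n, hn, rfl⟩ := h
    rw [h1.back hn, h2.back hn]
  · push Not at h
    rw [← h1.2 q h, h2.2 q h]

theorem RS.symm {Q G T : Type} {len : G → ℕ} {ring : G → ℕ → Q} {F : G → T → Prop} {c c' : Q → T}
    (h : RS len ring F c c') : RS len ring F c' c := by
  obtain ⟨g, hF, h | h⟩ := h
  · exact ⟨g, fun n hn => h.1 n hn ▸ hF _ (Nat.mod_lt _ (by omega)), Or.inr h⟩
  · exact ⟨g, fun n hn => h.back hn ▸ hF _ (Nat.mod_lt _ (by omega)), Or.inl h⟩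

end Pool.Agent.H.MP_f87a07_co
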