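import Mathlib
import Pool.Agent.H.MP_f87a07_co.A

set_option autoImplicit false

namespace Pool.Agent.H.MP_f87a07_co

open Relation

/-- positions -/
inductive Pos (Q G : Type) : Type
  | hub : Pos Q G
  | home : G → Pos Q G
  | z : G → Pos Q G
  | cell : Q → Pos Q G

/-- token types -/
inductive Ty (G T : Type) : Type
  | baton : Ty G T
  | w : G → Ty G T
  | zeta : G → Ty G T
  | tok : T → Ty G T

/-- positions as a sum -/
def posEquiv (Q G : Type) : Option (G ⊕ G ⊕ Q) ≃ Pos Q G where
  toFun
    | none => .hub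
    | some (.inl g) => .home g
    | some (.inr (.inl g)) => .z g
    | some (.inr (.inr q)) => .cell q
  invFun
    | .hub => none
    | .home g => some (.inl g)
    | .z g => some (.inr (.inl g))
    | .cell q => some (.inr (.inr q))
  left_inv := by rintro (_ | g | g | q) <;> rfl
  right_inv := by rintro (_ | g | g | q) <;> rfl

noncomputable instance {Q G : Type} : DecidableEq (Pos Q G) := Classical.decEq _

section
variable {Q G T : Type} [DecidableEq G] (len : G → ℕ) (ring : G → ℕ → Q) (F : G → T → Prop)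

/-- the route of a worker -/
def route (g : G) : ℕ → Pos Q G
  | 0 => .z g
  | n + 1 => .cell (ring g n)

/-- edges of the position graph -/
inductive XE : Pos Q G → Pos Q G → Prop
  | home (g : G) : XE .hub (.home g)
  | z (g : G) : XE .hub (.z g)
  | next (g : G) (n : ℕ) : n < len g → XE (route ring g n) (route ring g (n + 1))
  | wrap (g : G) : XE (route ring g (len g)) (route ring g 0)

/-- friendship of types -/
inductive FE : Ty G T → Ty G T → Prop
  | baton (g : G) : FE (.w g) .baton
  | zeta (g : G) : FE (.w g) (.zeta g)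
  | tok (g : G) (t : T) : F g t → FE (.w g) (.tok t)

/-- no worker is active -/
structure Idle (c : Q → T) (l : Pos Q G → Ty G T) : Prop where
  hub : l .hub = .baton
  home : ∀ g, l (.home g) = .w g
  zz : ∀ g, l (.z g) = .zeta g
  cell : ∀ q, l (.cell q) = .tok (c q)

/-- a worker is at the hub -/
structure AtH (g : G) (c : Q → T) (l : Pos Q G → Ty G T) : Prop where
  hub : l .hub = .w g
  home : ∀ g', l (.home g') = if g' = g then .baton else .w g'
  zz : ∀ g, l (.z g) = .zeta g
  cell : ∀ q, l (.cell q) = .tok (c q)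

/-- a worker is on its route -/
structure Out (g : G) (k : ℕ) (c : Q → T) (l : Pos Q G → Ty G T) : Prop where
  hub : l .hub = .zeta g
  home : ∀ g', l (.home g') = if g' = g then .baton else .w g'
  zz : ∀ g', g' ≠ g → l (.z g') = .zeta g'
  rt : ∀ n ≤ len g, l (route ring g n) =
    if n < k then .tok (c (ring g n)) else if n = k then .w g else .tok (c (ring g (n - 1)))
  off : ∀ q, (∀ n < len g, ring g n ≠ q) → l (.cell q) = .tok (c q)

variable {len ring F}

omit [DecidableEq G] in
theorem route_inj (hinj : ∀ g, ∀ n < len g, ∀ n' < len g, ring g n = ring g n' → n = n') {g : G}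
    {n n' : ℕ} (hn : n ≤ len g) (hn' : n' ≤ len g) (h : route ring g n = route ring g n') :
    n = n' := by
  rcases n with _ | n <;> rcases n' with _ | n' <;> simp only [route, reduceCtorEq,
    Pos.cell.injEq] at h
  · rfl
  · rw [hinj g n (by omega) n' (by omega) h]

omit [DecidableEq G] in
theorem swap_route (hinj : ∀ g, ∀ n < len g, ∀ n' < len g, ring g n = ring g n' → n = n') {g : G}
    {i j n : ℕ} (hi : i ≤ len g) (hj : j ≤ len g) (hn : n ≤ len g) :
    Equiv.swap (route ring g i) (route ring g j) (route ring g n)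
      = route ring g (if n = i then j else if n = j then i else n) := by
  split_ifs with h1 h2
  · subst h1; simp
  · subst h2; simp
  · exact Equiv.swap_apply_of_ne_of_ne (fun h => h1 (route_inj hinj hn hi h))
      (fun h => h2 (route_inj hinj hn hj h))

theorem Out.swap {g : G} {k k' i j : ℕ} {c c' : Q → T} {l : Pos Q G → Ty G T}
    (h : Out len ring g k c l) (hi : i ≤ len g) (hj : j ≤ len g)
    (hc : ∀ q, (∀ n < len g, ring g n ≠ q) → c' q = c q)
    (hr : ∀ n ≤ len g, l (Equiv.swap (route ring g i) (route ring g j) (route ring g n)) =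
      if n < k' then .tok (c' (ring g n)) else if n = k' then .w g
        else .tok (c' (ring g (n - 1)))) :
    Out len ring g k' c' (l ∘ Equiv.swap (route ring g i) (route ring g j)) := by
  have key : ∀ p, (∀ n ≤ len g, p ≠ route ring g n) →
      (l ∘ Equiv.swap (route ring g i) (route ring g j)) p = l p := fun p hp => by
    rw [Function.comp_apply, Equiv.swap_apply_of_ne_of_ne (hp i hi) (hp j hj)]
  refine ⟨?_, fun g' => ?_, fun g' hg => ?_, hr, fun q hq => ?_⟩
  · rw [key _ (by rintro (_ | n) _ <;> simp [route]), h.hub]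
  · rw [key _ (by rintro (_ | n) _ <;> simp [route]), h.home]
  · rw [key _ (by rintro (_ | n) _ <;> simp [route, hg]), h.zz g' hg]
  · rw [key _ ?_, h.off q hq, hc q hq]
    rintro (_ | n) hn
    · simp [route]
    · simpa [route] using (hq n (by omega)).symm

variable (hinj : ∀ g, ∀ n < len g, ∀ n' < len g, ring g n = ring g n' → n = n')
include hinj

theorem Out.fwd {g : G} {k : ℕ} {c : Q → T} {l : Pos Q G → Ty G T} (h : Out len ring g k c l)
    (hk : k < len g) :
    Out len ring g (k + 1) c (l ∘ Equiv.swap (route ring g k) (route ring g (k + 1))) := by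
  refine h.swap hk.le hk (fun _ _ => rfl) fun n hn => ?_
  rw [swap_route hinj hk.le hk hn, h.rt _ (by split_ifs <;> omega)]
  split_ifs <;> first | rfl | omega | (subst_vars; simp)

theorem Out.bwd {g : G} {k : ℕ} {c : Q → T} {l : Pos Q G → Ty G T}
    (h : Out len ring g (k + 1) c l) (hk : k < len g) :
    Out len ring g k c (l ∘ Equiv.swap (route ring g (k + 1)) (route ring g k)) := by
  refine h.swap hk hk.le (fun _ _ => rfl) fun n hn => ?_
  rw [swap_route hinj hk hk.le hn, h.rt _ (by split_ifs <;> omega)]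
  split_ifs <;> first | rfl | omega | (subst_vars; simp)

theorem Out.wrap {g : G} {c c' : Q → T} {l : Pos Q G → Ty G T} (hl : 2 ≤ len g)
    (h : Out len ring g (len g) c l) (hs : Sh (len g) (ring g) c c') :
    Out len ring g 0 c' (l ∘ Equiv.swap (route ring g (len g)) (route ring g 0)) := by
  refine h.swap le_rfl (Nat.zero_le _) hs.2 fun n hn => ?_
  rw [swap_route hinj le_rfl (Nat.zero_le _) hn, h.rt _ (by split_ifs <;> omega)]
  split_ifs <;> first | rfl | omega | skip
  · rw [hs.1 _ (by omega), show n - 1 + 1 = len g by omega, Nat.mod_self]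
  · rw [hs.1 _ (by omega), show n - 1 + 1 = n by omega, Nat.mod_eq_of_lt (by omega)]

theorem Out.wrap' {g : G} {c c' : Q → T} {l : Pos Q G → Ty G T} (hl : 2 ≤ len g)
    (h : Out len ring g 0 c' l) (hs : Sh (len g) (ring g) c c') :
    Out len ring g (len g) c (l ∘ Equiv.swap (route ring g 0) (route ring g (len g))) := by
  refine h.swap (Nat.zero_le _) le_rfl (fun q hq => (hs.2 q hq).symm) fun n hn => ?_
  rw [swap_route hinj (Nat.zero_le _) le_rfl hn, h.rt _ (by split_ifs <;> omega)]
  split_ifs <;> first | rfl | omega | skip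
  · subst_vars
    rw [hs.1 _ (by omega), show len g - 1 + 1 = len g by omega, Nat.mod_self]
  · rw [hs.1 _ (by omega), show n - 1 + 1 = n by omega, Nat.mod_eq_of_lt (by omega)]

omit hinj

theorem Out.worker {g g' : G} {k : ℕ} {c : Q → T} {l : Pos Q G → Ty G T}
    (h : Out len ring g k c l) {p : Pos Q G} (hp : l p = .w g') :
    (p = .home g' ∧ g' ≠ g) ∨ (p = route ring g k ∧ g' = g) := by
  have key : ∀ n ≤ len g, l (route ring g n) = .w g' → n = k ∧ g' = g := fun n hn hp => by
    rw [h.rt n hn] at hp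
    split_ifs at hp with h1 h2
    exact ⟨h2, (Ty.w.inj hp).symm⟩
  rcases p with _ | g1 | g1 | q
  · rw [h.hub] at hp; cases hp
  · rw [h.home] at hp
    split_ifs at hp with h1
    cases hp
    exact Or.inl ⟨rfl, h1⟩
  · by_cases h1 : g1 = g
    · subst h1
      obtain ⟨rfl, rfl⟩ := key 0 (Nat.zero_le _) hp
      exact Or.inr ⟨rfl, rfl⟩
    · rw [h.zz _ h1] at hp; cases hp
  · by_cases h1 : ∃ n < len g, ring g n = q
    · obtain ⟨n, hn, rfl⟩ := h1
      obtain ⟨rfl, rfl⟩ := key (n + 1) hn hp
      exact Or.inr ⟨rfl, rfl⟩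
    · push Not at h1
      rw [h.off q h1] at hp; cases hp

variable (len ring) in
/-- symmetric adjacency -/
def Adj (a b : Pos Q G) : Prop := XE len ring a b ∨ XE len ring b a

omit [DecidableEq G] in
theorem adj_cases (hl : ∀ g, 2 ≤ len g) {a b : Pos Q G} (h : Adj len ring a b) :
    (∃ g, a = .home g ∧ b = .hub) ∨ (∃ g, a = .hub ∧ (b = .home g ∨ b = .z g)) ∨
    (∃ g, a = .z g ∧ (b = .hub ∨ b = route ring g 1 ∨ b = route ring g (len g))) ∨
    ∃ g j, j < len g ∧ a = .cell (ring g j) ∧ (b = route ring g j ∨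
      (j + 1 < len g ∧ b = route ring g (j + 2)) ∨ (j + 1 = len g ∧ b = route ring g 0)) := by
  rcases h with h | h
  · cases h with
    | home g => exact Or.inr (Or.inl ⟨g, rfl, Or.inl rfl⟩)
    | z g => exact Or.inr (Or.inl ⟨g, rfl, Or.inr rfl⟩)
    | next g n hn =>
      rcases n with _ | n
      · exact Or.inr (Or.inr (Or.inl ⟨g, rfl, Or.inr (Or.inl rfl)⟩))
      · exact Or.inr (Or.inr (Or.inr ⟨g, n, by omega, rfl, Or.inr (Or.inl ⟨hn, rfl⟩)⟩))
    | wrap g =>
      have := hl g
      refine Or.inr (Or.inr (Or.inr ⟨g, len g - 1, by omega, ?_, Or.inr (Or.inr ⟨by omega, rfl⟩)⟩))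
      conv_lhs => rw [show len g = len g - 1 + 1 by omega]
      rfl
  · cases h with
    | home g => exact Or.inl ⟨g, rfl, rfl⟩
    | z g => exact Or.inr (Or.inr (Or.inl ⟨g, rfl, Or.inl rfl⟩))
    | next g n hn => exact Or.inr (Or.inr (Or.inr ⟨g, n, hn, rfl, Or.inl rfl⟩))
    | wrap g => exact Or.inr (Or.inr (Or.inl ⟨g, rfl, Or.inr (Or.inr rfl)⟩))

omit [DecidableEq G] in
theorem TL_iff {l l' : Pos Q G → Ty G T} : TL (XE len ring) (FE F) l l' ↔
    ∃ a b, Adj len ring a b ∧ FE F (l a) (l b) ∧ l' = l ∘ Equiv.swap a b := by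
  constructor
  · rintro ⟨a, b, hX, h | h, rfl⟩
    · exact ⟨a, b, Or.inl hX, h, rfl⟩
    · exact ⟨b, a, Or.inr hX, h, by rw [Equiv.swap_comm]⟩
  · rintro ⟨a, b, hX | hX, h, rfl⟩
    · exact ⟨a, b, hX, Or.inl h, rfl⟩
    · exact ⟨b, a, hX, Or.inr h, by rw [Equiv.swap_comm]⟩

theorem Idle.go {c : Q → T} {l : Pos Q G → Ty G T} (h : Idle c l) (g : G) :
    AtH g c (l ∘ Equiv.swap (.home g) .hub) := by
  refine ⟨by simp [h.home], fun g' => ?_, fun g' => ?_, fun q => ?_⟩
  · split_ifs with h1
    · subst h1; simp [h.hub]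
    · simp [Equiv.swap_apply_of_ne_of_ne, h1, h.home]
  · simp [Equiv.swap_apply_of_ne_of_ne, h.zz]
  · simp [Equiv.swap_apply_of_ne_of_ne, h.cell]

theorem AtH.back {g : G} {c : Q → T} {l : Pos Q G → Ty G T} (h : AtH g c l) :
    Idle c (l ∘ Equiv.swap .hub (.home g)) := by
  refine ⟨by simp [h.home], fun g' => ?_, fun g' => ?_, fun q => ?_⟩
  · by_cases h1 : g' = g
    · subst h1; simp [h.hub]
    · simp [Equiv.swap_apply_of_ne_of_ne, h1, h.home]
  · simp [Equiv.swap_apply_of_ne_of_ne, h.zz]
  · simp [Equiv.swap_apply_of_ne_of_ne, h.cell]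

theorem AtH.go {g : G} {c : Q → T} {l : Pos Q G → Ty G T} (h : AtH g c l) :
    Out len ring g 0 c (l ∘ Equiv.swap .hub (.z g)) := by
  refine ⟨by simp [h.zz], fun g' => ?_, fun g' hg => ?_, ?_, fun q _ => ?_⟩
  · simp [Equiv.swap_apply_of_ne_of_ne, h.home]
  · simp [Equiv.swap_apply_of_ne_of_ne, h.zz, hg]
  · rintro (_ | n) _
    · simp [route, h.hub]
    · simp [route, Equiv.swap_apply_of_ne_of_ne, h.cell]
  · simp [Equiv.swap_apply_of_ne_of_ne, h.cell]

theorem Out.back {g : G} {c : Q → T} {l : Pos Q G → Ty G T} (h : Out len ring g 0 c l) :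
    AtH g c (l ∘ Equiv.swap (.z g) .hub) := by
  refine ⟨?_, fun g' => ?_, fun g' => ?_, fun q => ?_⟩
  · simpa [route] using h.rt 0 (Nat.zero_le _)
  · simp [Equiv.swap_apply_of_ne_of_ne, h.home]
  · by_cases h1 : g' = g
    · subst h1; simp [h.hub]
    · simp [Equiv.swap_apply_of_ne_of_ne, h1, h.zz]
  · by_cases h1 : ∃ n < len g, ring g n = q
    · obtain ⟨n, hn, rfl⟩ := h1
      simpa [route, Equiv.swap_apply_of_ne_of_ne] using h.rt (n + 1) hn
    · push Not at h1
      simp [Equiv.swap_apply_of_ne_of_ne, h.off q h1]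

end

end Pool.Agent.H.MP_f87a07_co
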