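import Mathlib
import Pool.Agent.H.MP_f87a07_co.B

set_option autoImplicit false

namespace Pool.Agent.H.MP_f87a07_co

open Relation

section
variable {Q G T : Type} [DecidableEq G] {len : G → ℕ} {ring : G → ℕ → Q} {F : G → T → Prop}

variable (len ring F) in
/-- representation relation of the first layer -/
def Rep1 (J : Set (Q → T)) (l : Pos Q G → Ty G T) (c : Q → T) : Prop :=
  c ∈ J ∧ (Idle c l ∨ ∃ g, AtH g c l ∨ ∃ k ≤ len g,
    (Out len ring g k c l ∧ ∀ n < k, F g (c (ring g n))) ∨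
    (1 ≤ k ∧ ∃ c', Sh (len g) (ring g) c' c ∧ Out len ring g k c' l ∧ F g (c' (ring g 0)) ∧
      ∀ n, k ≤ n → n < len g → F g (c' (ring g n))))

variable (len ring F) in
/-- a worker cannot leave its own ring -/
def NoLeak (J : Set (Q → T)) : Prop :=
  ∀ c ∈ J, ∀ g g', g' ≠ g → ∀ i < len g, ∀ j < len g', ring g i = ring g' j → F g (c (ring g i)) →
    ∀ j' < len g', (j' = j + 1 ∨ j = j' + 1) →
      (∀ n < len g, ring g n ≠ ring g' j') ∧ ¬ F g (c (ring g' j'))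

theorem FE_w {x y : Ty G T} (h : FE F x y) : ∃ g, x = .w g := by
  cases h <;> exact ⟨_, rfl⟩

theorem FE_tok {g : G} {t : T} (h : FE F (.w g) (.tok t)) : F g t := by
  cases h; assumption

theorem FE_zeta {g g' : G} (h : FE F (.w g) (.zeta g')) : g' = g := by
  cases h; rfl

theorem Out.moves (hinj : ∀ g, ∀ n < len g, ∀ n' < len g, ring g n = ring g n' → n = n')
    (hl : ∀ g, 2 ≤ len g) {J : Set (Q → T)} (hN : NoLeak len ring F J) {g : G} {k : ℕ}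
    {c c0 : Q → T} {l : Pos Q G → Ty G T} (h : Out len ring g k c l) (hk : k ≤ len g)
    (hc0 : c0 ∈ J) (hoff : ∀ q, (∀ n < len g, ring g n ≠ q) → c0 q = c q)
    (hF : 1 ≤ k → F g (c0 (ring g (k - 1)))) {a b : Pos Q G} (hA : Adj len ring a b)
    (hE : FE F (l a) (l b)) : a = route ring g k ∧ FE F (.w g) (l b) ∧
      ((k = 0 ∧ b = .hub) ∨ (k < len g ∧ b = route ring g (k + 1)) ∨
        (1 ≤ k ∧ b = route ring g (k - 1)) ∨ (k = 0 ∧ b = route ring g (len g)) ∨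
        (k = len g ∧ b = route ring g 0)) := by
  obtain ⟨g', hg'⟩ := FE_w hE
  rw [hg'] at hE
  have h2 := hl g
  rcases h.worker hg' with ⟨rfl, hne⟩ | ⟨rfl, rfl⟩
  · rcases adj_cases hl hA with ⟨_, -, rfl⟩ | ⟨_, h1, -⟩ | ⟨_, h1, -⟩ | ⟨_, _, -, h1, -⟩
    · rw [h.hub] at hE
      exact absurd (FE_zeta hE).symm hne
    all_goals cases h1
  refine ⟨rfl, hE, ?_⟩
  rcases k with _ | k
  · rcases adj_cases hl hA with ⟨_, h1, -⟩ | ⟨_, h1, -⟩ | ⟨_, h1, h3⟩ | ⟨_, _, -, h1, -⟩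
    · cases h1
    · cases h1
    · cases h1
      rcases h3 with rfl | rfl | rfl
      · exact Or.inl ⟨rfl, rfl⟩
      · exact Or.inr (Or.inl ⟨by omega, rfl⟩)
      · exact Or.inr (Or.inr (Or.inr (Or.inl ⟨rfl, rfl⟩)))
    · cases h1
  · rcases adj_cases hl hA with ⟨_, h1, -⟩ | ⟨_, h1, -⟩ | ⟨_, h1, -⟩ | ⟨g1, j, hj, h1, h3⟩
    · cases h1
    · cases h1
    · cases h1
    have h1 : ring g' k = ring g1 j := Pos.cell.inj h1
    by_cases hg : g1 = g'
    · subst hg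
      obtain rfl := hinj _ _ (by omega) _ hj h1
      rcases h3 with rfl | ⟨h4, rfl⟩ | ⟨h4, rfl⟩
      · exact Or.inr (Or.inr (Or.inl ⟨by omega, rfl⟩))
      · exact Or.inr (Or.inl ⟨h4, rfl⟩)
      · exact Or.inr (Or.inr (Or.inr (Or.inr ⟨h4, rfl⟩)))
    · exfalso
      have hz : ¬ FE F (.w g') (l (route ring g1 0)) := fun hE => by
        rw [route, h.zz _ hg] at hE
        exact hg (FE_zeta hE)
      have hn : ∀ j' < len g1, (j' = j + 1 ∨ j = j' + 1) →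
          ¬ FE F (.w g') (l (route ring g1 (j' + 1))) := fun j' hj' hjj hE => by
        obtain ⟨n1, n2⟩ := hN c0 hc0 g' g1 hg k (by omega) j hj h1 (hF (by omega)) j' hj' hjj
        rw [route, h.off _ n1, ← hoff _ n1] at hE
        exact n2 (FE_tok hE)
      rcases h3 with rfl | ⟨h4, rfl⟩ | ⟨h4, rfl⟩
      · rcases j with _ | j
        · exact hz hE
        · exact hn j (by omega) (Or.inr rfl) hE
      · exact hn (j + 1) h4 (Or.inl rfl) hE
      · exact hz hE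

theorem sim1 (hinj : ∀ g, ∀ n < len g, ∀ n' < len g, ring g n = ring g n' → n = n')
    (hl : ∀ g, 2 ≤ len g) {J : Set (Q → T)} (hN : NoLeak len ring F J)
    (hJ : ∀ c ∈ J, ∀ c', RS len ring F c c' → c' ∈ J) (l : Pos Q G → Ty G T) (c : Q → T)
    (l' : Pos Q G → Ty G T) (h : Rep1 len ring F J l c) (hs : TL (XE len ring) (FE F) l l') :
    ∃ c', Rep1 len ring F J l' c' ∧ (c' = c ∨ RS len ring F c c') := by
  obtain ⟨a, b, hA, hE, rfl⟩ := TL_iff.1 hs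
  obtain ⟨hc, h | ⟨g, h | ⟨k, hk, ⟨h, hF⟩ | ⟨hk1, c', hS, h, hF0, hF⟩⟩⟩⟩ := h
  · obtain ⟨g, hg⟩ := FE_w hE
    rcases adj_cases hl hA with ⟨g', rfl, rfl⟩ | ⟨_, rfl, -⟩ | ⟨_, rfl, -⟩ | ⟨_, _, -, rfl, -⟩
    · exact ⟨c, ⟨hc, Or.inr ⟨g', Or.inl (h.go g')⟩⟩, Or.inl rfl⟩
    · rw [h.hub] at hg; cases hg
    · rw [h.zz] at hg; cases hg
    · rw [h.cell] at hg; cases hg
  · obtain ⟨g0, hg⟩ := FE_w hE
    rcases adj_cases hl hA with ⟨g', rfl, rfl⟩ | ⟨g', rfl, rfl | rfl⟩ | ⟨_, rfl, -⟩ |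
      ⟨_, _, -, rfl, -⟩
    · rw [hg, h.hub] at hE; cases hE
    · by_cases h1 : g' = g
      · subst h1
        exact ⟨c, ⟨hc, Or.inl h.back⟩, Or.inl rfl⟩
      · rw [h.hub, h.home, if_neg h1] at hE; cases hE
    · rw [h.hub, h.zz] at hE
      obtain rfl := FE_zeta hE
      exact ⟨c, ⟨hc, Or.inr ⟨g', Or.inr ⟨0, Nat.zero_le _, Or.inl ⟨h.go, by simp⟩⟩⟩⟩, Or.inl rfl⟩
    · rw [h.zz] at hg; cases hg
    · rw [h.cell] at hg; cases hg
  · have h2 := hl g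
    obtain ⟨rfl, hE', ⟨rfl, rfl⟩ | ⟨h3, rfl⟩ | ⟨h3, rfl⟩ | ⟨rfl, rfl⟩ | ⟨rfl, rfl⟩⟩ :=
      h.moves hinj hl hN hk hc (fun _ _ => rfl) (fun h1 => hF _ (by omega)) hA hE
    · exact ⟨c, ⟨hc, Or.inr ⟨g, Or.inl h.back⟩⟩, Or.inl rfl⟩
    · refine ⟨c, ⟨hc, Or.inr ⟨g, Or.inr ⟨k + 1, h3, Or.inl ⟨h.fwd hinj h3, fun n hn => ?_⟩⟩⟩⟩,
        Or.inl rfl⟩
      rw [h.rt _ h3, if_neg (by omega), if_neg (by omega)] at hE'
      rcases Nat.lt_succ_iff_lt_or_eq.1 hn with hn | rfl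
      · exact hF n hn
      · exact FE_tok hE'
    · obtain ⟨k, rfl⟩ : ∃ k', k = k' + 1 := ⟨k - 1, by omega⟩
      exact ⟨c, ⟨hc, Or.inr ⟨g, Or.inr ⟨k, by omega, Or.inl ⟨h.bwd hinj hk,
        fun n hn => hF n (by omega)⟩⟩⟩⟩, Or.inl rfl⟩
    · obtain ⟨c', hS⟩ := exists_Sh' (len g) (ring g) (hinj g) c
      refine ⟨c, ⟨hc, Or.inr ⟨g, Or.inr ⟨len g, le_rfl, Or.inr ⟨by omega, c', hS,
        h.wrap' hinj h2 hS, ?_, fun n h1 h2 => by omega⟩⟩⟩⟩, Or.inl rfl⟩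
      rw [h.rt _ le_rfl, if_neg (by omega), if_neg (by omega)] at hE'
      rw [hS.back (by omega), Nat.zero_add, Nat.mod_eq_of_lt (by omega)]
      exact FE_tok hE'
    · obtain ⟨c', hS⟩ := exists_Sh (len g) (ring g) (hinj g) c
      have hR : RS len ring F c c' := ⟨g, hF, Or.inl hS⟩
      exact ⟨c', ⟨hJ c hc c' hR, Or.inr ⟨g, Or.inr ⟨0, Nat.zero_le _,
        Or.inl ⟨h.wrap hinj h2 hS, by simp⟩⟩⟩⟩, Or.inr hR⟩
  · have h2 := hl g
    obtain ⟨rfl, hE', ⟨rfl, rfl⟩ | ⟨h3, rfl⟩ | ⟨h3, rfl⟩ | ⟨rfl, rfl⟩ | ⟨rfl, rfl⟩⟩ :=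
      h.moves hinj hl hN hk hc hS.2 (fun h1 => by
        rw [hS.1 _ (by omega), show k - 1 + 1 = k by omega]
        rcases Nat.lt_or_ge k (len g) with h4 | h4
        · rw [Nat.mod_eq_of_lt h4]; exact hF k le_rfl h4
        · rw [show k = len g by omega, Nat.mod_self]; exact hF0) hA hE
    · omega
    · exact ⟨c, ⟨hc, Or.inr ⟨g, Or.inr ⟨k + 1, h3, Or.inr ⟨by omega, c', hS, h.fwd hinj h3, hF0,
        fun n h4 h5 => hF n (by omega) h5⟩⟩⟩⟩, Or.inl rfl⟩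
    · obtain ⟨k, rfl⟩ : ∃ k', k = k' + 1 := ⟨k - 1, by omega⟩
      rw [h.rt _ (by omega), if_pos (by omega)] at hE'
      have hF' : ∀ n, k ≤ n → n < len g → F g (c' (ring g n)) := fun n h4 h5 => by
        rcases h4.eq_or_lt with rfl | h4
        · exact FE_tok hE'
        · exact hF n h4 h5
      rcases k with _ | k
      · have hR : RS len ring F c c' :=
          RS.symm ⟨g, fun n hn => hF' n (Nat.zero_le _) hn, Or.inl hS⟩
        exact ⟨c', ⟨hJ c hc c' hR, Or.inr ⟨g, Or.inr ⟨0, Nat.zero_le _,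
          Or.inl ⟨h.bwd hinj hk, by simp⟩⟩⟩⟩, Or.inr hR⟩
      · exact ⟨c, ⟨hc, Or.inr ⟨g, Or.inr ⟨k + 1, by omega, Or.inr ⟨by omega, c', hS,
          h.bwd hinj hk, hF0, hF'⟩⟩⟩⟩, Or.inl rfl⟩
    · omega
    · exact ⟨c, ⟨hc, Or.inr ⟨g, Or.inr ⟨0, Nat.zero_le _,
        Or.inl ⟨h.wrap hinj h2 hS, by simp⟩⟩⟩⟩, Or.inl rfl⟩

theorem TL.symm {P T : Type} [DecidableEq P] {X : P → P → Prop} {Fr : T → T → Prop}
    {c c' : P → T} (h : TL X Fr c c') : TL X Fr c' c := by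
  obtain ⟨a, b, hX, hF, rfl⟩ := h
  refine ⟨a, b, hX, by simpa using hF.symm, ?_⟩
  funext p; simp

theorem rtg_symm {S : Type} {R : S → S → Prop} (hR : ∀ a b, R a b → R b a) {a b : S}
    (h : ReflTransGen R a b) : ReflTransGen R b a := by
  induction h with
  | refl => exact .refl
  | tail _ hs ih => exact .head (hR _ _ hs) ih

omit [DecidableEq G] in
theorem Idle.uniq {c : Q → T} {l l' : Pos Q G → Ty G T} (h : Idle c l) (h' : Idle c l') :
    l = l' := by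
  funext p
  rcases p with _ | g | g | q
  · rw [h.hub, h'.hub]
  · rw [h.home, h'.home]
  · rw [h.zz, h'.zz]
  · rw [h.cell, h'.cell]

omit [DecidableEq G] in
theorem exists_Idle (c : Q → T) : ∃ l : Pos Q G → Ty G T, Idle c l :=
  ⟨fun | .hub => .baton | .home g => .w g | .z g => .zeta g | .cell q => .tok (c q),
    rfl, fun _ => rfl, fun _ => rfl, fun _ => rfl⟩

theorem lift1 (hinj : ∀ g, ∀ n < len g, ∀ n' < len g, ring g n = ring g n' → n = n')
    (hl : ∀ g, 2 ≤ len g) {g : G} {c c' : Q → T} (hF : ∀ n < len g, F g (c (ring g n)))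
    (hS : Sh (len g) (ring g) c c') {l : Pos Q G → Ty G T} (h : Idle c l) :
    ∃ l', Idle c' l' ∧ ReflTransGen (TL (XE len ring) (FE F)) l l' := by
  have h2 := hl g
  have st : ∀ (l : Pos Q G → Ty G T) (a b : Pos Q G), Adj len ring a b → FE F (l a) (l b) →
      TL (XE len ring) (FE F) l (l ∘ Equiv.swap a b) :=
    fun l a b h1 h2 => TL_iff.2 ⟨a, b, h1, h2, rfl⟩
  have a1 : ∀ l : Pos Q G → Ty G T, AtH g c l →
      TL (XE len ring) (FE F) l (l ∘ Equiv.swap .hub (.z g)) := fun l h1 =>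
    st l .hub (.z g) (Or.inl (.z g)) (by rw [h1.hub, h1.zz]; exact .zeta g)
  have a2 : ∀ l : Pos Q G → Ty G T, Out len ring g 0 c' l →
      TL (XE len ring) (FE F) l (l ∘ Equiv.swap (.z g) .hub) := fun l ho' =>
    st l (.z g) .hub (Or.inr (.z g)) (by
      have := ho'.rt 0 (Nat.zero_le _)
      rw [if_neg (by omega), if_pos rfl, route] at this
      rw [ho'.hub, this]
      exact .zeta g)
  have a3 : ∀ l : Pos Q G → Ty G T, AtH g c' l →
      TL (XE len ring) (FE F) l (l ∘ Equiv.swap .hub (.home g)) := fun l h3 =>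
    st l .hub (.home g) (Or.inl (.home g)) (by
      rw [h3.hub, h3.home, if_pos rfl]; exact .baton g)
  have s1 := st l (.home g) .hub (Or.inr (.home g)) (by rw [h.home, h.hub]; exact .baton g)
  have h1 := h.go g
  have key : ∀ k ≤ len g, ∃ l', Out len ring g k c l' ∧
      ReflTransGen (TL (XE len ring) (FE F)) l l' := by
    intro k hk
    induction k with
    | zero => exact ⟨_, h1.go, (ReflTransGen.single s1).tail (a1 _ h1)⟩
    | succ k ih =>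
      obtain ⟨l', ho, hr⟩ := ih (by omega)
      refine ⟨_, ho.fwd hinj hk, hr.tail (st _ _ _ (Or.inl (.next g k hk)) ?_)⟩
      rw [ho.rt _ (by omega), ho.rt _ hk, if_neg (by omega), if_pos rfl, if_neg (by omega),
        if_neg (by omega)]
      exact .tok g _ (hF _ hk)
  obtain ⟨l', ho, hr⟩ := key _ le_rfl
  have ho' := ho.wrap hinj h2 hS
  have s3 := st l' _ _ (Or.inl (.wrap g)) (by
    rw [ho.rt _ le_rfl, ho.rt _ (Nat.zero_le _), if_neg (by omega), if_pos rfl, if_pos (by omega)]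
    exact .tok g _ (hF _ (by omega)))
  exact ⟨_, ho'.back.back, ((hr.tail s3).tail (a2 _ ho')).tail (a3 _ ho'.back)⟩

theorem hard_of_RS [Fintype Q] [Fintype G]
    (hinj : ∀ g, ∀ n < len g, ∀ n' < len g, ring g n = ring g n' → n = n')
    (hl : ∀ g, 2 ≤ len g) {J : Set (Q → T)} (hN : NoLeak len ring F J)
    (hJ : ∀ c ∈ J, ∀ c', RS len ring F c c' → c' ∈ J) {c0 c1 : Q → T} (h0 : c0 ∈ J) {N : ℕ}
    (h : Far (RS len ring F) c0 c1 N) : Hard (2 * Fintype.card G + Fintype.card Q + 1) N := by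
  obtain ⟨l0, hl0⟩ := exists_Idle (G := G) c0
  obtain ⟨l1, -, hf⟩ := h.sim (RL := TL (XE len ring) (FE F)) (Rep1 len ring F J)
    (fun l c => c ∈ J ∧ Idle c l) l0 ⟨h0, hl0⟩ (fun l c h => ⟨h.1, Or.inl h.2⟩)
    (fun l c c' h h' => by
      obtain ⟨-, h' | ⟨g, h' | ⟨k, -, ⟨h', -⟩ | ⟨-, _, -, h', -⟩⟩⟩⟩ := h'
      · funext q
        have := h'.cell q
        rw [h.2.cell] at this
        exact (Ty.tok.inj this).symm
      all_goals
        have := h'.hub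
        rw [h.2.hub] at this
        cases this)
    (sim1 hinj hl hN hJ)
    (fun l c c' h hs => by
      have hc' := hJ c h.1 c' hs
      obtain ⟨g, hF, hS | hS⟩ := hs
      · obtain ⟨l', h1, h2⟩ := lift1 hinj hl hF hS h.2
        exact ⟨l', ⟨hc', h1⟩, h2⟩
      · obtain ⟨l', h1⟩ := exists_Idle (G := G) c'
        obtain ⟨l'', h2, h3⟩ := lift1 (F := F) hinj hl
          (fun n hn => hS.back hn ▸ hF _ (Nat.mod_lt _ (by omega))) hS h1
        rw [h2.uniq h.2] at h3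
        exact ⟨l', ⟨hc', h1⟩, rtg_symm (fun _ _ => TL.symm) h3⟩)
  letI : Fintype (Pos Q G) := Fintype.ofEquiv _ (posEquiv Q G)
  have := hard_of_TL _ _ hf
  rw [Fintype.ofEquiv_card] at this
  simp only [Fintype.card_option, Fintype.card_sum] at this
  rwa [show 2 * Fintype.card G + Fintype.card Q + 1
    = Fintype.card G + (Fintype.card G + Fintype.card Q) + 1 by ring]

end

end Pool.Agent.H.MP_f87a07_co
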