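import Mathlib
import Pool.Agent.H.MP_f87a07_co.C

set_option autoImplicit false

namespace Pool.Agent.H.MP_f87a07_co

open Relation

section
variable {P G T : Type} (L : G → ℕ) (hL : ∀ g, 0 < L g) (cell : G → ℕ → P) (F : G → T → Prop)

/-- private door cells -/
def door (g : G) (i : ℕ) : P ⊕ (Σ g, Fin (L g)) := .inr ⟨g, ⟨i % L g, Nat.mod_lt _ (hL g)⟩⟩

/-- rings with doors -/
def ring2 (g : G) (n : ℕ) : P ⊕ (Σ g, Fin (L g)) :=
  if n % 2 = 0 then .inl (cell g (n / 2)) else door L hL g (n / 2)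

/-- friendship with doors -/
def F2 (g : G) : G ⊕ T → Prop
  | .inl g' => g' = g
  | .inr t => F g t

/-- representation relation of the second layer -/
def Rep2 (c : P ⊕ (Σ g, Fin (L g)) → G ⊕ T) (d : P → T) : Prop :=
  ∃ odd : G → Prop,
    (∀ g, odd g → ∀ i < L g, F g (d (cell g i)) ∧ c (.inl (cell g i)) = .inl g ∧
      c (door L hL g i) = .inr (d (cell g ((i + 1) % L g)))) ∧
    (∀ g, ¬ odd g → ∀ i < L g, c (door L hL g i) = .inl g) ∧
    ∀ p, (∀ g, odd g → ∀ i < L g, cell g i ≠ p) → c (.inl p) = .inr (d p)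

variable {L hL cell F}

theorem door_inj {g g' : G} {i i' : ℕ} (hi : i < L g) (hi' : i' < L g')
    (h : (door L hL g i : P ⊕ _) = door L hL g' i') : g = g' ∧ i = i' := by
  simp only [door, Sum.inr.injEq, Sigma.mk.injEq] at h
  obtain ⟨rfl, h⟩ := h
  simp only [heq_eq_eq, Fin.mk.injEq] at h
  rw [Nat.mod_eq_of_lt hi, Nat.mod_eq_of_lt hi'] at h
  exact ⟨rfl, h⟩

theorem door_ne (g : G) (i : ℕ) (p : P) : door L hL g i ≠ .inl p := by simp [door]

theorem ring2_even (g : G) (i : ℕ) : ring2 L hL cell g (2 * i) = .inl (cell g i) := by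
  simp [ring2]

theorem ring2_odd (g : G) (i : ℕ) : ring2 L hL cell g (2 * i + 1) = door L hL g i := by
  have : (2 * i + 1) / 2 = i := by omega
  simp [ring2, this]

theorem parity (n : ℕ) : ∃ i, n = 2 * i ∨ n = 2 * i + 1 := ⟨n / 2, by omega⟩

theorem ring2_inj (hinj : ∀ g, ∀ n < L g, ∀ n' < L g, cell g n = cell g n' → n = n') (g : G)
    (n : ℕ) (hn : n < 2 * L g) (n' : ℕ) (hn' : n' < 2 * L g)
    (h : ring2 L hL cell g n = ring2 L hL cell g n') : n = n' := by
  obtain ⟨i, rfl | rfl⟩ := parity n <;> obtain ⟨j, rfl | rfl⟩ := parity n' <;>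
    simp only [ring2_even, ring2_odd] at h
  · rw [hinj g i (by omega) j (by omega) (Sum.inl.inj h)]
  · exact absurd h.symm (door_ne _ _ _)
  · exact absurd h (door_ne _ _ _)
  · rw [(door_inj (by omega) (by omega) h).2]

theorem Sh2 {g : G} {c c' : P ⊕ (Σ g, Fin (L g)) → G ⊕ T}
    (h : Sh (2 * L g) (ring2 L hL cell g) c c') :
    (∀ i < L g, c' (.inl (cell g i)) = c (door L hL g i) ∧
      c' (door L hL g i) = c (.inl (cell g ((i + 1) % L g)))) ∧
    (∀ p, (∀ i < L g, cell g i ≠ p) → c' (.inl p) = c (.inl p)) ∧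
    ∀ g', g' ≠ g → ∀ i < L g', c' (door L hL g' i) = c (door L hL g' i) := by
  refine ⟨fun i hi => ⟨?_, ?_⟩, fun p hp => h.2 _ fun n hn => ?_,
    fun g' hg i hi => h.2 _ fun n hn => ?_⟩
  · rw [← ring2_even (hL := hL), h.1 _ (by omega), Nat.mod_eq_of_lt (by omega), ring2_odd]
  · rw [← ring2_odd (cell := cell), h.1 _ (by omega), show 2 * i + 1 + 1 = 2 * (i + 1) by ring,
      Nat.mul_mod_mul_left, ring2_even]
  · obtain ⟨j, rfl | rfl⟩ := parity n
    · rw [ring2_even]; exact fun h => hp j (by omega) (Sum.inl.inj h)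
    · rw [ring2_odd]; exact door_ne _ _ _
  · obtain ⟨j, rfl | rfl⟩ := parity n
    · rw [ring2_even]; exact (door_ne _ _ _).symm
    · rw [ring2_odd]; exact fun h => hg (door_inj (by omega) hi h).1.symm

theorem sim2 (hinj : ∀ g, ∀ n < L g, ∀ n' < L g, cell g n = cell g n' → n = n')
    (c : P ⊕ (Σ g, Fin (L g)) → G ⊕ T) (d : P → T) (c' : P ⊕ (Σ g, Fin (L g)) → G ⊕ T)
    (h : Rep2 L hL cell F c d) (hs : RS (fun g => 2 * L g) (ring2 L hL cell) (F2 F) c c') :
    ∃ d', Rep2 L hL cell F c' d' ∧ (d' = d ∨ RS L cell F d d') := by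
  obtain ⟨odd, ha, hb, hc⟩ := h
  obtain ⟨g, hF, hS⟩ := hs
  have hF1 : ∀ i < L g, F2 F g (c (.inl (cell g i))) := fun i hi => by
    rw [← ring2_even (hL := hL)]; exact hF _ (by simp only; omega)
  have hdis : ∀ g', g' ≠ g → odd g' → ∀ i' < L g', ∀ i < L g, cell g i ≠ cell g' i' := by
    intro g' hg ho i' hi' i hi he
    have := hF1 i hi
    rw [he, (ha g' ho i' hi').2.1] at this
    exact hg this
  have hm : ∀ i, (i + 1) % L g < L g := fun i => Nat.mod_lt _ (hL g)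
  have hm' : ∀ i, (i + L g - 1) % L g < L g := fun i => Nat.mod_lt _ (hL g)
  -- the other gadgets keep their description
  have other : ∀ d' : P → T, (∀ p, (∀ i < L g, cell g i ≠ p) → d' p = d p) →
      (∀ p, (∀ i < L g, cell g i ≠ p) → c' (.inl p) = c (.inl p)) →
      (∀ g', g' ≠ g → ∀ i < L g', c' (door L hL g' i) = c (door L hL g' i)) →
      ∀ g', g' ≠ g → odd g' → ∀ i < L g', F g' (d' (cell g' i)) ∧
        c' (.inl (cell g' i)) = .inl g' ∧
        c' (door L hL g' i) = .inr (d' (cell g' ((i + 1) % L g'))) := by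
    intro d' h1 h2 h3 g' hg ho i hi
    rw [h1 _ (hdis g' hg ho i hi), h2 _ (hdis g' hg ho i hi), h3 g' hg i hi,
      h1 _ (hdis g' hg ho _ (Nat.mod_lt _ (hL g')))]
    exact ha g' ho i hi
  have become_odd : ∀ d' : P → T, ¬ odd g → (∀ p, (∀ i < L g, cell g i ≠ p) → d' p = d p) →
      (∀ p, (∀ i < L g, cell g i ≠ p) → c' (.inl p) = c (.inl p)) →
      (∀ g', g' ≠ g → ∀ i < L g', c' (door L hL g' i) = c (door L hL g' i)) →
      (∀ i < L g, F g (d' (cell g i)) ∧ c' (.inl (cell g i)) = .inl g ∧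
        c' (door L hL g i) = .inr (d' (cell g ((i + 1) % L g)))) → Rep2 L hL cell F c' d' := by
    intro d' ho h1 h2 h3 h4
    refine ⟨fun g' => odd g' ∨ g' = g, fun g' hg' => ?_, fun g' hg' i hi => ?_, fun p hp => ?_⟩
    · by_cases hg : g' = g
      · subst hg; exact h4
      · exact other d' h1 h2 h3 g' hg (hg'.resolve_right hg)
    · push Not at hg'
      rw [h3 g' hg'.2 i hi, hb g' hg'.1 i hi]
    · rw [h2 p (hp g (Or.inr rfl)), h1 p (hp g (Or.inr rfl))]
      exact hc p fun g' ho' => hp g' (Or.inl ho')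
  have become_even : ∀ d' : P → T, (∀ p, (∀ i < L g, cell g i ≠ p) → d' p = d p) →
      (∀ p, (∀ i < L g, cell g i ≠ p) → c' (.inl p) = c (.inl p)) →
      (∀ g', g' ≠ g → ∀ i < L g', c' (door L hL g' i) = c (door L hL g' i)) →
      (∀ i < L g, c' (.inl (cell g i)) = .inr (d' (cell g i)) ∧ c' (door L hL g i) = .inl g) →
      Rep2 L hL cell F c' d' := by
    intro d' h1 h2 h3 h4
    refine ⟨fun g' => odd g' ∧ g' ≠ g, fun g' hg' => other d' h1 h2 h3 g' hg'.2 hg'.1,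
      fun g' hg' i hi => ?_, fun p hp => ?_⟩
    · by_cases hg : g' = g
      · subst hg; exact (h4 i hi).2
      · rw [h3 g' hg i hi]
        exact hb g' (fun h => hg' ⟨h, hg⟩) i hi
    · by_cases h : ∃ i < L g, cell g i = p
      · obtain ⟨i, hi, rfl⟩ := h
        exact (h4 i hi).1
      · push Not at h
        rw [h2 p h, h1 p h]
        refine hc p fun g' ho' => ?_
        by_cases hg : g' = g
        · subst hg; exact h
        · exact hp g' ⟨ho', hg⟩
  by_cases ho : odd g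
  · rcases hS with hS | hS
    · obtain ⟨h1, h2, h3⟩ := Sh2 hS
      obtain ⟨d', hd⟩ := exists_Sh (L g) (cell g) (hinj g) d
      refine ⟨d', become_even d' hd.2 h2 h3 fun i hi => ⟨?_, ?_⟩,
        Or.inr ⟨g, fun i hi => (ha g ho i hi).1, Or.inl hd⟩⟩
      · rw [(h1 i hi).1, (ha g ho i hi).2.2, hd.1 i hi]
      · rw [(h1 i hi).2, (ha g ho _ (hm i)).2.1]
    · obtain ⟨h1, h2, h3⟩ := Sh2 hS
      refine ⟨d, become_even d (fun _ _ => rfl) (fun p hp => (h2 p hp).symm)
        (fun g' hg i hi => (h3 g' hg i hi).symm) fun i hi => ⟨?_, ?_⟩, Or.inl rfl⟩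
      · have := (h1 _ (hm' i)).2
        rw [(ha g ho _ (hm' i)).2.2, succ_mod hi] at this
        exact this.symm
      · rw [← (h1 i hi).1, (ha g ho i hi).2.1]
  · have hd0 : ∀ i < L g, c (.inl (cell g i)) = .inr (d (cell g i)) := fun i hi =>
      hc _ fun g' ho' i' hi' => (hdis g' (fun h => ho (h ▸ ho')) ho' i' hi' i hi).symm
    have hF0 : ∀ i < L g, F g (d (cell g i)) := fun i hi => by
      have := hF1 i hi
      rwa [hd0 i hi] at this
    rcases hS with hS | hS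
    · obtain ⟨h1, h2, h3⟩ := Sh2 hS
      refine ⟨d, become_odd d ho (fun _ _ => rfl) h2 h3 fun i hi => ⟨hF0 i hi, ?_, ?_⟩,
        Or.inl rfl⟩
      · rw [(h1 i hi).1, hb g ho i hi]
      · rw [(h1 i hi).2, hd0 _ (hm i)]
    · obtain ⟨h1, h2, h3⟩ := Sh2 hS
      obtain ⟨d', hd⟩ := exists_Sh' (L g) (cell g) (hinj g) d
      refine ⟨d', become_odd d' ho (fun p hp => (hd.2 p hp).symm) (fun p hp => (h2 p hp).symm)
        (fun g' hg i hi => (h3 g' hg i hi).symm) fun i hi => ⟨?_, ?_, ?_⟩,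
        Or.inr ⟨g, hF0, Or.inr hd⟩⟩
      · rw [hd.back hi]; exact hF0 _ (hm' i)
      · have := (h1 _ (hm' i)).2
        rw [hb g ho _ (hm' i), succ_mod hi] at this
        exact this.symm
      · rw [← (h1 i hi).1, hd0 i hi, hd.1 i hi]

theorem noleak2 : NoLeak (fun g => 2 * L g) (ring2 L hL cell) (F2 F)
    {c | ∃ d, Rep2 L hL cell F c d} := by
  rintro c ⟨d, odd, ha, hb, -⟩ g g' hg i hi j hj he hF j' hj' hjj
  obtain ⟨i, rfl | rfl⟩ := parity i <;> obtain ⟨j, rfl | rfl⟩ := parity j <;>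
    simp only [ring2_even, ring2_odd] at he hF hi hj hj'
  · have ho : ¬ odd g' := fun ho => by
      rw [he, (ha g' ho j (by omega)).2.1] at hF
      exact hg hF
    obtain ⟨j'', rfl | rfl⟩ := parity j'
    · omega
    rw [ring2_odd, hb g' ho j'' (by omega)]
    refine ⟨fun n hn => ?_, hg⟩
    obtain ⟨n, rfl | rfl⟩ := parity n
    · rw [ring2_even]; exact (door_ne _ _ _).symm
    · rw [ring2_odd]; exact fun h => hg (door_inj (by simp only at hn; omega) (by omega) h).1.symm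
  · exact absurd he.symm (door_ne _ _ _)
  · exact absurd he (door_ne _ _ _)
  · exact absurd (door_inj (by omega) (by omega) he).1.symm hg

variable (L hL) in
/-- rest states of the second layer -/
def Good2 (c : P ⊕ (Σ g, Fin (L g)) → G ⊕ T) (d : P → T) : Prop :=
  (∀ p, c (.inl p) = .inr (d p)) ∧ ∀ g, ∀ i < L g, c (door L hL g i) = .inl g

theorem Good2.uniq {c c' : P ⊕ (Σ g, Fin (L g)) → G ⊕ T} {d : P → T} (h : Good2 L hL c d)
    (h' : Good2 L hL c' d) : c = c' := by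
  funext x
  rcases x with p | ⟨g, i, hi⟩
  · rw [h.1, h'.1]
  · have := h.2 g i hi
    rw [← h'.2 g i hi] at this
    simpa [door, Nat.mod_eq_of_lt hi] using this

theorem exists_Good2 (d : P → T) : ∃ c : P ⊕ (Σ g, Fin (L g)) → G ⊕ T, Good2 L hL c d :=
  ⟨fun | .inl p => .inr (d p) | .inr x => .inl x.1, fun _ => rfl, fun _ _ _ => rfl⟩

theorem lift2 (hinj : ∀ g, ∀ n < L g, ∀ n' < L g, cell g n = cell g n' → n = n') {g : G}
    {d d' : P → T} (hF : ∀ n < L g, F g (d (cell g n))) (hS : Sh (L g) (cell g) d d')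
    {c : P ⊕ (Σ g, Fin (L g)) → G ⊕ T} (h : Good2 L hL c d) :
    ∃ c', Good2 L hL c' d' ∧
      ReflTransGen (RS (fun g => 2 * L g) (ring2 L hL cell) (F2 F)) c c' := by
  obtain ⟨c1, h1⟩ := exists_Sh (2 * L g) (ring2 L hL cell g) (ring2_inj hinj g) c
  obtain ⟨c2, h2⟩ := exists_Sh (2 * L g) (ring2 L hL cell g) (ring2_inj hinj g) c1
  have r1 : RS (fun g => 2 * L g) (ring2 L hL cell) (F2 F) c c1 := ⟨g, fun n hn => by
    simp only at hn
    obtain ⟨i, rfl | rfl⟩ := parity n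
    · rw [ring2_even, h.1]; exact hF i (by omega)
    · rw [ring2_odd, h.2 g i (by omega)]; rfl, Or.inl h1⟩
  have r2 : RS (fun g => 2 * L g) (ring2 L hL cell) (F2 F) c1 c2 := ⟨g, fun n hn => by
    simp only at hn
    obtain ⟨i, rfl | rfl⟩ := parity n
    · rw [ring2_even, ((Sh2 h1).1 i (by omega)).1, h.2 g i (by omega)]; rfl
    · rw [ring2_odd, ((Sh2 h1).1 i (by omega)).2, h.1]
      exact hF _ (Nat.mod_lt _ (hL g)), Or.inl h2⟩
  refine ⟨c2, ⟨fun p => ?_, fun g' i hi => ?_⟩, (ReflTransGen.single r1).tail r2⟩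
  · by_cases hp : ∃ i < L g, cell g i = p
    · obtain ⟨i, hi, rfl⟩ := hp
      rw [((Sh2 h2).1 i hi).1, ((Sh2 h1).1 i hi).2, h.1, hS.1 i hi]
    · push Not at hp
      rw [(Sh2 h2).2.1 p hp, (Sh2 h1).2.1 p hp, h.1, hS.2 p hp]
  · by_cases hg : g' = g
    · subst hg
      rw [((Sh2 h2).1 i hi).2, ((Sh2 h1).1 _ (Nat.mod_lt _ (hL g'))).1,
        h.2 _ _ (Nat.mod_lt _ (hL g'))]
    · rw [(Sh2 h2).2.2 g' hg i hi, (Sh2 h1).2.2 g' hg i hi, h.2 g' i hi]

theorem hard_of_GCS [Fintype P] [Fintype G] (hL : ∀ g, 0 < L g)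
    (hinj : ∀ g, ∀ n < L g, ∀ n' < L g, cell g n = cell g n' → n = n') {d0 d1 : P → T} {N : ℕ}
    (h : Far (RS L cell F) d0 d1 N) :
    Hard (2 * Fintype.card G + (Fintype.card P + ∑ g, L g) + 1) N := by
  classical
  obtain ⟨c0, hc0⟩ := exists_Good2 (hL := hL) d0
  have hG : ∀ c d, Good2 L hL c d → Rep2 L hL cell F c d := fun c d h =>
    ⟨fun _ => False, fun _ h => h.elim, fun g _ => h.2 g, fun p _ => h.1 p⟩
  obtain ⟨c1, -, hf⟩ := h.sim (RL := RS (fun g => 2 * L g) (ring2 L hL cell) (F2 F))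
    (Rep2 L hL cell F) (Good2 L hL) c0 hc0 hG
    (fun c d d' h ⟨odd, ha, _, hc⟩ => by
      funext p
      have := hc p fun g ho i hi he => by
        have := (ha g ho i hi).2.1
        rw [h.1] at this
        cases this
      rw [h.1] at this
      exact (Sum.inr.inj this).symm)
    (sim2 hinj)
    (fun c d d' h hs => by
      obtain ⟨g, hF, hS | hS⟩ := hs
      · exact lift2 hinj hF hS h
      · obtain ⟨c', h1⟩ := exists_Good2 (hL := hL) d'
        obtain ⟨c'', h2, h3⟩ := lift2 (F := F) hinj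
          (fun n hn => hS.back hn ▸ hF _ (Nat.mod_lt _ (by omega))) hS h1
        rw [h2.uniq h] at h3
        exact ⟨c', h1, rtg_symm (fun _ _ => RS.symm) h3⟩)
  have := hard_of_RS (ring2_inj hinj) (fun g => by have := hL g; omega) noleak2
    (fun c ⟨d, hd⟩ c' hs => by
      obtain ⟨d', h, -⟩ := sim2 hinj c d c' hd hs
      exact ⟨d', h⟩) ⟨d0, hG _ _ hc0⟩ hf
  simpa [Fintype.card_sigma] using this

end

end Pool.Agent.H.MP_f87a07_co
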