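import Mathlib
import Pool.Agent.H.MP_f87a07_co.D

set_option autoImplicit false

namespace Pool.Agent.H.MP_f87a07_co

open Relation

/-- partner index -/
def pr (r n : ℕ) : ℕ := (n + r) % (2 * r)

theorem pr_eq {r n : ℕ} (hn : n < 2 * r) : pr r n = if n < r then n + r else n - r := by
  unfold pr
  split_ifs with h
  · exact Nat.mod_eq_of_lt (by omega)
  · rw [show n + r = (n - r) + 2 * r by omega, Nat.add_mod_right, Nat.mod_eq_of_lt (by omega)]

theorem pr_lt {r n : ℕ} (hn : n < 2 * r) : pr r n < 2 * r := Nat.mod_lt _ (by omega)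

theorem pr_pr {r n : ℕ} (hn : n < 2 * r) : pr r (pr r n) = n := by
  rw [pr_eq (pr_lt hn), pr_eq hn]; split_ifs <;> omega

theorem pr_ne {r n : ℕ} (hn : n < 2 * r) : pr r n ≠ n := by
  rw [pr_eq hn]; split_ifs <;> omega

theorem add_mod_eq {r n e : ℕ} (hn : n < 2 * r) (he : e < r) :
    (n + e) % (2 * r) = if n + e < 2 * r then n + e else n + e - 2 * r := by
  split_ifs with h
  · exact Nat.mod_eq_of_lt h
  · rw [show n + e = (n + e - 2 * r) + 2 * r by omega, Nat.add_mod_right,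
      Nat.mod_eq_of_lt (by omega)]
    omega

section
variable {P T Rl : Type} (r : Rl → ℕ) (hr : ∀ ρ, 0 < 2 * r ρ) (x : Rl → ℕ → P) (t : Rl → ℕ → T)
  (M : ℕ) (cv : ℕ → P) (Fc : T → Prop)

/-- simultaneous swaps of pairs of cells with prescribed types -/
def Rule (ρ : Rl) (c c' : P → T) : Prop :=
  (∀ n < 2 * r ρ, (c (x ρ n) = t ρ n ∧ c (x ρ (pr (r ρ) n)) = t ρ (pr (r ρ) n)) ∨
    (c (x ρ n) = t ρ (pr (r ρ) n) ∧ c (x ρ (pr (r ρ) n)) = t ρ n)) ∧
  (∀ n < 2 * r ρ, c' (x ρ n) = c (x ρ (pr (r ρ) n))) ∧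
  ∀ p, (∀ n < 2 * r ρ, x ρ n ≠ p) → c' p = c p

/-- rules and one conveyor -/
def IR (c c' : P → T) : Prop :=
  (∃ ρ, Rule r x t ρ c c') ∨ ((∀ n < M, Fc (c (cv n))) ∧ (Sh M cv c c' ∨ Sh M cv c' c))

/-- gadgets -/
abbrev G3 : Type := Option (Rl ⊕ (Σ ρ, Fin (2 * r ρ)) × Bool)

/-- cells -/
abbrev P3 (P : Type) : Type := P ⊕ (Σ ρ, Fin (2 * r ρ))

/-- auxiliary cells -/
abbrev aux (ρ : Rl) (j : ℕ) : P3 r P := door (fun ρ => 2 * r ρ) hr ρ j

/-- lengths -/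
def L3 : G3 r → ℕ
  | none => M
  | some (.inl ρ) => 2 * r ρ
  | some (.inr _) => 2

/-- index of the auxiliary cell -/
def jj (r n : ℕ) (b : Bool) : ℕ := if b then pr r n else n

/-- cells of the gadgets -/
def cell3 : G3 r → ℕ → P3 r P
  | none, n => .inl (cv n)
  | some (.inl ρ), n => .inl (x ρ n)
  | some (.inr (⟨ρ, n⟩, b)), k => if k = 0 then .inl (x ρ n) else aux r hr ρ (jj (r ρ) n b)

/-- guards -/
def F3 : G3 r → T ⊕ Rl × ℕ → Prop
  | none, y => ∃ s, y = .inl s ∧ Fc s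
  | some (.inl ρ), y => ∃ j, y = .inr (ρ, j)
  | some (.inr (⟨ρ, n⟩, b)), y => y = .inl (t ρ (jj (r ρ) n b)) ∨ y = .inr (ρ, jj (r ρ) n b)

/-- representation data of the third layer -/
structure Rep3 (d : P3 r P → T ⊕ Rl × ℕ) (c : P → T) (e : Rl → ℕ) (h : Rl → ℕ → Option ℕ) :
    Prop where
  a : ∀ ρ, e ρ < r ρ
  b : ∀ ρ, ∀ n < 2 * r ρ, ∀ j, h ρ n = some j → (j = n ∨ j = pr (r ρ) n) ∧ c (x ρ n) = t ρ j ∧
    d (aux r hr ρ j) = .inl (t ρ j)
  cc : ∀ ρ, ∀ n < 2 * r ρ, ∀ n' < 2 * r ρ, ∀ j, h ρ n = some j → h ρ n' = some j → n = n'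
  dd : ∀ ρ, e ρ ≠ 0 → ∀ n < 2 * r ρ, h ρ n ≠ none
  ee : ∀ ρ, ∀ n < 2 * r ρ, ∀ j, h ρ ((n + e ρ) % (2 * r ρ)) = some j →
    d (.inl (x ρ n)) = .inr (ρ, j)
  f : ∀ p, (∀ ρ, ∀ n < 2 * r ρ, x ρ n = p → h ρ n = none) → d (.inl p) = .inl (c p)
  g : ∀ ρ, ∀ j < 2 * r ρ, (∀ n < 2 * r ρ, h ρ n ≠ some j) → d (aux r hr ρ j) = .inr (ρ, j)

variable {r hr x t M cv Fc}
variable {d d' : P3 r P → T ⊕ Rl × ℕ} {c c' : P → T} {e : Rl → ℕ} {h : Rl → ℕ → Option ℕ}

theorem Rep3.lock (H : Rep3 r hr x t d c e h) {ρ : Rl} {n : ℕ} (hn : n < 2 * r ρ)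
    (hh : h ρ n ≠ none) : ∃ j, h ρ ((n + e ρ) % (2 * r ρ)) = some j ∧
      d (.inl (x ρ n)) = .inr (ρ, j) := by
  have : h ρ ((n + e ρ) % (2 * r ρ)) ≠ none := by
    by_cases he : e ρ = 0
    · rwa [he, Nat.add_zero, Nat.mod_eq_of_lt hn]
    · exact H.dd ρ he _ (Nat.mod_lt _ (hr ρ))
  obtain ⟨j, hj⟩ := Option.ne_none_iff_exists'.1 this
  exact ⟨j, hj, H.ee ρ n hn j hj⟩

theorem Rep3.free (H : Rep3 r hr x t d c e h) {p : P} {s : T} (hp : d (.inl p) = .inl s) :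
    (∀ ρ, ∀ n < 2 * r ρ, x ρ n = p → h ρ n = none) ∧ s = c p := by
  have : ∀ ρ, ∀ n < 2 * r ρ, x ρ n = p → h ρ n = none := fun ρ n hn he => by
    by_contra hh
    obtain ⟨j, -, hj⟩ := H.lock hn hh
    rw [he, hp] at hj
    cases hj
  refine ⟨this, ?_⟩
  rw [H.f p this] at hp
  exact (Sum.inl.inj hp).symm

theorem Rep3.locked (hx : ∀ ρ, ∀ n < 2 * r ρ, ∀ n' < 2 * r ρ, x ρ n = x ρ n' → n = n')
    (H : Rep3 r hr x t d c e h) {ρ : Rl} {n j : ℕ} (hn : n < 2 * r ρ)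
    (hp : d (.inl (x ρ n)) = .inr (ρ, j)) : h ρ n ≠ none := by
  intro h0
  have := H.f (x ρ n) fun ρ' n' hn' he => by
    by_contra hh
    obtain ⟨j', -, hj⟩ := H.lock hn' hh
    rw [he, hp] at hj
    cases hj
    rw [hx _ _ hn' _ hn he] at hh
    exact hh h0
  rw [hp] at this
  cases this

theorem Rep3.conv (H : Rep3 r hr x t d c e h) (hF : ∀ n < M, ∃ s, d (.inl (cv n)) = .inl s)
    (φ : ℕ → ℕ) (hφ : ∀ n < M, φ n < M) (h1 : ∀ n < M, d' (.inl (cv n)) = d (.inl (cv (φ n))))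
    (h2 : ∀ q, (∀ n < M, .inl (cv n) ≠ q) → d' q = d q) (h3 : ∀ n < M, c' (cv n) = c (cv (φ n)))
    (h4 : ∀ p, (∀ n < M, cv n ≠ p) → c' p = c p) : Rep3 r hr x t d' c' e h := by
  have ha : ∀ ρ j, d' (aux r hr ρ j) = d (aux r hr ρ j) := fun ρ j =>
    h2 _ fun n _ => (door_ne _ _ _).symm
  refine ⟨H.a, fun ρ n hn j hj => ?_, H.cc, H.dd, fun ρ n hn j hj => ?_, fun p hp => ?_,
    fun ρ j hj hh => ?_⟩
  · rw [ha, h4]
    · exact H.b ρ n hn j hj
    · intro k hk he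
      obtain ⟨s, hs⟩ := hF k hk
      rw [(H.free hs).1 ρ n hn he.symm] at hj
      cases hj
  · rw [h2, H.ee ρ n hn j hj]
    intro k hk he
    obtain ⟨s, hs⟩ := hF k hk
    rw [he, H.ee ρ n hn j hj] at hs
    cases hs
  · by_cases hk : ∃ k < M, cv k = p
    · obtain ⟨k, hk, rfl⟩ := hk
      obtain ⟨s, hs⟩ := hF _ (hφ k hk)
      rw [h1 k hk, h3 k hk, hs, (H.free hs).2]
    · push Not at hk
      rw [h2 _ fun n hn he => hk n hn (Sum.inl.inj he), h4 p hk, H.f p hp]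
  · rw [ha, H.g ρ j hj hh]

theorem Rep3.main [DecidableEq Rl]
    (hx : ∀ ρ, ∀ n < 2 * r ρ, ∀ n' < 2 * r ρ, x ρ n = x ρ n' → n = n')
    (H : Rep3 r hr x t d c e h) {ρ : Rl} (hF : ∀ n < 2 * r ρ, h ρ n ≠ none) (E : ℕ)
    (h1 : ∀ n < 2 * r ρ, ∀ j, h ρ ((n + E) % (2 * r ρ)) = some j →
      d' (.inl (x ρ n)) = .inr (ρ, j))
    (h2 : ∀ q, (∀ n < 2 * r ρ, .inl (x ρ n) ≠ q) → d' q = d q) {e' : ℕ} (he' : e' < r ρ)
    (hE : E % (2 * r ρ) = e' ∨ E % (2 * r ρ) = e' + r ρ) :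
    ∃ c' e h, Rep3 r hr x t d' c' e h ∧ (c' = c ∨ Rule r x t ρ c c') := by
  have ha : ∀ ρ j, d' (aux r hr ρ j) = d (aux r hr ρ j) := fun ρ j =>
    h2 _ fun n _ => (door_ne _ _ _).symm
  have hdis : ∀ ρ', ρ' ≠ ρ → ∀ n' < 2 * r ρ', ∀ j, d (.inl (x ρ' n')) = .inr (ρ', j) →
      ∀ n < 2 * r ρ, x ρ n ≠ x ρ' n' := by
    intro ρ' hne n' hn' j hj n hn he
    obtain ⟨j', -, hj'⟩ := H.lock hn (hF n hn)
    rw [he, hj] at hj'
    cases hj'
    exact hne rfl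
  have hee : ∀ ρ', ρ' ≠ ρ → ∀ n < 2 * r ρ', ∀ j, h ρ' ((n + e ρ') % (2 * r ρ')) = some j →
      d' (.inl (x ρ' n)) = .inr (ρ', j) := fun ρ' hne n hn j hj => by
    have := H.ee ρ' n hn j hj
    rw [h2 _ fun k hk he => hdis ρ' hne n hn j this k hk (Sum.inl.inj he), this]
  rcases hE with hE | hE
  · refine ⟨c, Function.update e ρ e', h, ⟨fun ρ' => ?_, fun ρ' n hn j hj => ?_, H.cc,
      fun ρ' => ?_, fun ρ' n hn j => ?_, fun p hp => ?_, fun ρ' j hj hh => ?_⟩, Or.inl rfl⟩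
    · by_cases hρ : ρ' = ρ
      · subst hρ; rwa [Function.update_self]
      · rw [Function.update_of_ne hρ]; exact H.a ρ'
    · rw [ha]; exact H.b ρ' n hn j hj
    · by_cases hρ : ρ' = ρ
      · subst hρ; exact fun _ => hF
      · rw [Function.update_of_ne hρ]; exact H.dd ρ'
    · by_cases hρ : ρ' = ρ
      · subst hρ
        rw [Function.update_self, ← hE, Nat.add_mod_mod]
        exact h1 n hn j
      · rw [Function.update_of_ne hρ]; exact hee ρ' hρ n hn j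
    · rw [h2 _ fun n hn he => hF n hn (hp ρ n hn (Sum.inl.inj he)), H.f p hp]
    · rw [ha, H.g ρ' j hj hh]
  · obtain ⟨c', k1, k2⟩ := exists_reidx (2 * r ρ) (x ρ) (hx ρ) c fun n => c (x ρ (pr (r ρ) n))
    refine ⟨c', Function.update e ρ e', Function.update h ρ fun n => h ρ (pr (r ρ) n),
      ⟨fun ρ' => ?_, fun ρ' n hn j => ?_, fun ρ' n hn n' hn' j => ?_,
      fun ρ' => ?_, fun ρ' n hn j => ?_, fun p hp => ?_, fun ρ' j hj => ?_⟩,
      Or.inr ⟨fun n hn => ?_, k1, k2⟩⟩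
    · by_cases hρ : ρ' = ρ
      · subst hρ; rwa [Function.update_self]
      · rw [Function.update_of_ne hρ]; exact H.a ρ'
    · rw [ha]
      by_cases hρ : ρ' = ρ
      · subst hρ
        rw [Function.update_self, k1 n hn]
        intro hj
        have := H.b ρ' _ (pr_lt hn) j hj
        rw [pr_pr hn] at this
        exact ⟨this.1.symm, this.2⟩
      · rw [Function.update_of_ne hρ]
        intro hj
        obtain ⟨j', -, hj'⟩ := H.lock hn (by rw [hj]; simp)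
        rw [k2 _ (hdis ρ' hρ n hn j' hj')]
        exact H.b ρ' n hn j hj
    · by_cases hρ : ρ' = ρ
      · subst hρ
        rw [Function.update_self]
        intro a b
        rw [← pr_pr hn, H.cc ρ' _ (pr_lt hn) _ (pr_lt hn') j a b, pr_pr hn']
      · rw [Function.update_of_ne hρ]; exact H.cc ρ' n hn n' hn' j
    · by_cases hρ : ρ' = ρ
      · subst hρ
        rw [Function.update_self, Function.update_self]
        exact fun _ n hn => hF _ (pr_lt hn)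
      · rw [Function.update_of_ne hρ, Function.update_of_ne hρ]; exact H.dd ρ'
    · by_cases hρ : ρ' = ρ
      · subst hρ
        rw [Function.update_self, Function.update_self]
        intro hj
        refine h1 n hn j ?_
        rw [← Nat.add_mod_mod, hE, ← Nat.add_assoc, ← Nat.mod_add_mod]
        exact hj
      · rw [Function.update_of_ne hρ, Function.update_of_ne hρ]; exact hee ρ' hρ n hn j
    · have hp0 : ∀ n < 2 * r ρ, x ρ n ≠ p := fun n hn he => by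
        have := hp ρ n hn he
        rw [Function.update_self] at this
        exact hF _ (pr_lt hn) this
      rw [h2 _ fun n hn he => hp0 n hn (Sum.inl.inj he), k2 p hp0]
      refine H.f p fun ρ' n hn he => ?_
      by_cases hρ : ρ' = ρ
      · subst hρ; exact absurd he (hp0 n hn)
      · have := hp ρ' n hn he
        rwa [Function.update_of_ne hρ] at this
    · rw [ha]
      by_cases hρ : ρ' = ρ
      · subst hρ
        rw [Function.update_self]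
        intro hh
        refine H.g ρ' j hj fun n hn => ?_
        have := hh _ (pr_lt hn)
        rwa [pr_pr hn] at this
      · rw [Function.update_of_ne hρ]; exact H.g ρ' j hj
    · obtain ⟨j, hj⟩ := Option.ne_none_iff_exists'.1 (hF n hn)
      obtain ⟨j', hj'⟩ := Option.ne_none_iff_exists'.1 (hF _ (pr_lt hn))
      obtain ⟨a1, a2, -⟩ := H.b ρ n hn j hj
      obtain ⟨b1, b2, -⟩ := H.b ρ _ (pr_lt hn) j' hj'
      have hne : j ≠ j' := fun he => pr_ne hn (H.cc ρ _ (pr_lt hn) _ hn j (he ▸ hj') hj)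
      rw [pr_pr hn] at b1
      rcases a1 with rfl | rfl <;> rcases b1 with rfl | rfl
      · exact Or.inl ⟨a2, b2⟩
      · exact absurd rfl hne
      · exact absurd rfl hne
      · exact Or.inr ⟨a2, b2⟩

theorem aux_ne {ρ ρ' : Rl} {j j' : ℕ} (hj : j < 2 * r ρ) (hj' : j' < 2 * r ρ')
    (hne : ¬ (ρ' = ρ ∧ j' = j)) : (aux r hr ρ' j' : P3 r P) ≠ aux r hr ρ j :=
  fun he => hne (door_inj (L := fun ρ => 2 * r ρ) hj' hj he)

theorem Rep3.take [DecidableEq Rl]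
    (hx : ∀ ρ, ∀ n < 2 * r ρ, ∀ n' < 2 * r ρ, x ρ n = x ρ n' → n = n')
    (H : Rep3 r hr x t d c e h) {ρ : Rl} {n j : ℕ} (hn : n < 2 * r ρ)
    (hj : j = n ∨ j = pr (r ρ) n) (p1 : d (.inl (x ρ n)) = .inl (t ρ j))
    (p2 : d (aux r hr ρ j) = .inr (ρ, j)) (q1 : d' (.inl (x ρ n)) = .inr (ρ, j))
    (q2 : d' (aux r hr ρ j) = .inl (t ρ j))
    (h2 : ∀ q, q ≠ .inl (x ρ n) → q ≠ aux r hr ρ j → d' q = d q) :
    Rep3 r hr x t d' c e (Function.update h ρ (Function.update (h ρ) n (some j))) := by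
  have hjl : j < 2 * r ρ := by rcases hj with rfl | rfl; exacts [hn, pr_lt hn]
  obtain ⟨f1, f2⟩ := H.free p1
  have he0 : e ρ = 0 := by
    by_contra h0
    exact H.dd ρ h0 n hn (f1 ρ n hn rfl)
  have hno : ∀ n' < 2 * r ρ, h ρ n' ≠ some j := fun n' hn' hh => by
    rw [(H.b ρ n' hn' j hh).2.2] at p2; cases p2
  have hu : ∀ ρ' n', Function.update h ρ (Function.update (h ρ) n (some j)) ρ' n' =
      if ρ' = ρ ∧ n' = n then some j else h ρ' n' := fun ρ' n' => by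
    by_cases hρ : ρ' = ρ
    · subst hρ
      by_cases h0 : n' = n
      · subst h0; simp
      · simp [h0]
    · simp [hρ]
  have hb : ∀ ρ', ∀ n' < 2 * r ρ', ∀ j', h ρ' n' = some j' →
      j' < 2 * r ρ' ∧ ¬ (ρ' = ρ ∧ j' = j) := fun ρ' n' hn' j' hh => by
    refine ⟨by rcases (H.b ρ' n' hn' j' hh).1 with rfl | rfl; exacts [hn', pr_lt hn'], ?_⟩
    rintro ⟨rfl, rfl⟩
    exact hno n' hn' hh
  refine ⟨H.a, fun ρ' n' hn' j' => ?_, fun ρ' n1 hn1 n2 hn2 j' => ?_, fun ρ' h0 n' hn' => ?_,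
    fun ρ' n' hn' j' => ?_, fun p hp => ?_, fun ρ' j' hj' hh => ?_⟩
  · rw [hu]
    split_ifs with h0
    · obtain ⟨rfl, rfl⟩ := h0
      rintro ⟨⟩
      exact ⟨hj, f2.symm, q2⟩
    · intro hh
      rw [h2 _ (door_ne _ _ _) (aux_ne hjl (hb ρ' n' hn' j' hh).1 (hb ρ' n' hn' j' hh).2)]
      exact H.b ρ' n' hn' j' hh
  · rw [hu, hu]
    split_ifs with a b b
    · intros; rw [a.2, b.2]
    · obtain ⟨rfl, rfl⟩ := a
      rintro ⟨⟩ hh
      exact absurd hh (hno _ hn2)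
    · obtain ⟨rfl, rfl⟩ := b
      rintro hh ⟨⟩
      exact absurd hh (hno _ hn1)
    · exact H.cc ρ' n1 hn1 n2 hn2 j'
  · rw [hu]
    split_ifs
    · simp
    · exact H.dd ρ' h0 n' hn'
  · rw [hu]
    split_ifs with h0
    · obtain ⟨rfl, h0⟩ := h0
      rw [he0, Nat.add_zero, Nat.mod_eq_of_lt hn'] at h0
      subst h0
      rintro ⟨⟩
      exact q1
    · intro hh
      have := H.ee ρ' n' hn' j' hh
      rw [h2 _ (fun he => by rw [he, p1] at this; cases this) (door_ne _ _ _).symm, this]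
  · have hpn : p ≠ x ρ n := fun he => by
      have := hp ρ n hn he.symm
      rw [hu, if_pos ⟨rfl, rfl⟩] at this
      cases this
    rw [h2 _ (fun he => hpn (Sum.inl.inj he)) (door_ne _ _ _).symm]
    refine H.f p fun ρ' n' hn' he => ?_
    have := hp ρ' n' hn' he
    rw [hu] at this
    split_ifs at this
    exact this
  · have h0 : ¬ (ρ' = ρ ∧ j' = j) := by
      rintro ⟨rfl, rfl⟩
      exact hh n hn (by rw [hu, if_pos ⟨rfl, rfl⟩])
    rw [h2 _ (door_ne _ _ _) (aux_ne hjl hj' h0)]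
    refine H.g ρ' j' hj' fun n' hn' h1 => hh n' hn' ?_
    rw [hu, if_neg, h1]
    rintro ⟨rfl, rfl⟩
    rw [f1 _ _ hn rfl] at h1
    cases h1

theorem Rep3.give [DecidableEq Rl]
    (hx : ∀ ρ, ∀ n < 2 * r ρ, ∀ n' < 2 * r ρ, x ρ n = x ρ n' → n = n')
    (H : Rep3 r hr x t d c e h) {ρ : Rl} {n j : ℕ} (hn : n < 2 * r ρ)
    (hj : j = n ∨ j = pr (r ρ) n) (p1 : d (.inl (x ρ n)) = .inr (ρ, j))
    (q1 : d' (.inl (x ρ n)) = .inl (t ρ j)) (q2 : d' (aux r hr ρ j) = .inr (ρ, j))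
    (h2 : ∀ q, q ≠ .inl (x ρ n) → q ≠ aux r hr ρ j → d' q = d q) :
    Rep3 r hr x t d' c e (Function.update h ρ (Function.update (h ρ) n none)) := by
  have hjl : j < 2 * r ρ := by rcases hj with rfl | rfl; exacts [hn, pr_lt hn]
  obtain ⟨j0, k1, k2⟩ := H.lock hn (H.locked hx hn p1)
  rw [p1] at k2
  cases k2
  have he0 : e ρ = 0 := by
    have hm : (n + e ρ) % (2 * r ρ) < 2 * r ρ := Nat.mod_lt _ (hr ρ)
    have a := (H.b ρ _ hm j k1).1
    have b := H.a ρ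
    rw [pr_eq hm, add_mod_eq hn b] at a
    rw [pr_eq hn] at hj
    split_ifs at a hj <;> omega
  rw [he0, Nat.add_zero, Nat.mod_eq_of_lt hn] at k1
  have hu : ∀ ρ' n', Function.update h ρ (Function.update (h ρ) n none) ρ' n' =
      if ρ' = ρ ∧ n' = n then none else h ρ' n' := fun ρ' n' => by
    by_cases hρ : ρ' = ρ
    · subst hρ
      by_cases h0 : n' = n
      · subst h0; simp
      · simp [h0]
    · simp [hρ]
  refine ⟨H.a, fun ρ' n' hn' j' => ?_, fun ρ' n1 hn1 n2 hn2 j' => ?_, fun ρ' h0 n' hn' => ?_,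
    fun ρ' n' hn' j' => ?_, fun p hp => ?_, fun ρ' j' hj' hh => ?_⟩
  · rw [hu]
    split_ifs with h0
    · rintro ⟨⟩
    · intro hh
      have hb := H.b ρ' n' hn' j' hh
      rw [h2 _ (door_ne _ _ _) (aux_ne hjl
        (by rcases hb.1 with rfl | rfl; exacts [hn', pr_lt hn']) ?_)]
      · exact hb
      · rintro ⟨rfl, rfl⟩
        exact h0 ⟨rfl, H.cc _ _ hn' _ hn _ hh k1⟩
  · rw [hu, hu]
    split_ifs with a b b
    · rintro ⟨⟩
    · rintro ⟨⟩
    · rintro - ⟨⟩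
    · exact H.cc ρ' n1 hn1 n2 hn2 j'
  · rw [hu, if_neg]
    · exact H.dd ρ' h0 n' hn'
    · rintro ⟨rfl, -⟩
      exact h0 he0
  · rw [hu]
    split_ifs with h0
    · rintro ⟨⟩
    · intro hh
      have := H.ee ρ' n' hn' j' hh
      rw [h2 _ (fun he => ?_) (door_ne _ _ _).symm, this]
      rw [he, p1] at this
      cases this
      rw [hx _ _ hn' _ hn (Sum.inl.inj he), he0, Nat.add_zero, Nat.mod_eq_of_lt hn] at h0
      exact h0 ⟨rfl, rfl⟩
  · by_cases hpn : p = x ρ n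
    · rw [hpn, q1, (H.b ρ n hn j k1).2.1]
    · rw [h2 _ (fun he => hpn (Sum.inl.inj he)) (door_ne _ _ _).symm]
      refine H.f p fun ρ' n' hn' he => ?_
      have := hp ρ' n' hn' he
      rw [hu, if_neg] at this
      · exact this
      · rintro ⟨rfl, rfl⟩
        exact hpn he.symm
  · by_cases h0 : ρ' = ρ ∧ j' = j
    · obtain ⟨rfl, rfl⟩ := h0
      exact q2
    · rw [h2 _ (door_ne _ _ _) (aux_ne hjl hj' h0)]
      refine H.g ρ' j' hj' fun n' hn' h1 => hh n' hn' ?_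
      rw [hu, if_neg, h1]
      rintro ⟨rfl, rfl⟩
      rw [k1] at h1
      cases h1
      exact h0 ⟨rfl, rfl⟩

end

end Pool.Agent.H.MP_f87a07_co
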