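import Mathlib
import Pool.Agent.H.MP_f87a07_co.E

set_option autoImplicit false

namespace Pool.Agent.H.MP_f87a07_co

open Relation

section
variable {P T Rl : Type} {r : Rl → ℕ} {hr : ∀ ρ, 0 < 2 * r ρ} {x : Rl → ℕ → P} {t : Rl → ℕ → T}
  {M : ℕ} {cv : ℕ → P} {Fc : T → Prop}

theorem jj_cases (r n : ℕ) (b : Bool) : jj r n b = n ∨ jj r n b = pr r n := by
  cases b <;> simp [jj]

theorem Sh_two {Q T : Type} {ring : ℕ → Q} {c c' : Q → T}
    (h : Sh 2 ring c c' ∨ Sh 2 ring c' c) : c' (ring 0) = c (ring 1) ∧ c' (ring 1) = c (ring 0) ∧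
      ∀ q, q ≠ ring 0 → q ≠ ring 1 → c' q = c q := by
  have key : ∀ q, q ≠ ring 0 → q ≠ ring 1 → ∀ n < 2, ring n ≠ q := fun q h0 h1 n hn => by
    interval_cases n
    exacts [h0.symm, h1.symm]
  rcases h with h | h
  · exact ⟨h.1 0 (by omega), h.1 1 (by omega), fun q h0 h1 => h.2 q (key q h0 h1)⟩
  · exact ⟨(h.1 1 (by omega)).symm, (h.1 0 (by omega)).symm,
      fun q h0 h1 => (h.2 q (key q h0 h1)).symm⟩

theorem cell3_inj (hx : ∀ ρ, ∀ n < 2 * r ρ, ∀ n' < 2 * r ρ, x ρ n = x ρ n' → n = n')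
    (hcv : ∀ n < M, ∀ n' < M, cv n = cv n' → n = n') (g : G3 r) :
    ∀ n < L3 r M g, ∀ n' < L3 r M g, cell3 r hr x cv g n = cell3 r hr x cv g n' → n = n' := by
  rcases g with _ | ρ | ⟨⟨ρ, k⟩, b⟩
  · exact fun n hn n' hn' h => hcv n hn n' hn' (Sum.inl.inj h)
  · exact fun n hn n' hn' h => hx ρ n hn n' hn' (Sum.inl.inj h)
  · intro n hn n' hn' h
    simp only [L3] at hn hn'
    simp only [cell3] at h
    split_ifs at h
    · omega
    · exact absurd h.symm (door_ne _ _ _)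
    · exact absurd h (door_ne _ _ _)
    · omega

theorem sim3 (hx : ∀ ρ, ∀ n < 2 * r ρ, ∀ n' < 2 * r ρ, x ρ n = x ρ n' → n = n')
    (hcv : ∀ n < M, ∀ n' < M, cv n = cv n' → n = n') (d : P3 r P → T ⊕ Rl × ℕ) (c : P → T)
    (d' : P3 r P → T ⊕ Rl × ℕ) (H : ∃ e h, Rep3 r hr x t d c e h)
    (hs : RS (L3 r M) (cell3 r hr x cv) (F3 r t Fc) d d') :
    ∃ c', (∃ e h, Rep3 r hr x t d' c' e h) ∧ (c' = c ∨ IR r x t M cv Fc c c') := by
  classical
  obtain ⟨e, h, H⟩ := H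
  obtain ⟨g, hF, hS⟩ := hs
  rcases g with _ | ρ | ⟨⟨ρ, n, hn⟩, b⟩
  · have hF1 : ∀ n < M, ∃ s, d (.inl (cv n)) = .inl s := fun n hn =>
      (hF n hn).imp fun _ h => h.1
    have hF2 : ∀ n < M, Fc (c (cv n)) := fun n hn => by
      obtain ⟨s, h1, h2⟩ := hF n hn
      rwa [(H.free h1).2] at h2
    rcases hS with hS | hS
    · obtain ⟨c', hc⟩ := exists_Sh M cv hcv c
      exact ⟨c', ⟨e, h, H.conv hF1 (fun n => (n + 1) % M) (fun n hn => Nat.mod_lt _ (by omega))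
        hS.1 hS.2 hc.1 hc.2⟩, Or.inr (Or.inr ⟨hF2, Or.inl hc⟩)⟩
    · obtain ⟨c', hc⟩ := exists_Sh' M cv hcv c
      exact ⟨c', ⟨e, h, H.conv hF1 (fun n => (n + M - 1) % M)
        (fun n hn => Nat.mod_lt _ (by omega)) (fun n hn => hS.back hn)
        (fun q hq => (hS.2 q hq).symm) (fun n hn => hc.back hn) fun p hp => (hc.2 p hp).symm⟩,
        Or.inr (Or.inr ⟨hF2, Or.inr hc⟩)⟩
  · have hF1 : ∀ n < 2 * r ρ, h ρ n ≠ none := fun n hn => by
      obtain ⟨j, hj⟩ := hF n hn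
      exact H.locked hx hn hj
    have ha := H.a ρ
    rcases hS with hS | hS
    · have h1 : ∀ n < 2 * r ρ, ∀ j, h ρ ((n + (e ρ + 1)) % (2 * r ρ)) = some j →
          d' (.inl (x ρ n)) = .inr (ρ, j) := fun n hn j hj => by
        refine (hS.1 n hn).trans (H.ee ρ _ (Nat.mod_lt _ (hr ρ)) j ?_)
        change h ρ (((n + 1) % (2 * r ρ) + e ρ) % (2 * r ρ)) = some j
        rwa [Nat.mod_add_mod, show n + 1 + e ρ = n + (e ρ + 1) by ring]
      rcases Nat.lt_or_ge (e ρ + 1) (r ρ) with h2 | h2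
      · obtain ⟨c', e', h', k1, k2⟩ := H.main hx hF1 _ h1 hS.2 h2
          (Or.inl (Nat.mod_eq_of_lt (by omega)))
        exact ⟨c', ⟨e', h', k1⟩, k2.imp id fun k => Or.inl ⟨ρ, k⟩⟩
      · obtain ⟨c', e', h', k1, k2⟩ := H.main hx hF1 _ h1 hS.2 (e' := 0) (by omega)
          (Or.inr (by rw [Nat.mod_eq_of_lt (by omega)]; omega))
        exact ⟨c', ⟨e', h', k1⟩, k2.imp id fun k => Or.inl ⟨ρ, k⟩⟩
    · have h1 : ∀ n < 2 * r ρ, ∀ j, h ρ ((n + (e ρ + 2 * r ρ - 1)) % (2 * r ρ)) = some j →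
          d' (.inl (x ρ n)) = .inr (ρ, j) := fun n hn j hj => by
        refine (hS.back hn).trans (H.ee ρ _ (Nat.mod_lt _ (hr ρ)) j ?_)
        change h ρ (((n + 2 * r ρ - 1) % (2 * r ρ) + e ρ) % (2 * r ρ)) = some j
        rwa [Nat.mod_add_mod, show n + 2 * r ρ - 1 + e ρ = n + (e ρ + 2 * r ρ - 1) by omega]
      rcases Nat.eq_zero_or_pos (e ρ) with h2 | h2
      · obtain ⟨c', e', h', k1, k2⟩ := H.main hx hF1 _ h1 (fun q hq => (hS.2 q hq).symm)
          (e' := r ρ - 1) (by omega) (Or.inr (by rw [Nat.mod_eq_of_lt (by omega)]; omega))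
        exact ⟨c', ⟨e', h', k1⟩, k2.imp id fun k => Or.inl ⟨ρ, k⟩⟩
      · obtain ⟨c', e', h', k1, k2⟩ := H.main hx hF1 _ h1 (fun q hq => (hS.2 q hq).symm)
          (e' := e ρ - 1) (by omega) (Or.inl (by
            rw [show e ρ + 2 * r ρ - 1 = (e ρ - 1) + 2 * r ρ by omega, Nat.add_mod_right,
              Nat.mod_eq_of_lt (by omega)]))
        exact ⟨c', ⟨e', h', k1⟩, k2.imp id fun k => Or.inl ⟨ρ, k⟩⟩
  · obtain ⟨s1, s2, s3⟩ := Sh_two hS
    have f0 := hF 0 (by simp [L3])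
    have f1 := hF 1 (by simp [L3])
    simp only [cell3, F3, if_true, one_ne_zero, if_false] at s1 s2 s3 f0 f1
    by_cases he : d (.inl (x ρ n)) = d (aux r hr ρ (jj (r ρ) n b))
    · have : d' = d := by
        funext q
        by_cases h0 : q = .inl (x ρ n)
        · rw [h0, s1, he]
        by_cases h1 : q = aux r hr ρ (jj (r ρ) n b)
        · rw [h1, s2, he]
        exact s3 q h0 h1
      exact ⟨c, ⟨e, h, this ▸ H⟩, Or.inl rfl⟩
    rcases f0 with f0 | f0 <;> rcases f1 with f1 | f1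
    · exact absurd (f0.trans f1.symm) he
    · exact ⟨c, ⟨e, _, H.take hx hn (jj_cases _ _ _) f0 f1 (s1.trans f1) (s2.trans f0) s3⟩,
        Or.inl rfl⟩
    · exact ⟨c, ⟨e, _, H.give hx hn (jj_cases _ _ _) f0 (s1.trans f1) (s2.trans f0) s3⟩,
        Or.inl rfl⟩
    · exact absurd (f0.trans f1.symm) he

variable (r hr) in
/-- rest states of the third layer -/
def Good3 (d : P3 r P → T ⊕ Rl × ℕ) (c : P → T) : Prop :=
  (∀ p, d (.inl p) = .inl (c p)) ∧ ∀ ρ, ∀ j < 2 * r ρ, d (aux r hr ρ j) = .inr (ρ, j)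

theorem P3_cases (q : P3 r P) : (∃ p, q = .inl p) ∨ ∃ ρ, ∃ j < 2 * r ρ, q = aux r hr ρ j := by
  rcases q with p | ⟨ρ, j, hj⟩
  · exact Or.inl ⟨p, rfl⟩
  · exact Or.inr ⟨ρ, j, hj, by simp [door, Nat.mod_eq_of_lt hj]⟩

theorem exists_Good3 (c : P → T) : ∃ d : P3 r P → T ⊕ Rl × ℕ, Good3 r hr d c :=
  ⟨fun | .inl p => .inl (c p) | .inr y => .inr (y.1, y.2), fun _ => rfl,
    fun ρ j hj => by simp [door, Nat.mod_eq_of_lt hj]⟩

variable (r hr x t) in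
/-- all cells of a rule are locked -/
def Full (ρ : Rl) (c : P → T) (J : ℕ → ℕ) (d : P3 r P → T ⊕ Rl × ℕ) : Prop :=
  (∀ n < 2 * r ρ, d (.inl (x ρ n)) = .inr (ρ, J n)) ∧
  (∀ j < 2 * r ρ, d (aux r hr ρ j) = .inl (t ρ j)) ∧
  (∀ p, (∀ n < 2 * r ρ, x ρ n ≠ p) → d (.inl p) = .inl (c p)) ∧
  ∀ ρ', ρ' ≠ ρ → ∀ j < 2 * r ρ', d (aux r hr ρ' j) = .inr (ρ', j)

theorem to_full (hx : ∀ ρ, ∀ n < 2 * r ρ, ∀ n' < 2 * r ρ, x ρ n = x ρ n' → n = n')
    (hcv : ∀ n < M, ∀ n' < M, cv n = cv n' → n = n') {ρ : Rl} {c : P → T} {J : ℕ → ℕ}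
    (h1 : ∀ n < 2 * r ρ, (J n = n ∧ J (pr (r ρ) n) = pr (r ρ) n) ∨
      (J n = pr (r ρ) n ∧ J (pr (r ρ) n) = n))
    (h2 : ∀ n < 2 * r ρ, c (x ρ n) = t ρ (J n)) {d : P3 r P → T ⊕ Rl × ℕ} (hd : Good3 r hr d c) :
    ∃ d', Full r hr x t ρ c J d' ∧
      ReflTransGen (RS (L3 r M) (cell3 r hr x cv) (F3 r t Fc)) d d' := by
  have hJl : ∀ n < 2 * r ρ, J n < 2 * r ρ := fun n hn => by
    rcases h1 n hn with h | h <;> rw [h.1]
    exacts [hn, pr_lt hn]
  have hJi : ∀ n < 2 * r ρ, ∀ n' < 2 * r ρ, J n = J n' → n = n' := fun n hn n' hn' he => by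
    have a := h1 n hn
    have b := h1 n' hn'
    have a1 := pr_ne hn
    have b1 := pr_ne hn'
    rcases a with a | a <;> rcases b with b | b
    · omega
    · have : n = pr (r ρ) n' := by omega
      rw [← this] at b; omega
    · have : n' = pr (r ρ) n := by omega
      rw [← this] at a; omega
    · rw [← pr_pr hn, ← a.1, he, b.1, pr_pr hn']
  have key : ∀ k ≤ 2 * r ρ, ∃ d' : P3 r P → T ⊕ Rl × ℕ,
      ((∀ n < k, d' (.inl (x ρ n)) = .inr (ρ, J n) ∧ d' (aux r hr ρ (J n)) = .inl (t ρ (J n))) ∧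
      (∀ p, (∀ n < k, x ρ n ≠ p) → d' (.inl p) = .inl (c p)) ∧
      ∀ ρ', ∀ j < 2 * r ρ', ¬ (ρ' = ρ ∧ ∃ n < k, J n = j) → d' (aux r hr ρ' j) = .inr (ρ', j)) ∧
      ReflTransGen (RS (L3 r M) (cell3 r hr x cv) (F3 r t Fc)) d d' := by
    intro k hk
    induction k with
    | zero => exact ⟨d, ⟨by simp, fun p _ => hd.1 p, fun ρ' j hj _ => hd.2 ρ' j hj⟩, .refl⟩
    | succ k ih =>
      obtain ⟨d1, ⟨a1, a2, a3⟩, hr1⟩ := ih (by omega)
      obtain ⟨b, hb⟩ : ∃ b, jj (r ρ) k b = J k := by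
        rcases h1 k hk with h | h
        · exact ⟨false, h.1.symm⟩
        · exact ⟨true, h.1.symm⟩
      obtain ⟨d2, hS⟩ := exists_Sh _ _
        (cell3_inj (hr := hr) hx hcv (some (.inr (⟨ρ, k, hk⟩, b)))) d1
      have p1 : d1 (.inl (x ρ k)) = .inl (t ρ (J k)) := by
        rw [a2 _ fun n hn he => absurd (hx ρ n (by omega) k hk he) (by omega), h2 k hk]
      have p2 : d1 (aux r hr ρ (J k)) = .inr (ρ, J k) :=
        a3 ρ _ (hJl k hk) fun ⟨_, n, hn, he⟩ => absurd (hJi n (by omega) k hk he) (by omega)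
      obtain ⟨s1, s2, s3⟩ := Sh_two (Or.inl hS)
      simp only [cell3, if_true, one_ne_zero, if_false, hb] at s1 s2 s3
      refine ⟨d2, ⟨fun n hn => ?_, fun p hp => ?_, fun ρ' j hj hne => ?_⟩,
        hr1.tail ⟨_, fun n hn => ?_, Or.inl hS⟩⟩
      · rcases Nat.lt_succ_iff_lt_or_eq.1 hn with hn | rfl
        · rw [s3 _ (fun he => absurd (hx ρ n (by omega) k hk (Sum.inl.inj he)) (by omega))
            (door_ne _ _ _).symm, s3 _ (door_ne _ _ _) (aux_ne (hJl k hk) (hJl n (by omega))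
              fun he => absurd (hJi n (by omega) k hk he.2) (by omega))]
          exact a1 n hn
        · exact ⟨s1.trans p2, s2.trans p1⟩
      · rw [s3 _ (fun he => hp k (by omega) (Sum.inl.inj he).symm) (door_ne _ _ _).symm]
        exact a2 p fun n hn => hp n (by omega)
      · rw [s3 _ (door_ne _ _ _) (aux_ne (hJl k hk) hj
          fun he => hne ⟨he.1, k, by omega, he.2.symm⟩)]
        exact a3 ρ' j hj fun ⟨he, n, hn, he'⟩ => hne ⟨he, n, by omega, he'⟩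
      · simp only [L3] at hn
        interval_cases n
        · simp only [cell3, F3, if_true, hb]; exact Or.inl p1
        · simp only [cell3, F3, one_ne_zero, if_false, hb]; exact Or.inr p2
  obtain ⟨d', ⟨a1, a2, a3⟩, hr1⟩ := key _ le_rfl
  refine ⟨d', ⟨fun n hn => (a1 n hn).1, fun j hj => ?_, a2,
    fun ρ' hρ j hj => a3 ρ' j hj fun h => hρ h.1⟩, hr1⟩
  rcases h1 j hj with h | h
  · have := (a1 j hj).2
    rwa [h.1] at this
  · have := (a1 _ (pr_lt hj)).2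
    rwa [h.2] at this

theorem lift3 (hx : ∀ ρ, ∀ n < 2 * r ρ, ∀ n' < 2 * r ρ, x ρ n = x ρ n' → n = n')
    (hcv : ∀ n < M, ∀ n' < M, cv n = cv n' → n = n') (d : P3 r P → T ⊕ Rl × ℕ) (c c' : P → T)
    (hd : Good3 r hr d c) (hs : IR r x t M cv Fc c c') :
    ∃ d', Good3 r hr d' c' ∧ ReflTransGen (RS (L3 r M) (cell3 r hr x cv) (F3 r t Fc)) d d' := by
  classical
  obtain ⟨d', hd'⟩ := exists_Good3 (hr := hr) c'
  refine ⟨d', hd', ?_⟩
  rcases hs with ⟨ρ, h1, h2, h3⟩ | ⟨hF, hS⟩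
  · let J : ℕ → ℕ := fun n =>
      if c (x ρ n) = t ρ n ∧ c (x ρ (pr (r ρ) n)) = t ρ (pr (r ρ) n) then n else pr (r ρ) n
    have j1 : ∀ n < 2 * r ρ, (J n = n ∧ J (pr (r ρ) n) = pr (r ρ) n) ∨
        (J n = pr (r ρ) n ∧ J (pr (r ρ) n) = n) := fun n hn => by
      simp only [J, pr_pr hn]
      by_cases h : c (x ρ n) = t ρ n ∧ c (x ρ (pr (r ρ) n)) = t ρ (pr (r ρ) n)
      · exact Or.inl ⟨if_pos h, if_pos h.symm⟩
      · exact Or.inr ⟨if_neg h, if_neg fun h' => h h'.symm⟩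
    have j2 : ∀ n < 2 * r ρ, c (x ρ n) = t ρ (J n) := fun n hn => by
      simp only [J]
      split_ifs with h
      · exact h.1
      · exact ((h1 n hn).resolve_left h).1
    obtain ⟨d1, f1, r1⟩ := to_full (Fc := Fc) hx hcv j1 j2 hd
    obtain ⟨d2, f2, r2⟩ := to_full (Fc := Fc) (J := fun n => J (pr (r ρ) n)) (c := c') hx hcv
      (fun n hn => by
        rw [pr_pr hn]
        rcases j1 n hn with h | h
        · exact Or.inr h.symm
        · exact Or.inl h.symm)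
      (fun n hn => by rw [h2 n hn, j2 _ (pr_lt hn)]) hd'
    have key : ∀ k, ∃ d3, Full r hr x t ρ c (fun n => J ((n + k) % (2 * r ρ))) d3 ∧
        ReflTransGen (RS (L3 r M) (cell3 r hr x cv) (F3 r t Fc)) d1 d3 := by
      intro k
      induction k with
      | zero => exact ⟨d1, ⟨fun n hn => by
          simp only [Nat.add_zero, Nat.mod_eq_of_lt hn]; exact f1.1 n hn, f1.2⟩, .refl⟩
      | succ k ih =>
        obtain ⟨d3, f3, r3⟩ := ih
        obtain ⟨d4, hS⟩ := exists_Sh _ _ (cell3_inj (hr := hr) hx hcv (some (.inl ρ))) d3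
        have ha : ∀ ρ' j, d4 (aux r hr ρ' j) = d3 (aux r hr ρ' j) := fun ρ' j =>
          hS.2 _ fun n _ => (door_ne _ _ _).symm
        refine ⟨d4, ⟨fun n hn => ?_, fun j hj => ?_, fun p hp => ?_, fun ρ' hρ j hj => ?_⟩,
          r3.tail ⟨some (.inl ρ), fun n hn => ⟨_, f3.1 n hn⟩, Or.inl hS⟩⟩
        · refine (hS.1 n hn).trans ((f3.1 _ (Nat.mod_lt _ (hr ρ))).trans ?_)
          simp only [L3]
          rw [Nat.mod_add_mod, show n + 1 + k = n + (k + 1) by ring]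
        · rw [ha, f3.2.1 j hj]
        · rw [hS.2 _ fun n hn he => hp n hn (Sum.inl.inj he), f3.2.2.1 p hp]
        · rw [ha, f3.2.2.2 ρ' hρ j hj]
    obtain ⟨d3, f3, r3⟩ := key (r ρ)
    have : d3 = d2 := by
      funext q
      rcases P3_cases (hr := hr) q with ⟨p, rfl⟩ | ⟨ρ', j, hj, rfl⟩
      · by_cases hp : ∃ n < 2 * r ρ, x ρ n = p
        · obtain ⟨n, hn, rfl⟩ := hp
          rw [f3.1 n hn, f2.1 n hn]; rfl
        · push Not at hp
          rw [f3.2.2.1 p hp, f2.2.2.1 p hp, h3 p hp]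
      · by_cases hρ : ρ' = ρ
        · subst hρ
          rw [f3.2.1 j hj, f2.2.1 j hj]
        · rw [f3.2.2.2 ρ' hρ j hj, f2.2.2.2 ρ' hρ j hj]
    subst this
    exact (r1.trans r3).trans (rtg_symm (fun _ _ => RS.symm) r2)
  · have key : ∀ (d d' : P3 r P → T ⊕ Rl × ℕ) (c c' : P → T), Good3 r hr d c → Good3 r hr d' c' →
        Sh M cv c c' → Sh (L3 r M none) (cell3 r hr x cv none) d d' := by
      intro d d' c c' hd hd' hS
      refine ⟨fun n hn => ?_, fun q hq => ?_⟩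
      · simp only [cell3, L3]
        rw [hd.1, hd'.1, hS.1 n hn]
      · rcases P3_cases (hr := hr) q with ⟨p, rfl⟩ | ⟨ρ', j, hj, rfl⟩
        · rw [hd.1, hd'.1, hS.2 p fun n hn he => hq n hn (congrArg Sum.inl he)]
        · rw [hd.2 ρ' j hj, hd'.2 ρ' j hj]
    exact .single ⟨none, fun n hn => ⟨_, hd.1 _, hF n hn⟩,
      hS.imp (key _ _ _ _ hd hd') (key _ _ _ _ hd' hd)⟩

theorem hard_of_IR [Fintype P] [Fintype Rl] (hr : ∀ ρ, 0 < 2 * r ρ) (hM : 0 < M)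
    (hx : ∀ ρ, ∀ n < 2 * r ρ, ∀ n' < 2 * r ρ, x ρ n = x ρ n' → n = n')
    (hcv : ∀ n < M, ∀ n' < M, cv n = cv n' → n = n') {c0 c1 : P → T} {N : ℕ}
    (h : Far (IR r x t M cv Fc) c0 c1 N) :
    Hard (Fintype.card P + M + 2 * Fintype.card Rl + 20 * ∑ ρ, r ρ + 3) N := by
  obtain ⟨d0, hd0⟩ := exists_Good3 (hr := hr) c0
  obtain ⟨d1, -, hf⟩ := h.sim (RL := RS (L3 r M) (cell3 r hr x cv) (F3 r t Fc))
    (fun d c => ∃ e h, Rep3 r hr x t d c e h) (Good3 r hr) d0 hd0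
    (fun d c h => ⟨fun _ => 0, fun _ _ => none, fun ρ => (by have := hr ρ; omega),
      fun _ _ _ _ h => (by cases h), fun _ _ _ _ _ _ h => (by cases h), fun _ h => absurd rfl h,
      fun _ _ _ _ h => (by cases h), fun p _ => h.1 p, fun ρ j hj _ => h.2 ρ j hj⟩)
    (fun d c c' h ⟨e, h', H⟩ => funext fun p => ((H.free (h.1 p)).2).symm)
    (sim3 hx hcv) (lift3 hx hcv)
  have := hard_of_GCS (by
    rintro (_ | ρ | _)
    exacts [hM, hr ρ, two_pos]) (cell3_inj hx hcv) hf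
  convert this using 1
  simp only [Fintype.card_option, Fintype.card_sum, Fintype.card_prod, Fintype.card_sigma,
    Fintype.card_fin, Fintype.card_bool, Fintype.sum_option, Fintype.sum_sum_type, L3,
    Finset.sum_const, Finset.card_univ, smul_eq_mul, ← Finset.mul_sum]
  ring

end

end Pool.Agent.H.MP_f87a07_co
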