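import Mathlib
import Pool.Agent.H.MP_f87a07_co.F

set_option autoImplicit false

namespace Pool.Agent.H.MP_f87a07_co

open Relation

/-- a swap of two cells guarded by tests -/
structure SwapRule (P T : Type) where
  a : P
  a' : P
  ta : T
  ta' : T
  tests : Finset P
  tt : P → T
  ne : a ≠ a'
  n1 : a ∉ tests
  n2 : a' ∉ tests

section
variable {P T Rl : Type} [DecidableEq P]

/-- application of a rule -/
def SwapRule.App (R : SwapRule P T) (c c' : P → T) : Prop :=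
  ((c R.a = R.ta ∧ c R.a' = R.ta') ∨ (c R.a = R.ta' ∧ c R.a' = R.ta)) ∧
    (∀ p ∈ R.tests, c p = R.tt p) ∧ c' = c ∘ Equiv.swap R.a R.a'

variable (R : Rl → SwapRule P T) (M : ℕ) (cv : ℕ → P) (Fc : T → Prop)

/-- guarded swaps and one conveyor -/
def ST (c c' : P → T) : Prop :=
  (∃ ρ, (R ρ).App c c') ∨ ((∀ n < M, Fc (c (cv n))) ∧ (Sh M cv c c' ∨ Sh M cv c' c))

/-- number of pairs -/
def r4 (ρ : Rl) : ℕ := (R ρ).tests.card + 1

omit [DecidableEq P] in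
theorem r4_pos (ρ : Rl) : 0 < r4 R ρ := Nat.succ_pos _

/-- enumeration of the first cells -/
noncomputable def en (ρ : Rl) (n : ℕ) : P := ((R ρ).a :: (R ρ).tests.toList).getD n (R ρ).a

/-- cells of the rules -/
noncomputable def x4 (ρ : Rl) (n : ℕ) : P ⊕ (Σ ρ, Fin (r4 R ρ)) :=
  if n < r4 R ρ then .inl (en R ρ n) else if n = r4 R ρ then .inl (R ρ).a'
  else door (r4 R) (r4_pos R) ρ (n - r4 R ρ)

/-- types of the rules -/
noncomputable def t4 (ρ : Rl) (n : ℕ) : T :=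
  if n = 0 then (R ρ).ta else if n < r4 R ρ then (R ρ).tt (en R ρ n)
  else if n = r4 R ρ then (R ρ).ta' else (R ρ).tt (en R ρ (n - r4 R ρ))

/-- representation relation of the fourth layer -/
def Good4 (d : P ⊕ (Σ ρ, Fin (r4 R ρ)) → T) (c : P → T) : Prop :=
  (∀ p, d (.inl p) = c p) ∧
    ∀ ρ, ∀ s < r4 R ρ, d (door (r4 R) (r4_pos R) ρ s) = (R ρ).tt (en R ρ s)

variable {R M cv Fc}
omit [DecidableEq P]

theorem en_zero (ρ : Rl) : en R ρ 0 = (R ρ).a := rfl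

theorem en_inj (ρ : Rl) {n n' : ℕ} (hn : n < r4 R ρ) (hn' : n' < r4 R ρ)
    (h : en R ρ n = en R ρ n') : n = n' := by
  have hl : ((R ρ).a :: (R ρ).tests.toList).length = r4 R ρ := by simp [r4]
  have hd : ((R ρ).a :: (R ρ).tests.toList).Nodup :=
    List.nodup_cons.2 ⟨by simpa using (R ρ).n1, Finset.nodup_toList _⟩
  rw [en, en, List.getD_eq_getElem _ _ (by omega), List.getD_eq_getElem _ _ (by omega)] at h
  exact (hd.getElem_inj_iff).1 h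

theorem en_mem (ρ : Rl) {n : ℕ} (h0 : 0 < n) (hn : n < r4 R ρ) : en R ρ n ∈ (R ρ).tests := by
  obtain ⟨n, rfl⟩ : ∃ k, n = k + 1 := ⟨n - 1, by omega⟩
  have : n < (R ρ).tests.toList.length := by simpa [r4] using hn
  rw [en, List.getD_cons_succ, List.getD_eq_getElem _ _ this, ← Finset.mem_toList]
  exact List.getElem_mem _

theorem mem_en (ρ : Rl) {p : P} (hp : p ∈ (R ρ).tests) :
    ∃ n, 0 < n ∧ n < r4 R ρ ∧ en R ρ n = p := by
  obtain ⟨n, hn, rfl⟩ := List.getElem_of_mem (Finset.mem_toList.2 hp)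
  refine ⟨n + 1, by omega, by simpa [r4] using hn, ?_⟩
  rw [en, List.getD_cons_succ, List.getD_eq_getElem _ _ hn]

theorem en_ne (ρ : Rl) {n : ℕ} (hn : n < r4 R ρ) : en R ρ n ≠ (R ρ).a' := by
  rcases Nat.eq_zero_or_pos n with rfl | h0
  · exact (R ρ).ne
  · exact fun h => (R ρ).n2 (h ▸ en_mem ρ h0 hn)

theorem x4_inj (ρ : Rl) : ∀ n < 2 * r4 R ρ, ∀ n' < 2 * r4 R ρ, x4 R ρ n = x4 R ρ n' → n = n' := by
  intro n hn n' hn' h
  unfold x4 at h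
  split_ifs at h with h1 h2 h3 h4 h5 h6 h7 h8
  · exact en_inj ρ h1 h2 (Sum.inl.inj h)
  · exact absurd (Sum.inl.inj h) (en_ne ρ h1)
  · exact absurd h.symm (door_ne _ _ _)
  · exact absurd (Sum.inl.inj h).symm (en_ne ρ h5)
  · omega
  · exact absurd h.symm (door_ne _ _ _)
  · exact absurd h (door_ne _ _ _)
  · exact absurd h (door_ne _ _ _)
  · have := (door_inj (by omega) (by omega) h).2
    omega

theorem idx4 {r n : ℕ} (hn : n < 2 * r) : n = 0 ∨ (0 < n ∧ n < r) ∨ n = r ∨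
    ∃ s, 0 < s ∧ s < r ∧ n = s + r := by
  by_cases h : r < n
  · exact Or.inr (Or.inr (Or.inr ⟨n - r, by omega, by omega, by omega⟩))
  · omega

theorem x4_lo (ρ : Rl) {n : ℕ} (hn : n < r4 R ρ) : x4 R ρ n = .inl (en R ρ n) := if_pos hn

theorem x4_mid (ρ : Rl) : x4 R ρ (r4 R ρ) = .inl (R ρ).a' := by simp [x4]

theorem x4_hi (ρ : Rl) {s : ℕ} (hs : 0 < s) :
    x4 R ρ (s + r4 R ρ) = door (r4 R) (r4_pos R) ρ s := by
  rw [x4, if_neg (by omega), if_neg (by omega), Nat.add_sub_cancel]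

theorem t4_zero (ρ : Rl) : t4 R ρ 0 = (R ρ).ta := by simp [t4]

theorem t4_lo (ρ : Rl) {n : ℕ} (h0 : 0 < n) (hn : n < r4 R ρ) :
    t4 R ρ n = (R ρ).tt (en R ρ n) := by
  rw [t4, if_neg (by omega), if_pos hn]

theorem t4_mid (ρ : Rl) : t4 R ρ (r4 R ρ) = (R ρ).ta' := by
  have := r4_pos R ρ
  rw [t4, if_neg (by omega), if_neg (by omega), if_pos rfl]

theorem t4_hi (ρ : Rl) {s : ℕ} (hs : 0 < s) : t4 R ρ (s + r4 R ρ) = (R ρ).tt (en R ρ s) := by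
  rw [t4, if_neg (by omega), if_neg (by omega), if_neg (by omega), Nat.add_sub_cancel]

theorem pr_lo {r n : ℕ} (hn : n < r) : pr r n = n + r := by
  rw [pr_eq (by omega), if_pos hn]

theorem pr_hi {r s : ℕ} (hs : s < r) : pr r (s + r) = s := by
  rw [pr_eq (by omega), if_neg (by omega), Nat.add_sub_cancel]

theorem pr_mid {r : ℕ} (hr : 0 < r) : pr r r = 0 := by
  simpa using pr_hi hr

theorem P4_cases (q : P ⊕ (Σ ρ, Fin (r4 R ρ))) :
    (∃ p, q = .inl p) ∨ ∃ ρ, ∃ j < r4 R ρ, q = door (r4 R) (r4_pos R) ρ j := by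
  rcases q with p | ⟨ρ, j, hj⟩
  · exact Or.inl ⟨p, rfl⟩
  · exact Or.inr ⟨ρ, j, hj, by simp [door, Nat.mod_eq_of_lt hj]⟩

theorem exists_Good4 (c : P → T) : ∃ d, Good4 R d c :=
  ⟨fun | .inl p => c p | .inr y => (R y.1).tt (en R y.1 y.2), fun _ => rfl,
    fun ρ j hj => by simp [door, Nat.mod_eq_of_lt hj]⟩

theorem rule_of_app [DecidableEq P] {d d' : P ⊕ (Σ ρ, Fin (r4 R ρ)) → T} {c c' : P → T} {ρ : Rl}
    (hd : Good4 R d c) (hd' : Good4 R d' c') (h : (R ρ).App c c') :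
    Rule (r4 R) (x4 R) (t4 R) ρ d d' := by
  obtain ⟨h1, h2, rfl⟩ := h
  have hp := r4_pos R ρ
  have hs : ∀ n, 0 < n → n < r4 R ρ → Equiv.swap (R ρ).a (R ρ).a' (en R ρ n) = en R ρ n :=
    fun n h0 hn => Equiv.swap_apply_of_ne_of_ne
      (fun h => (R ρ).n1 (h ▸ en_mem ρ h0 hn)) (en_ne ρ hn)
  refine ⟨fun n hn => ?_, fun n hn => ?_, fun q hq => ?_⟩
  · rcases idx4 hn with rfl | ⟨h0, hn⟩ | rfl | ⟨s, h0, hs, rfl⟩
    · rw [pr_lo hp, Nat.zero_add, x4_lo ρ hp, x4_mid, t4_zero, t4_mid, hd.1, hd.1]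
      exact h1
    · rw [pr_lo hn, x4_lo ρ hn, x4_hi ρ h0, t4_lo ρ h0 hn, t4_hi ρ h0, hd.1, hd.2 ρ n hn]
      exact Or.inl ⟨h2 _ (en_mem ρ h0 hn), rfl⟩
    · rw [pr_mid hp, x4_lo ρ hp, x4_mid, t4_zero, t4_mid, hd.1, hd.1]
      exact h1.imp And.symm And.symm
    · rw [pr_hi hs, x4_lo ρ hs, x4_hi ρ h0, t4_lo ρ h0 hs, t4_hi ρ h0, hd.1, hd.2 ρ s hs]
      exact Or.inl ⟨rfl, h2 _ (en_mem ρ h0 hs)⟩
  · rcases idx4 hn with rfl | ⟨h0, hn⟩ | rfl | ⟨s, h0, hs, rfl⟩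
    · rw [pr_lo hp, Nat.zero_add, x4_lo ρ hp, x4_mid, hd.1, hd'.1, en_zero]; simp
    · rw [pr_lo hn, x4_lo ρ hn, x4_hi ρ h0, hd'.1, hd.2 ρ n hn, Function.comp_apply, hs n h0 hn]
      exact h2 _ (en_mem ρ h0 hn)
    · rw [pr_mid hp, x4_lo ρ hp, x4_mid, hd.1, hd'.1, en_zero]; simp
    · rw [pr_hi hs, x4_lo ρ hs, x4_hi ρ h0, hd.1, hd'.2 ρ s hs]
      exact (h2 _ (en_mem ρ h0 hs)).symm
  · rcases P4_cases q with ⟨p, rfl⟩ | ⟨ρ', j, hj, rfl⟩
    · rw [hd.1, hd'.1, Function.comp_apply, Equiv.swap_apply_of_ne_of_ne]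
      · rintro rfl
        exact hq 0 (by omega) (x4_lo ρ hp)
      · rintro rfl
        exact hq _ (by omega) (x4_mid ρ)
    · rw [hd.2 ρ' j hj, hd'.2 ρ' j hj]

theorem Rule.uniq {P T Rl : Type} {r : Rl → ℕ} {x : Rl → ℕ → P} {t : Rl → ℕ → T} {ρ : Rl}
    {c c1 c2 : P → T} (h1 : Rule r x t ρ c c1) (h2 : Rule r x t ρ c c2) : c1 = c2 := by
  funext p
  by_cases hp : ∃ n < 2 * r ρ, x ρ n = p
  · obtain ⟨n, hn, rfl⟩ := hp
    rw [h1.2.1 n hn, h2.2.1 n hn]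
  · push Not at hp
    rw [h1.2.2 p hp, h2.2.2 p hp]

theorem sh_of_sh {d d' : P ⊕ (Σ ρ, Fin (r4 R ρ)) → T} {c c' : P → T}
    (hd : Good4 R d c) (hd' : Good4 R d' c') (h : Sh M cv c c') :
    Sh M (fun n => .inl (cv n)) d d' := by
  refine ⟨fun n hn => by rw [hd.1, hd'.1, h.1 n hn], fun q hq => ?_⟩
  rcases P4_cases q with ⟨p, rfl⟩ | ⟨ρ', j, hj, rfl⟩
  · rw [hd.1, hd'.1, h.2 p fun n hn he => hq n hn (congrArg Sum.inl he)]
  · rw [hd.2 ρ' j hj, hd'.2 ρ' j hj]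

theorem hard_of_ST [DecidableEq P] [Fintype P] [Fintype Rl] (hM : 0 < M)
    (hcv : ∀ n < M, ∀ n' < M, cv n = cv n' → n = n') (K : ℕ) (hK : ∀ ρ, (R ρ).tests.card ≤ K)
    {c0 c1 : P → T} {N : ℕ} (h : Far (ST R M cv Fc) c0 c1 N) :
    ∃ n ≤ Fintype.card P + M + Fintype.card Rl * (21 * K + 23) + 3, Hard n N := by
  obtain ⟨d0, hd0⟩ := exists_Good4 (R := R) c0
  obtain ⟨d1, -, hf⟩ := h.sim (RL := IR (r4 R) (x4 R) (t4 R) M (fun n => .inl (cv n)) Fc)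
    (Good4 R) (Good4 R) d0 hd0 (fun _ _ h => h)
    (fun d c c' h h' => funext fun p => by rw [← h.1, ← h'.1])
    (fun d c d' hd hs => by
      rcases hs with ⟨ρ, hR⟩ | ⟨hF, hS | hS⟩
      · have hp := r4_pos R ρ
        have ha : (R ρ).App c (c ∘ Equiv.swap (R ρ).a (R ρ).a') := by
          refine ⟨?_, fun p hp' => ?_, rfl⟩
          · have := hR.1 0 (by omega)
            rwa [pr_lo hp, Nat.zero_add, x4_lo ρ hp, x4_mid, t4_zero, t4_mid, hd.1, hd.1] at this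
          · obtain ⟨n, h0, hn, rfl⟩ := mem_en ρ hp'
            have := hR.1 n (by omega)
            rw [pr_lo hn, x4_lo ρ hn, t4_lo ρ h0 hn, t4_hi ρ h0, hd.1] at this
            exact this.elim And.left And.left
        obtain ⟨d'', hd''⟩ := exists_Good4 (R := R) (c ∘ Equiv.swap (R ρ).a (R ρ).a')
        rw [hR.uniq (rule_of_app hd hd'' ha)]
        exact ⟨_, hd'', Or.inr (Or.inl ⟨ρ, ha⟩)⟩
      · obtain ⟨c', hc⟩ := exists_Sh M cv hcv c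
        obtain ⟨d'', hd''⟩ := exists_Good4 (R := R) c'
        rw [hS.uniq (sh_of_sh hd hd'' hc)]
        exact ⟨_, hd'', Or.inr (Or.inr ⟨fun n hn => hd.1 _ ▸ hF n hn, Or.inl hc⟩)⟩
      · obtain ⟨c', hc⟩ := exists_Sh' M cv hcv c
        obtain ⟨d'', hd''⟩ := exists_Good4 (R := R) c'
        rw [hS.uniq' (sh_of_sh hd'' hd hc)]
        exact ⟨_, hd'', Or.inr (Or.inr ⟨fun n hn => hd.1 _ ▸ hF n hn, Or.inr hc⟩)⟩)
    (fun d c c' hd hs => by
      obtain ⟨d', hd'⟩ := exists_Good4 (R := R) c'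
      refine ⟨d', hd', .single ?_⟩
      rcases hs with ⟨ρ, hR⟩ | ⟨hF, hS⟩
      · exact Or.inl ⟨ρ, rule_of_app hd hd' hR⟩
      · exact Or.inr ⟨fun n hn => (hd.1 _).symm ▸ hF n hn,
          hS.imp (sh_of_sh hd hd') (sh_of_sh hd' hd)⟩)
  refine ⟨_, ?_, hard_of_IR (fun ρ => by have := r4_pos R ρ; omega) hM x4_inj
    (fun n hn n' hn' h => hcv n hn n' hn' (Sum.inl.inj h)) hf⟩
  have : ∑ ρ, r4 R ρ ≤ Fintype.card Rl * (K + 1) := by
    have := Finset.sum_le_card_nsmul Finset.univ (r4 R) (K + 1) fun ρ _ => by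
      have := hK ρ
      unfold r4; omega
    simpa using this
  simp only [Fintype.card_sum, Fintype.card_sigma, Fintype.card_fin]
  nlinarith

end

end Pool.Agent.H.MP_f87a07_co
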