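import Mathlib
import Pool.Agent.H.MP_f87a07_co.A

set_option autoImplicit false

namespace Pool.Agent.H.MP_f87a07_co

open Relation

/-- insertion of a letter -/
def ins (k v : ℕ) (f : ℕ → ℕ) (n : ℕ) : ℕ := if n < k then f n else if n = k then v else f (n - 1)

/-- position of the last letter -/
def sweep (b j : ℕ) : ℕ := if j / (b + 1) % 2 = 0 then j % (b + 1) else b - j % (b + 1)

/-- the plain changes order of the permutations -/
def word : ℕ → ℕ → ℕ → ℕ
  | 0, _ => fun _ => 0
  | b + 1, j => ins (sweep b j) b (word b (j / (b + 1)))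

theorem sweep_le (b j : ℕ) : sweep b j ≤ b := by
  have := Nat.mod_lt j (show 0 < b + 1 by omega)
  unfold sweep; split_ifs <;> omega

theorem word_lt (b : ℕ) : ∀ j, ∀ o < b, word b j o < b := by
  induction b with
  | zero => intro j o ho; omega
  | succ b ih =>
    intro j o ho
    have := sweep_le b j
    simp only [word, ins]
    split_ifs with h1 h2
    · exact (ih _ o (by omega)).trans (by omega)
    · omega
    · exact (ih _ (o - 1) (by omega)).trans (by omega)

theorem div_lt_fact {b j : ℕ} (h : j < (b + 1).factorial) : j / (b + 1) < b.factorial := by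
  rw [Nat.factorial_succ] at h
  exact Nat.div_lt_of_lt_mul h

theorem word_inj (b : ℕ) : ∀ j < b.factorial, ∀ j' < b.factorial,
    (∀ o < b, word b j o = word b j' o) → j = j' := by
  induction b with
  | zero => intro j hj j' hj' _; simp at hj hj'; omega
  | succ b ih =>
    intro j hj j' hj' h
    have a := sweep_le b j
    have a' := sweep_le b j'
    have hs : sweep b j = sweep b j' := by
      have h1 := h (sweep b j) (by omega)
      simp only [word, ins, lt_irrefl, if_false, if_true] at h1
      split_ifs at h1 with h2 h3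
      · have := word_lt b (j' / (b + 1)) (sweep b j) (by omega); omega
      · exact h3
      · have := word_lt b (j' / (b + 1)) (sweep b j - 1) (by omega); omega
    have hq : j / (b + 1) = j' / (b + 1) := by
      refine ih _ (div_lt_fact hj) _ (div_lt_fact hj') fun o ho => ?_
      by_cases h1 : o < sweep b j
      · have := h o (by omega)
        simpa only [word, ins, ← hs, if_pos h1] using this
      · have := h (o + 1) (by omega)
        simp only [word, ins, ← hs] at this
        rwa [if_neg (by omega), if_neg (by omega), if_neg (by omega), if_neg (by omega)] at this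
    have m1 := Nat.mod_lt j (show 0 < b + 1 by omega)
    have m2 := Nat.mod_lt j' (show 0 < b + 1 by omega)
    have hr : j % (b + 1) = j' % (b + 1) := by
      unfold sweep at hs
      rw [← hq] at hs
      split_ifs at hs <;> omega
    rw [← Nat.div_add_mod j (b + 1), ← Nat.div_add_mod j' (b + 1), hq, hr]

theorem word_step (b : ℕ) : ∀ j, j + 1 < b.factorial → ∃ u < b, ∃ v < b, u ≠ v ∧
    ∀ o < b, word b (j + 1) o = word b j (Equiv.swap u v o) := by
  induction b with
  | zero => intro j hj; simp at hj
  | succ b ih =>
    intro j hj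
    have m1 := Nat.mod_lt j (show 0 < b + 1 by omega)
    have adj : ∀ (k : ℕ) (f : ℕ → ℕ) (o : ℕ),
        ins (k + 1) b f o = ins k b f (Equiv.swap k (k + 1) o) := by
      intro k f o
      rw [Equiv.swap_apply_def]
      simp only [ins]
      split_ifs <;> first | rfl | omega | (subst_vars; simp)
    rcases Nat.lt_or_ge (j % (b + 1)) b with h | h
    · have e1 : (j + 1) / (b + 1) = j / (b + 1) := by
        rw [Nat.succ_div, if_neg, Nat.add_zero]
        rw [Nat.dvd_iff_mod_eq_zero, ← Nat.mod_add_mod, Nat.mod_eq_of_lt (by omega)]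
        omega
      have e2 : (j + 1) % (b + 1) = j % (b + 1) + 1 := by
        rw [← Nat.mod_add_mod, Nat.mod_eq_of_lt (by omega)]
      simp only [word, sweep, e1, e2]
      split_ifs
      · exact ⟨j % (b + 1), by omega, j % (b + 1) + 1, by omega, by omega, fun o _ => adj _ _ o⟩
      · refine ⟨b - (j % (b + 1) + 1), by omega, b - (j % (b + 1) + 1) + 1, by omega, by omega,
          fun o _ => ?_⟩
        rw [show b - j % (b + 1) = b - (j % (b + 1) + 1) + 1 by omega, adj]
        simp
    · have e2 : (j + 1) % (b + 1) = 0 := by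
        rw [← Nat.mod_add_mod, show j % (b + 1) + 1 = b + 1 by omega, Nat.mod_self]
      have e1 : (j + 1) / (b + 1) = j / (b + 1) + 1 := by
        rw [Nat.succ_div, if_pos (Nat.dvd_of_mod_eq_zero e2)]
      obtain ⟨u, hu, v, hv, huv, hw⟩ := ih (j / (b + 1)) (e1 ▸ div_lt_fact hj)
      have e3 : j % (b + 1) = b := by omega
      simp only [word, sweep, e1, e2, e3]
      by_cases hp : j / (b + 1) % 2 = 0
      · rw [if_pos hp, if_neg (by omega)]
        refine ⟨u, by omega, v, by omega, huv, fun o ho => ?_⟩
        simp only [ins, Nat.sub_zero]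
        by_cases h1 : o < b
        · rw [if_pos h1, hw o h1, if_pos]
          rw [Equiv.swap_apply_def]; split_ifs <;> omega
        · rw [Equiv.swap_apply_of_ne_of_ne (by omega) (by omega), if_neg h1, if_neg h1,
            if_pos (by omega), if_pos (by omega)]
      · rw [if_neg hp, if_pos (by omega)]
        refine ⟨u + 1, by omega, v + 1, by omega, by omega, fun o ho => ?_⟩
        simp only [ins, Nat.sub_self, Nat.not_lt_zero, if_false]
        rcases o with _ | o
        · rw [Equiv.swap_apply_of_ne_of_ne (by omega) (by omega)]; simp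
        · have : Equiv.swap (u + 1) (v + 1) (o + 1) = Equiv.swap u v o + 1 :=
            (Nat.succ_injective.map_swap u v o).symm
          rw [this]
          simp only [Nat.add_one_ne_zero, if_false, Nat.add_sub_cancel]
          exact hw o (by omega)

/-- one step of the odometer -/
def Od (m B : ℕ) (d d' : ℕ → ℕ) : Prop :=
  ∃ h < m, ∃ j, j + 1 < B ∧
    ((d h = j ∧ d' = Function.update d h (j + 1)) ∨ (d h = j + 1 ∧ d' = Function.update d h j)) ∧
    (∀ i, i + 2 ≤ h → d i = 0) ∧ ∀ i, i + 1 = h → d i = if j % 2 = 0 then 0 else B - 1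

theorem Od.symm {m B : ℕ} {d d' : ℕ → ℕ} (h : Od m B d d') : Od m B d' d := by
  obtain ⟨h, hm, j, hj, h1, h2, h3⟩ := h
  have : ∀ i, i ≠ h → d' i = d i := fun i hi => by
    rcases h1 with ⟨-, rfl⟩ | ⟨-, rfl⟩ <;> rw [Function.update_of_ne hi]
  refine ⟨h, hm, j, hj, ?_, fun i hi => by rw [this i (by omega), h2 i hi],
    fun i hi => by rw [this i (by omega), h3 i hi]⟩
  rcases h1 with ⟨h1, rfl⟩ | ⟨h1, rfl⟩
  · exact Or.inr ⟨by simp, by simp [← h1]⟩
  · exact Or.inl ⟨by simp, by simp [← h1]⟩

/-- length of the run of the odometer -/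
def NN (B : ℕ) : ℕ → ℤ
  | 0 => 0
  | i + 1 => (B - 1 : ℤ) + (B - 2 : ℤ) * NN B i

/-- the potential -/
def Phi (B : ℕ) (d : ℕ → ℕ) : ℕ → ℤ
  | 0 => 0
  | i + 1 => (d i : ℤ) + ((d i : ℤ) - 1) * NN B i +
      if d i % 2 = 0 then NN B i - Phi B d i else Phi B d i

theorem Phi_congr (B : ℕ) {d d' : ℕ → ℕ} (i : ℕ) (h : ∀ k < i, d k = d' k) :
    Phi B d i = Phi B d' i := by
  induction i with
  | zero => rfl
  | succ i ih => simp only [Phi]; rw [h i (by omega), ih fun k hk => h k (by omega)]

theorem Phi_zero (B : ℕ) {d : ℕ → ℕ} (i : ℕ) (h : ∀ k < i, d k = 0) : Phi B d i = 0 := by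
  induction i with
  | zero => rfl
  | succ i ih => simp [Phi, h i (by omega), ih fun k hk => h k (by omega)]

theorem Phi_top {B : ℕ} (hB : B % 2 = 0) (h2 : 2 ≤ B) {d : ℕ → ℕ} (i : ℕ)
    (h : ∀ k, k + 2 ≤ i → d k = 0) (h' : ∀ k, k + 1 = i → d k = B - 1) : Phi B d i = NN B i := by
  rcases i with _ | i
  · rfl
  · simp only [Phi, NN]
    rw [h' i rfl, if_neg (by omega), Phi_zero B i fun k hk => h k (by omega)]
    push_cast [show 1 ≤ B by omega]
    ring

theorem Phi_step {m B : ℕ} (hB : B % 2 = 0) {d d' : ℕ → ℕ} (h : Od m B d d') :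
    |Phi B d' m - Phi B d m| ≤ 1 := by
  have key : ∀ (d : ℕ → ℕ) (h j : ℕ), j + 1 < B → d h = j → (∀ i, i + 2 ≤ h → d i = 0) →
      (∀ i, i + 1 = h → d i = if j % 2 = 0 then 0 else B - 1) →
      ∀ i, h < i → |Phi B (Function.update d h (j + 1)) i - Phi B d i| = 1 := by
    intro d h j hj h1 h2 h3 i hi
    induction i with
    | zero => omega
    | succ i ih =>
      simp only [Phi]
      rcases Nat.lt_succ_iff_lt_or_eq.1 hi with hi | rfl
      · rw [Function.update_of_ne (by omega), ← ih hi]
        split_ifs
        · rw [← abs_neg]; congr 1; ring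
        · congr 1; ring
      · rw [Function.update_self, h1, Phi_congr B h (d' := d)
          fun k hk => Function.update_of_ne (by omega) _ _]
        by_cases hp : j % 2 = 0
        · rw [if_neg (by omega), if_pos hp, Phi_zero B h fun k hk => by
            rcases Nat.lt_or_ge (k + 1) h with h4 | h4
            · exact h2 k h4
            · simpa [hp] using h3 k (by omega)]
          push_cast; ring_nf; simp
        · rw [if_pos (by omega), if_neg hp, Phi_top hB (by omega) h h2
            fun k hk => by simpa [hp] using h3 k hk]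
          push_cast; ring_nf; simp
  obtain ⟨h0, hm, j, hj, ⟨h1, rfl⟩ | ⟨h1, rfl⟩, h2, h3⟩ := h
  · exact (key d h0 j hj h1 h2 h3 m hm).le
  · have := key (Function.update d h0 j) h0 j hj (by simp)
      (fun i hi => by rw [Function.update_of_ne (by omega), h2 i hi])
      (fun i hi => by rw [Function.update_of_ne (by omega), h3 i hi]) m hm
    rw [Function.update_idem, ← h1, Function.update_eq_self] at this
    rw [abs_sub_comm]
    exact this.le

theorem rtg_symm' {S : Type} {R : S → S → Prop} (hR : ∀ a b, R a b → R b a) {a b : S}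
    (h : ReflTransGen R a b) : ReflTransGen R b a := by
  induction h with
  | refl => exact .refl
  | tail _ hs ih => exact .head (hR _ _ hs) ih

theorem od_reach {m B : ℕ} (hB : B % 2 = 0) (h2 : 2 ≤ B) (i : ℕ) : i < m → ∀ d : ℕ → ℕ,
    (∀ k ≤ i, d k = 0) → ReflTransGen (Od m B) d (Function.update d i (B - 1)) := by
  induction i using Nat.strong_induction_on with
  | _ i ih =>
    intro hi d hd
    have key : ∀ j, 2 * j + 1 < B → ReflTransGen (Od m B) d (Function.update d i (2 * j + 1)) := by
      intro j
      induction j with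
      | zero =>
        intro hj
        exact .single ⟨i, hi, 0, hj, Or.inl ⟨hd i le_rfl, rfl⟩, fun k hk => hd k (by omega),
          fun k hk => hd k (by omega)⟩
      | succ j ihj =>
        intro hj
        refine (ihj (by omega)).trans (ReflTransGen.tail (b := Function.update d i (2 * j + 2)) ?_
          ⟨i, hi, 2 * j + 2, by omega, Or.inl ⟨by simp, by simp; rfl⟩,
            fun k hk => by rw [Function.update_of_ne (by omega), hd k (by omega)],
            fun k hk => by rw [Function.update_of_ne (by omega), hd k (by omega), if_pos (by omega)]⟩)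
        rcases i with _ | i
        · exact .single ⟨0, hi, 2 * j + 1, by omega, Or.inl ⟨by simp, by simp⟩,
            fun k hk => by omega, fun k hk => by omega⟩
        · have a := ih i (by omega) (by omega) (Function.update d (i + 1) (2 * j + 1))
            fun k hk => by rw [Function.update_of_ne (by omega), hd k (by omega)]
          have b := ih i (by omega) (by omega) (Function.update d (i + 1) (2 * j + 2))
            fun k hk => by rw [Function.update_of_ne (by omega), hd k (by omega)]
          refine (a.tail ⟨i + 1, hi, 2 * j + 1, by omega, Or.inl ⟨by simp, ?_⟩, fun k hk => ?_,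
            fun k hk => ?_⟩).trans (rtg_symm' (fun _ _ => Od.symm) b)
          · rw [Function.update_comm (by omega : i + 1 ≠ i), Function.update_comm
              (by omega : i + 1 ≠ i), Function.update_idem]
          · rw [Function.update_of_ne (by omega), Function.update_of_ne (by omega),
              hd k (by omega)]
          · obtain rfl : k = i := by omega
            rw [Function.update_self, if_neg (by omega)]
    have := key (B / 2 - 1) (by omega)
    rwa [show 2 * (B / 2 - 1) + 1 = B - 1 by omega] at this

theorem NN_ge {B : ℕ} (h2 : 2 ≤ B) (i : ℕ) : ((B - 2) ^ i : ℕ) ≤ NN B i + 1 := by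
  induction i with
  | zero => simp [NN]
  | succ i ih =>
    simp only [NN]
    push_cast [h2] at ih ⊢
    have : (0 : ℤ) ≤ B - 2 := by omega
    rw [pow_succ]
    nlinarith

theorem od_far {m B : ℕ} (hB : B % 2 = 0) (h2 : 2 ≤ B) :
    Far (Od (m + 1) B) (fun _ => 0) (Function.update (fun _ => 0) m (B - 1))
      ((B - 2) ^ (m + 1) - 1) := by
  refine ⟨od_reach hB h2 m (by omega) _ fun _ _ => rfl, fun k hk => ?_⟩
  have key : ∀ k d, Within (Od (m + 1) B) (fun _ => 0) k d → Phi B d (m + 1) ≤ k := by
    intro k d h
    induction h with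
    | refl => rw [Phi_zero B _ fun _ _ => rfl]; simp
    | stay _ ih => push_cast; omega
    | step _ hs ih =>
      have := (abs_le.1 (Phi_step hB hs)).2
      push_cast; omega
  have a := key k _ hk
  rw [Phi_top hB h2 _ (fun k hk => by rw [Function.update_of_ne (by omega)])
    (fun k hk => by rw [show k = m by omega, Function.update_self])] at a
  have b := NN_ge h2 (m + 1)
  omega

end Pool.Agent.H.MP_f87a07_co
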