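import Mathlib
import Pool.Agent.H.MP_f87a07_co.G
import Pool.Agent.H.MP_f87a07_co.W

set_option autoImplicit false

namespace Pool.Agent.H.MP_f87a07_co

open Relation

/-- token types of the machine -/
inductive TT
  | lam | kap | eps | om
  | letter (n : ℕ)

open TT

theorem SwapRule.App.symm {P T : Type} [DecidableEq P] {R : SwapRule P T} {c c' : P → T}
    (h : R.App c c') : R.App c' c := by
  obtain ⟨h1, h2, rfl⟩ := h
  refine ⟨?_, fun p hp => ?_, ?_⟩
  · simp only [Function.comp_apply, Equiv.swap_apply_left, Equiv.swap_apply_right]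
    tauto
  · rw [Function.comp_apply, Equiv.swap_apply_of_ne_of_ne (fun h : p = R.a => R.n1 (h ▸ hp))
      (fun h : p = R.a' => R.n2 (h ▸ hp)), h2 p hp]
  · funext p; simp

theorem ST.symm {P T Rl : Type} [DecidableEq P] {R : Rl → SwapRule P T} {M : ℕ} {cv : ℕ → P}
    {Fc : T → Prop} {c c' : P → T} (h : ST R M cv Fc c c') : ST R M cv Fc c' c := by
  rcases h with ⟨ρ, h⟩ | ⟨hF, h | h⟩
  · exact Or.inl ⟨ρ, h.symm⟩
  · exact Or.inr ⟨fun n hn => h.1 n hn ▸ hF _ (Nat.mod_lt _ (by omega)), Or.inr h⟩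
  · exact Or.inr ⟨fun n hn => h.back hn ▸ hF _ (Nat.mod_lt _ (by omega)), Or.inl h⟩

section
variable {M : ℕ} (hM : 0 < M)

/-- cells of the conveyor -/
def cv (n : ℕ) : Option (Fin M) := some ⟨n % M, Nat.mod_lt _ hM⟩

/-- the configuration with given contents -/
def mk (M : ℕ) (xv : TT) (f : ℕ → TT) : Option (Fin M) → TT := fun p => p.elim xv fun n => f n

theorem cv_inj : ∀ n < M, ∀ n' < M, cv hM n = cv hM n' → n = n' := by
  intro n hn n' hn' h
  simpa [cv, Nat.mod_eq_of_lt hn, Nat.mod_eq_of_lt hn'] using h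

theorem cv_val (n : Fin M) : cv hM n = some n := by
  simp [cv, Nat.mod_eq_of_lt n.2]

theorem cv_ne (n : ℕ) : cv hM n ≠ none := by simp [cv]

theorem mk_none (xv : TT) (f : ℕ → TT) : mk M xv f none = xv := rfl

theorem mk_cv (xv : TT) (f : ℕ → TT) {n : ℕ} (hn : n < M) : mk M xv f (cv hM n) = f n := by
  simp [mk, cv, Nat.mod_eq_of_lt hn]

theorem mk_congr (xv : TT) {f g : ℕ → TT} (h : ∀ n < M, f n = g n) : mk M xv f = mk M xv g := by
  funext p
  rcases p with _ | n
  · rfl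
  · exact h n n.2

theorem mk_swap_x (xv : TT) (f : ℕ → TT) {n : ℕ} (hn : n < M) :
    mk M xv f ∘ Equiv.swap (cv hM n) none = mk M (f n) (Function.update f n xv) := by
  funext p
  rcases p with _ | k
  · rw [Function.comp_apply, Equiv.swap_apply_right, mk_cv hM _ _ hn, mk_none]
  · rw [← cv_val hM, mk_cv hM _ _ k.2, Function.comp_apply]
    by_cases h : (k : ℕ) = n
    · rw [h, Equiv.swap_apply_left, mk_none, Function.update_self]
    · rw [Equiv.swap_apply_of_ne_of_ne (fun e => h (cv_inj hM _ k.2 _ hn e)) (cv_ne hM _),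
        mk_cv hM _ _ k.2, Function.update_of_ne h]

theorem mk_swap (xv : TT) (f : ℕ → TT) {u v : ℕ} (hu : u < M) (hv : v < M) :
    mk M xv f ∘ Equiv.swap (cv hM u) (cv hM v) = mk M xv (f ∘ Equiv.swap u v) := by
  funext p
  rcases p with _ | k
  · rw [Function.comp_apply, Equiv.swap_apply_of_ne_of_ne (cv_ne hM _).symm (cv_ne hM _).symm]
    rfl
  · rw [← cv_val hM, mk_cv hM _ _ k.2, Function.comp_apply, Function.comp_apply]
    by_cases h : (k : ℕ) = u
    · rw [h, Equiv.swap_apply_left, Equiv.swap_apply_left, mk_cv hM _ _ hv]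
    by_cases h' : (k : ℕ) = v
    · rw [h', Equiv.swap_apply_right, Equiv.swap_apply_right, mk_cv hM _ _ hu]
    · rw [Equiv.swap_apply_of_ne_of_ne (fun e => h (cv_inj hM _ k.2 _ hu e))
        (fun e => h' (cv_inj hM _ k.2 _ hv e)), mk_cv hM _ _ k.2,
        Equiv.swap_apply_of_ne_of_ne h h']

theorem Sh_mk (xv : TT) (f : ℕ → TT) (w : ℕ) :
    Sh M (cv hM) (mk M xv fun n => f ((n + w) % M)) (mk M xv fun n => f ((n + (w + 1)) % M)) := by
  refine ⟨fun n hn => ?_, fun q hq => ?_⟩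
  · rw [mk_cv hM _ _ hn, mk_cv hM _ _ (Nat.mod_lt _ hM), Nat.mod_add_mod]
    congr 2; omega
  · rcases q with _ | k
    · rfl
    · exact (hq k k.2 (cv_val hM k)).elim

/-- a rule testing the cells of `S` -/
def mkR (a a' : Option (Fin M)) (ta ta' : TT) (S : Finset ℕ) (t : ℕ → TT) (h : a ≠ a') :
    SwapRule (Option (Fin M)) TT :=
  ⟨a, a', ta, ta', ((S.image (cv hM)).erase a).erase a', mk M lam t, h, by simp, by simp⟩

theorem mkR_card (a a' : Option (Fin M)) (ta ta' : TT) (S : Finset ℕ) (t : ℕ → TT) (h : a ≠ a') :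
    (mkR hM a a' ta ta' S t h).tests.card ≤ S.card :=
  Finset.card_erase_le.trans (Finset.card_erase_le.trans Finset.card_image_le)

theorem mkR_app {a a' : Option (Fin M)} {ta ta' : TT} {S : Finset ℕ} {t : ℕ → TT} {h : a ≠ a'}
    (hS : ∀ n ∈ S, n < M) {c c' : Option (Fin M) → TT} :
    (mkR hM a a' ta ta' S t h).App c c' ↔ ((c a = ta ∧ c a' = ta') ∨ (c a = ta' ∧ c a' = ta)) ∧
      (∀ n ∈ S, cv hM n ≠ a → cv hM n ≠ a' → c (cv hM n) = t n) ∧ c' = c ∘ Equiv.swap a a' := by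
  refine and_congr_right' (and_congr_left' ⟨fun H n hn h1 h2 => ?_, fun H p hp => ?_⟩)
  · rw [← mk_cv hM lam t (hS n hn)]
    exact H _ (Finset.mem_erase.2 ⟨h2, Finset.mem_erase.2 ⟨h1, Finset.mem_image_of_mem _ hn⟩⟩)
  · obtain ⟨h2, hp⟩ := Finset.mem_erase.1 hp
    obtain ⟨h1, hp⟩ := Finset.mem_erase.1 hp
    obtain ⟨n, hn, rfl⟩ := Finset.mem_image.1 hp
    rw [H n hn h1 h2]
    exact (mk_cv hM lam t (hS n hn)).symm

end

section
variable (b m : ℕ)

/-- contents of a block -/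
def blk (d : ℕ → ℕ) (i o : ℕ) : TT := if i < m then letter (word b (d i) o) else om

/-- the block at a given place -/
def idx (h q : ℕ) : ℕ := if q ≤ h then h - q else h + m + 1 - q

/-- the tape -/
def arr (h : ℕ) (d : ℕ → ℕ) (s0 s1 : TT) (n : ℕ) : TT :=
  if n % (b + 1) = 0 then (if n / (b + 1) = 0 then s0 else if n / (b + 1) = 1 then s1 else eps)
  else blk b m d (idx m h (n / (b + 1))) (n % (b + 1) - 1)

variable {b m}

theorem arr_gen (h : ℕ) (d : ℕ → ℕ) (s0 s1 : TT) (q : ℕ) {r : ℕ} (hr : r < b + 1) :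
    arr b m h d s0 s1 (q * (b + 1) + r) = if r = 0 then
      (if q = 0 then s0 else if q = 1 then s1 else eps) else blk b m d (idx m h q) (r - 1) := by
  have e1 : (q * (b + 1) + r) % (b + 1) = r := by
    rw [Nat.mul_add_mod_self_right, Nat.mod_eq_of_lt hr]
  have e2 : (q * (b + 1) + r) / (b + 1) = q := by
    rw [add_comm, Nat.add_mul_div_right _ _ (by omega), Nat.div_eq_of_lt hr, Nat.zero_add]
  rw [arr, e1, e2]

theorem split_cell {n : ℕ} (hn : n < (m + 1) * (b + 1)) :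
    ∃ q ≤ m, ∃ r < b + 1, n = q * (b + 1) + r :=
  ⟨n / (b + 1), Nat.lt_succ_iff.1 ((Nat.div_lt_iff_lt_mul (by omega)).2 hn), n % (b + 1),
    Nat.mod_lt _ (by omega), by rw [mul_comm, Nat.div_add_mod]⟩

theorem cell_lt {q r : ℕ} (hq : q ≤ m) (hr : r < b + 1) : q * (b + 1) + r < (m + 1) * (b + 1) := by
  have := Nat.mul_le_mul_right (b + 1) hq
  rw [Nat.add_one_mul]; omega

theorem arr_zero (h : ℕ) (d : ℕ → ℕ) (s0 s1 : TT) : arr b m h d s0 s1 0 = s0 := by simp [arr]

theorem arr_one (h : ℕ) (d : ℕ → ℕ) (s0 s1 : TT) : arr b m h d s0 s1 (b + 1) = s1 := by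
  simp [arr]

theorem arr_cur (h : ℕ) (d : ℕ → ℕ) (s0 s1 : TT) {o : ℕ} (ho : o < b) :
    arr b m h d s0 s1 (o + 1) = blk b m d h o := by
  simpa [idx] using arr_gen (m := m) h d s0 s1 0 (r := o + 1) (by omega)

theorem arr_prev (h : ℕ) (d : ℕ → ℕ) (s0 s1 : TT) {o : ℕ} (ho : o < b) :
    arr b m h d s0 s1 (b + 1 + (o + 1)) = blk b m d (idx m h 1) o := by
  simpa using arr_gen (m := m) h d s0 s1 1 (r := o + 1) (by omega)

theorem arr_upd0 (h : ℕ) (d : ℕ → ℕ) (s0 s1 t : TT) :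
    Function.update (arr b m h d s0 s1) 0 t = arr b m h d t s1 := by
  funext n
  by_cases hn : n = 0
  · rw [hn, Function.update_self, arr_zero]
  · rw [Function.update_of_ne hn]
    have := Nat.div_add_mod n (b + 1)
    unfold arr
    split_ifs with h1 h2 <;> first | rfl | (rw [h1, h2] at this; omega)

theorem arr_upd1 (h : ℕ) (d : ℕ → ℕ) (s0 s1 t : TT) :
    Function.update (arr b m h d s0 s1) (b + 1) t = arr b m h d s0 t := by
  funext n
  by_cases hn : n = b + 1
  · rw [hn, Function.update_self, arr_one]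
  · rw [Function.update_of_ne hn]
    have := Nat.div_add_mod n (b + 1)
    unfold arr
    split_ifs with h1 h2 h3 <;> first | rfl | (rw [h1, h3] at this; omega)

theorem arr_ne_lam (h : ℕ) (d : ℕ → ℕ) (n : ℕ) : arr b m h d eps kap n ≠ lam := by
  unfold arr blk
  split_ifs <;> simp

theorem arr_kap {h : ℕ} {d : ℕ → ℕ} {n : ℕ} (e : arr b m h d eps kap n = kap) : n = b + 1 := by
  have := Nat.div_add_mod n (b + 1)
  unfold arr blk at e
  split_ifs at e with h1 h2 h3
  rw [h1, h3] at this; omega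

theorem arr_rot {h : ℕ} (hh : h < m) (d : ℕ → ℕ) : ∀ n < (m + 1) * (b + 1),
    arr b m (h + 1) d eps kap ((n + (b + 1)) % ((m + 1) * (b + 1))) = arr b m h d kap eps n := by
  intro n hn
  obtain ⟨q, hq, r, hr, rfl⟩ := split_cell hn
  rw [arr_gen _ _ _ _ _ hr]
  rcases hq.lt_or_eq with hq | rfl
  · rw [show q * (b + 1) + r + (b + 1) = (q + 1) * (b + 1) + r by ring,
      Nat.mod_eq_of_lt (cell_lt hq hr), arr_gen _ _ _ _ _ hr,
      show idx m (h + 1) (q + 1) = idx m h q by unfold idx; split_ifs <;> omega]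
    split_ifs <;> first | rfl | omega
  · rw [show q * (b + 1) + r + (b + 1) = 0 * (b + 1) + r + (q + 1) * (b + 1) by ring,
      Nat.add_mod_right, Nat.mod_eq_of_lt (cell_lt (Nat.zero_le _) hr), arr_gen _ _ _ _ _ hr,
      show idx q (h + 1) 0 = idx q h q by unfold idx; split_ifs <;> omega]
    split_ifs <;> first | rfl | omega

theorem arr_swap {h : ℕ} (hh : h < m) (d : ℕ → ℕ) (s0 s1 : TT) {j u v : ℕ} (hu : u < b)
    (hv : v < b) (hw : ∀ o < b, word b j o = word b (d h) (Equiv.swap u v o)) :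
    ∀ n < (m + 1) * (b + 1), (arr b m h d s0 s1 ∘ Equiv.swap (u + 1) (v + 1)) n
      = arr b m h (Function.update d h j) s0 s1 n := by
  intro n hn
  obtain ⟨q, hq, r, hr, rfl⟩ := split_cell hn
  rw [Function.comp_apply]
  rcases Nat.eq_zero_or_pos q with rfl | h0
  · rw [Nat.zero_mul, Nat.zero_add]
    rcases r with _ | o
    · rw [Equiv.swap_apply_of_ne_of_ne (by omega) (by omega), arr_zero, arr_zero]
    · have e : Equiv.swap (u + 1) (v + 1) (o + 1) = Equiv.swap u v o + 1 :=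
        (Nat.succ_injective.map_swap u v o).symm
      rw [e, arr_cur _ _ _ _ (by omega : o < b), arr_cur, blk, blk, if_pos hh, if_pos hh,
        Function.update_self, hw o (by omega)]
      rw [Equiv.swap_apply_def]; split_ifs <;> omega
  · have : b + 1 ≤ q * (b + 1) := Nat.le_mul_of_pos_left _ h0
    rw [Equiv.swap_apply_of_ne_of_ne (by omega) (by omega), arr_gen _ _ _ _ _ hr,
      arr_gen _ _ _ _ _ hr, blk, blk, Function.update_of_ne]
    unfold idx; split_ifs <;> omega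

end

end Pool.Agent.H.MP_f87a07_co
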