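import Mathlib
import Pool.Agent.H.MP_f87a07_co.H

set_option autoImplicit false

namespace Pool.Agent.H.MP_f87a07_co

open Relation TT

/-- index set of the rules -/
abbrev Rl (b : ℕ) : Type :=
  (Fin (b.factorial - 1) × Bool) ⊕ (Fin b.factorial × Bool) ⊕ Bool

theorem step_ex {b : ℕ} (j : Fin (b.factorial - 1)) : ∃ uv : ℕ × ℕ, uv.1 < b ∧ uv.2 < b ∧
    uv.1 ≠ uv.2 ∧ ∀ o < b, word b (j + 1) o = word b j (Equiv.swap uv.1 uv.2 o) := by
  obtain ⟨u, hu, v, hv, h⟩ := word_step b j (by have := j.2; omega)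
  exact ⟨(u, v), hu, hv, h⟩

/-- expected contents of the previous block -/
def pb (b k : ℕ) (bd : Bool) (o : ℕ) : TT := if bd then om else letter (word b k o)

/-- expected contents of the first two blocks -/
def loc (b j k : ℕ) (bd : Bool) (n : ℕ) : TT :=
  if n = 0 then lam else if n < b + 1 then letter (word b j (n - 1)) else pb b k bd (n - (b + 2))

theorem MM_pos (b m : ℕ) : 0 < (m + 1) * (b + 1) := by positivity

theorem lt_MM {b m n : ℕ} (hn : n < b + 1) : n < (m + 1) * (b + 1) :=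
  hn.trans_le (Nat.le_mul_of_pos_left _ (by omega))

theorem lt_MM' {b m n : ℕ} (hm : 0 < m) (hn : n < 2 * (b + 1)) : n < (m + 1) * (b + 1) :=
  hn.trans_le (Nat.mul_le_mul_right _ (by omega))

/-- the cells -/
def cl (b m : ℕ) (n : ℕ) : Option (Fin ((m + 1) * (b + 1))) := cv (MM_pos b m) n

/-- the tested cells -/
def SS (b : ℕ) : Finset ℕ := (Finset.range (2 * (b + 1))).erase (b + 1)

/-- the rules -/
noncomputable def rule (b m : ℕ) : Rl b → SwapRule (Option (Fin ((m + 1) * (b + 1)))) TT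
  | .inl (j, bd) => mkR (MM_pos b m) (cl b m ((step_ex j).choose.1 + 1))
      (cl b m ((step_ex j).choose.2 + 1)) (letter (word b j (step_ex j).choose.1))
      (letter (word b j (step_ex j).choose.2)) (SS b)
      (loc b j (if (j : ℕ) % 2 = 0 then 0 else b.factorial - 1) bd) fun h => by
        obtain ⟨h1, h2, h3, -⟩ := (step_ex j).choose_spec
        have := cv_inj _ _ (lt_MM (by omega)) _ (lt_MM (by omega)) h
        omega
  | .inr (.inl (j, bd)) => mkR (MM_pos b m) (cl b m 0) none lam kap (SS b) (loc b j 0 bd) (cv_ne _ _)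
  | .inr (.inr true) => mkR (MM_pos b m) (cl b m 0) none eps lam {b + 1} (fun _ => kap) (cv_ne _ _)
  | .inr (.inr false) => mkR (MM_pos b m) (cl b m (b + 1)) none eps kap ∅ (fun _ => kap) (cv_ne _ _)

theorem rule_card (b m : ℕ) (ρ : Rl b) : (rule b m ρ).tests.card ≤ 2 * (b + 1) := by
  have : (SS b).card ≤ 2 * (b + 1) := Finset.card_erase_le.trans (by simp)
  rcases ρ with ⟨j, bd⟩ | ⟨j, bd⟩ | _ | _
  · exact (mkR_card ..).trans this
  · exact (mkR_card ..).trans this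
  · exact (mkR_card ..).trans (by simp)
  · exact (mkR_card ..).trans (by simp; omega)

/-- steps of the machine -/
abbrev MS (b m : ℕ) := ST (rule b m) ((m + 1) * (b + 1)) (cl b m) (fun t => t ≠ lam)

/-- configurations -/
def cf (b m : ℕ) (xv : TT) (f : ℕ → TT) := mk ((m + 1) * (b + 1)) xv f

variable {b m : ℕ}

theorem cf_cl (xv : TT) (f : ℕ → TT) {n : ℕ} (hn : n < (m + 1) * (b + 1)) :
    cf b m xv f (cl b m n) = f n := mk_cv _ _ _ hn

theorem cf_none (xv : TT) (f : ℕ → TT) : cf b m xv f none = xv := rfl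

theorem cl_none (n : ℕ) : cl b m n ≠ none := cv_ne _ _

theorem cf_congr (xv : TT) {f g : ℕ → TT} (h : ∀ n < (m + 1) * (b + 1), f n = g n) :
    cf b m xv f = cf b m xv g := mk_congr xv h

theorem cf_swap_x (xv : TT) (f : ℕ → TT) {n : ℕ} (hn : n < (m + 1) * (b + 1)) :
    cf b m xv f ∘ Equiv.swap (cl b m n) none = cf b m (f n) (Function.update f n xv) :=
  mk_swap_x _ xv f hn

theorem cf_swap (xv : TT) (f : ℕ → TT) {u v : ℕ} (hu : u < (m + 1) * (b + 1))
    (hv : v < (m + 1) * (b + 1)) :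
    cf b m xv f ∘ Equiv.swap (cl b m u) (cl b m v) = cf b m xv (f ∘ Equiv.swap u v) :=
  mk_swap _ xv f hu hv

theorem Sh_cf (xv : TT) (f : ℕ → TT) (w : ℕ) :
    Sh ((m + 1) * (b + 1)) (cl b m) (cf b m xv fun n => f ((n + w) % ((m + 1) * (b + 1))))
      (cf b m xv fun n => f ((n + (w + 1)) % ((m + 1) * (b + 1)))) := Sh_mk (MM_pos b m) xv f w

theorem R_app {a a' : Option (Fin ((m + 1) * (b + 1)))} {ta ta' : TT} {S : Finset ℕ} {t : ℕ → TT}
    {h : a ≠ a'} (hS : ∀ n ∈ S, n < (m + 1) * (b + 1))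
    {c c' : Option (Fin ((m + 1) * (b + 1))) → TT} :
    (mkR (MM_pos b m) a a' ta ta' S t h).App c c' ↔
      ((c a = ta ∧ c a' = ta') ∨ (c a = ta' ∧ c a' = ta)) ∧
      (∀ n ∈ S, (cl b m n ≠ a ∧ cl b m n ≠ a') → c (cl b m n) = t n) ∧
        c' = c ∘ Equiv.swap a a' := by
  rw [mkR_app _ hS]
  simp only [and_imp]
  rfl

theorem SS_lt (hm : 0 < m) : ∀ n ∈ SS b, n < (m + 1) * (b + 1) := fun _ hn =>
  lt_MM' hm (Finset.mem_range.1 (Finset.mem_of_mem_erase hn))

theorem SS_iff (hm : 0 < m) (xv : TT) (f : ℕ → TT) (j k : ℕ) (bd : Bool) (p : ℕ → Prop)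
    (hp : ∀ o < b, p (b + 1 + (o + 1))) :
    (∀ n ∈ SS b, p n → cf b m xv f (cl b m n) = loc b j k bd n) ↔ (p 0 → f 0 = lam) ∧
      (∀ o < b, p (o + 1) → f (o + 1) = letter (word b j o)) ∧
      ∀ o < b, f (b + 1 + (o + 1)) = pb b k bd o := by
  constructor
  · intro H
    refine ⟨fun h => ?_, fun o ho h => ?_, fun o ho => ?_⟩
    · have := H 0 (by simp [SS]) h
      rwa [cf_cl _ _ (MM_pos b m)] at this
    · have := H (o + 1) (by simp [SS]; omega) h
      rwa [cf_cl _ _ (lt_MM (by omega)), loc, if_neg (by omega), if_pos (by omega)] at this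
    · have := H (b + 1 + (o + 1)) (by simp [SS]; omega) (hp o ho)
      rwa [cf_cl _ _ (lt_MM' hm (by omega)), loc, if_neg (by omega), if_neg (by omega),
        show b + 1 + (o + 1) - (b + 2) = o by omega] at this
  · rintro ⟨h0, h1, h2⟩ n hn h
    rw [cf_cl _ _ (SS_lt hm n hn), loc]
    simp only [SS, Finset.mem_erase, Finset.mem_range] at hn
    split_ifs with c1 c2
    · subst c1; exact h0 h
    · obtain ⟨o, rfl⟩ : ∃ o, n = o + 1 := ⟨n - 1, by omega⟩
      exact h1 o (by omega) h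
    · obtain ⟨o, rfl⟩ : ∃ o, n = b + 1 + (o + 1) := ⟨n - (b + 2), by omega⟩
      rw [h2 o (by omega), show b + 1 + (o + 1) - (b + 2) = o by omega]

theorem cl_ne {n n' : ℕ} (hm : 0 < m) (hn : n < 2 * (b + 1)) (hn' : n' < 2 * (b + 1)) :
    cl b m n ≠ cl b m n' ↔ n ≠ n' :=
  ⟨fun h e => h (e ▸ rfl), fun h e => h (cv_inj _ _ (lt_MM' hm hn) _ (lt_MM' hm hn') e)⟩

theorem D_iff (hm : 0 < m) (j : Fin (b.factorial - 1)) (bd : Bool) : ∃ u < b, ∃ v < b,
    (∀ o < b, word b (j + 1) o = word b j (Equiv.swap u v o)) ∧ ∀ xv f c',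
      (rule b m (.inl (j, bd))).App (cf b m xv f) c' ↔ f 0 = lam ∧
        ((∀ o < b, f (o + 1) = letter (word b j o)) ∨
          ∀ o < b, f (o + 1) = letter (word b (j + 1) o)) ∧
        (∀ o < b, f (b + 1 + (o + 1))
          = pb b (if (j : ℕ) % 2 = 0 then 0 else b.factorial - 1) bd o) ∧
        c' = cf b m xv (f ∘ Equiv.swap (u + 1) (v + 1)) := by
  obtain ⟨hu, hv, huv, hw⟩ := (step_ex j).choose_spec
  refine ⟨_, hu, _, hv, hw, fun xv f c' => ?_⟩
  rw [rule, R_app (SS_lt hm)]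
  generalize (step_ex j).choose.1 = u at *
  generalize (step_ex j).choose.2 = v at *
  rw [SS_iff hm xv f _ _ _ (fun n => cl b m n ≠ cl b m (u + 1) ∧ cl b m n ≠ cl b m (v + 1))
    fun o ho => ⟨(cl_ne hm (by omega) (by omega)).2 (by omega),
      (cl_ne hm (by omega) (by omega)).2 (by omega)⟩,
    cf_swap _ _ (lt_MM (by omega)) (lt_MM (by omega)), cf_cl _ _ (lt_MM (by omega)),
    cf_cl _ _ (lt_MM (by omega))]
  have e1 := hw u hu
  have e2 := hw v hv
  rw [Equiv.swap_apply_left] at e1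
  rw [Equiv.swap_apply_right] at e2
  constructor
  · rintro ⟨h1, ⟨h2, h3, h4⟩, h5⟩
    have h6 : ∀ o < b, o ≠ u → o ≠ v → f (o + 1) = letter (word b j o) := fun o ho a a' =>
      h3 o ho ⟨(cl_ne hm (by omega) (by omega)).2 (by omega),
        (cl_ne hm (by omega) (by omega)).2 (by omega)⟩
    refine ⟨h2 ⟨(cl_ne hm (by omega) (by omega)).2 (by omega),
      (cl_ne hm (by omega) (by omega)).2 (by omega)⟩, ?_, h4, h5⟩
    refine h1.imp (fun h o ho => ?_) fun h o ho => ?_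
    · by_cases a : o = u
      · rw [a, h.1]
      by_cases a' : o = v
      · rw [a', h.2]
      · exact h6 o ho a a'
    · by_cases a : o = u
      · rw [a, h.1, e1]
      by_cases a' : o = v
      · rw [a', h.2, e2]
      · rw [h6 o ho a a', hw o ho, Equiv.swap_apply_of_ne_of_ne a a']
  · rintro ⟨h1, h2, h3, h4⟩
    refine ⟨h2.imp (fun h => ⟨h u hu, h v hv⟩) fun h => ⟨e1 ▸ h u hu, e2 ▸ h v hv⟩,
      ⟨fun _ => h1, fun o ho h => ?_, h3⟩, h4⟩
    rcases h2 with h2 | h2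
    · exact h2 o ho
    · rw [h2 o ho, hw o ho, Equiv.swap_apply_of_ne_of_ne (fun e => h.1 (by rw [e]))
        (fun e => h.2 (by rw [e]))]

theorem U_iff (hm : 0 < m) (j : Fin b.factorial) (bd : Bool) (xv : TT) (f : ℕ → TT)
    (c' : Option (Fin ((m + 1) * (b + 1))) → TT) :
    (rule b m (.inr (.inl (j, bd)))).App (cf b m xv f) c' ↔
      ((f 0 = lam ∧ xv = kap) ∨ (f 0 = kap ∧ xv = lam)) ∧
        (∀ o < b, f (o + 1) = letter (word b j o)) ∧ (∀ o < b, f (b + 1 + (o + 1)) = pb b 0 bd o) ∧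
        c' = cf b m (f 0) (Function.update f 0 xv) := by
  rw [rule, R_app (SS_lt hm)]
  rw [SS_iff hm xv f _ _ _ (fun n => cl b m n ≠ cl b m 0 ∧ cl b m n ≠ none)
    fun o ho => ⟨(cl_ne hm (by omega) (by omega)).2 (by omega), cv_ne _ _⟩,
    cf_swap_x _ _ (MM_pos b m), cf_cl _ _ (MM_pos b m), cf_none]
  constructor
  · rintro ⟨h1, ⟨-, h3, h4⟩, h5⟩
    exact ⟨h1, fun o ho => h3 o ho ⟨(cl_ne hm (by omega) (by omega)).2 (by omega), cv_ne _ _⟩,
      h4, h5⟩
  · rintro ⟨h1, h2, h3, h4⟩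
    exact ⟨h1, ⟨fun h => (h.1 rfl).elim, fun o ho _ => h2 o ho, h3⟩, h4⟩

theorem A_iff (hm : 0 < m) (xv : TT) (f : ℕ → TT) (c' : Option (Fin ((m + 1) * (b + 1))) → TT) :
    (rule b m (.inr (.inr true))).App (cf b m xv f) c' ↔
      ((f 0 = eps ∧ xv = lam) ∨ (f 0 = lam ∧ xv = eps)) ∧ f (b + 1) = kap ∧
        c' = cf b m (f 0) (Function.update f 0 xv) := by
  have h : b + 1 < (m + 1) * (b + 1) := lt_MM' hm (by omega)
  rw [rule, R_app (by simpa using h), cf_swap_x _ _ (MM_pos b m),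
    cf_cl _ _ (MM_pos b m), cf_none]
  simp only [Finset.mem_singleton, forall_eq]
  rw [cf_cl _ _ h]
  exact and_congr_right' (and_congr_left' ⟨fun H => H ⟨(cl_ne hm (by omega) (by omega)).2
    (by omega), cv_ne _ _⟩, fun H _ => H⟩)

theorem B_iff (hm : 0 < m) (xv : TT) (f : ℕ → TT) (c' : Option (Fin ((m + 1) * (b + 1))) → TT) :
    (rule b m (.inr (.inr false))).App (cf b m xv f) c' ↔
      ((f (b + 1) = eps ∧ xv = kap) ∨ (f (b + 1) = kap ∧ xv = eps)) ∧
        c' = cf b m (f (b + 1)) (Function.update f (b + 1) xv) := by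
  have h : b + 1 < (m + 1) * (b + 1) := lt_MM' hm (by omega)
  rw [rule, R_app (by simp), cf_swap_x _ _ h, cf_cl _ _ h, cf_none]
  simp

end Pool.Agent.H.MP_f87a07_co
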