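import Mathlib
import Pool.Agent.H.MP_f87a07_co.I

set_option autoImplicit false

namespace Pool.Agent.H.MP_f87a07_co

open Relation TT

/-- the invariant -/
def Inv (b m h : ℕ) (d : ℕ → ℕ) : Prop :=
  h ≤ m ∧ (∀ i, d i < b.factorial) ∧ (∀ i, m ≤ i → d i = 0) ∧ ∀ i, i + 2 ≤ h → d i = 0

/-- unlocked configurations -/
def unl (b m h : ℕ) (d : ℕ → ℕ) (w : ℕ) :=
  cf b m lam fun n => arr b m h d eps kap ((n + w) % ((m + 1) * (b + 1)))

/-- normal configurations -/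
def nor (b m h : ℕ) (d : ℕ → ℕ) := cf b m kap (arr b m h d lam eps)

/-- half open configurations -/
def sem (b m h : ℕ) (d : ℕ → ℕ) := cf b m eps (arr b m h d lam kap)

/-- representation -/
def RepM (b m : ℕ) (c : Option (Fin ((m + 1) * (b + 1))) → TT) (d : ℕ → ℕ) : Prop :=
  ∃ h, Inv b m h d ∧ (c = nor b m h d ∨ c = sem b m h d ∨ ∃ w, c = unl b m h d w)

/-- good representation -/
def GoodM (b m : ℕ) (c : Option (Fin ((m + 1) * (b + 1))) → TT) (d : ℕ → ℕ) : Prop :=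
  ∃ h, Inv b m h d ∧ c = nor b m h d

variable {b m : ℕ}

theorem blk_letter (hb : 0 < b) {d : ℕ → ℕ} {i j : ℕ} (hd : d i < b.factorial)
    (hj : j < b.factorial) (h : ∀ o < b, blk b m d i o = letter (word b j o)) : i < m ∧ d i = j := by
  have hi : i < m := by
    by_contra hi
    simpa [blk, hi] using h 0 hb
  exact ⟨hi, word_inj b _ hd _ hj fun o ho => by simpa [blk, hi] using h o ho⟩

theorem blk_pb (hb : 0 < b) {d : ℕ → ℕ} {h k : ℕ} {bd : Bool} (hd : ∀ i, d i < b.factorial)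
    (hk : k < b.factorial) (hh : h ≤ m) (H : ∀ o < b, blk b m d (idx m h 1) o = pb b k bd o) :
    ∀ i, i + 1 = h → d i = k := by
  rintro i rfl
  rw [show idx m (i + 1) 1 = i by simp [idx]] at H
  cases bd
  · exact (blk_letter hb (hd i) hk H).2
  · simpa [blk, pb, show i < m by omega] using H 0 hb

theorem pb_blk {d : ℕ → ℕ} {h k : ℕ} (hh : h ≤ m) (H : ∀ i, i + 1 = h → d i = k) :
    ∀ o < b, blk b m d (idx m h 1) o = pb b k (decide (h = 0)) o := by
  intro o _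
  rcases h with _ | i
  · simp [idx, blk, pb]
  · simp [idx, blk, pb, show i < m by omega, H i rfl]

theorem unl_zero (h : ℕ) (d : ℕ → ℕ) : unl b m h d 0 = cf b m lam (arr b m h d eps kap) :=
  cf_congr _ fun n hn => by rw [Nat.add_zero, Nat.mod_eq_of_lt hn]

theorem unl_one {h : ℕ} (hh : h < m) (d : ℕ → ℕ) :
    unl b m (h + 1) d (b + 1) = cf b m lam (arr b m h d kap eps) :=
  cf_congr _ (arr_rot hh d)

theorem unl_mod (h : ℕ) (d : ℕ → ℕ) {w w' : ℕ} (e : w ≡ w' [MOD (m + 1) * (b + 1)]) :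
    unl b m h d w = unl b m h d w' :=
  cf_congr _ fun n _ => by rw [e.add_left n]

theorem D_sim (hm : 0 < m) (hb : 0 < b) {h : ℕ} {d : ℕ → ℕ} (hI : Inv b m h d) (xv s1 : TT)
    {j : Fin (b.factorial - 1)} {bd : Bool} {c' : Option (Fin ((m + 1) * (b + 1))) → TT}
    (H : (rule b m (.inl (j, bd))).App (cf b m xv (arr b m h d lam s1)) c') :
    ∃ d', Inv b m h d' ∧ c' = cf b m xv (arr b m h d' lam s1) ∧ Od m b.factorial d d' := by
  obtain ⟨u, hu, v, hv, hw, hD⟩ := D_iff hm j bd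
  obtain ⟨-, h2, h3, rfl⟩ := (hD _ _ _).1 H
  have hj := j.2
  obtain ⟨i1, i2, i3, i4⟩ := hI
  have h4 := blk_pb hb i2 (by split_ifs <;> omega) i1 fun o ho =>
    (arr_prev h d lam s1 ho).symm.trans (h3 o ho)
  have inv : ∀ k < b.factorial, h < m → Inv b m h (Function.update d h k) := fun k hk hh =>
    ⟨i1, fun i => (by rw [Function.update_apply]; split_ifs; exacts [hk, i2 i]),
      fun i hi => (by rw [Function.update_of_ne (by omega), i3 i hi]),
      fun i hi => (by rw [Function.update_of_ne (by omega), i4 i hi])⟩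
  rcases h2 with h2 | h2
  · obtain ⟨hh, e⟩ := blk_letter hb (i2 h) (by omega) fun o ho =>
      (arr_cur h d lam s1 ho).symm.trans (h2 o ho)
    exact ⟨_, inv (j + 1) (by omega) hh, cf_congr _ (arr_swap hh d _ _ hu hv (e ▸ hw)),
      h, hh, j, by omega, Or.inl ⟨e, rfl⟩, i4, h4⟩
  · obtain ⟨hh, e⟩ := blk_letter hb (i2 h) (by omega) fun o ho =>
      (arr_cur h d lam s1 ho).symm.trans (h2 o ho)
    refine ⟨_, inv j (by omega) hh, cf_congr _ (arr_swap hh d _ _ hu hv fun o ho => ?_),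
      h, hh, j, by omega, Or.inr ⟨e, rfl⟩, i4, h4⟩
    rw [e, hw, Equiv.swap_apply_self]
    rw [Equiv.swap_apply_def]; split_ifs <;> omega

theorem M_sim (hm : 0 < m) (hb : 0 < b) (c : Option (Fin ((m + 1) * (b + 1))) → TT) (d : ℕ → ℕ)
    (c' : Option (Fin ((m + 1) * (b + 1))) → TT) (hR : RepM b m c d) (hs : MS b m c c') :
    ∃ d', RepM b m c' d' ∧ (d' = d ∨ Od m b.factorial d d') := by
  obtain ⟨h, hI, hc⟩ := hR
  have hs1 : b + 1 < (m + 1) * (b + 1) := lt_MM' hm (by omega)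
  rcases hs with ⟨⟨j, bd⟩ | ⟨j, bd⟩ | _ | _, H⟩ | ⟨hF, hS⟩
  · rcases hc with rfl | rfl | ⟨w, rfl⟩
    · obtain ⟨d', h1, h2, h3⟩ := D_sim hm hb hI _ _ H
      exact ⟨d', ⟨h, h1, Or.inl h2⟩, Or.inr h3⟩
    · obtain ⟨d', h1, h2, h3⟩ := D_sim hm hb hI _ _ H
      exact ⟨d', ⟨h, h1, Or.inr (Or.inl h2)⟩, Or.inr h3⟩
    · obtain ⟨u, hu, v, hv, hw, hD⟩ := D_iff hm j bd
      exact (arr_ne_lam _ _ _ ((hD _ _ _).1 H).1).elim
  · refine ⟨d, ?_, Or.inl rfl⟩
    rcases hc with rfl | rfl | ⟨w, rfl⟩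
    · obtain ⟨-, h2, h3, rfl⟩ := (U_iff hm _ _ _ _ _).1 H
      obtain ⟨i1, i2, i3, i4⟩ := hI
      obtain ⟨hh, -⟩ := blk_letter hb (i2 h) j.2 fun o ho =>
        (arr_cur h d lam eps ho).symm.trans (h2 o ho)
      have h4 := blk_pb hb i2 b.factorial_pos i1 fun o ho =>
        (arr_prev h d lam eps ho).symm.trans (h3 o ho)
      refine ⟨h + 1, ⟨hh, i2, i3, fun i hi => ?_⟩, Or.inr (Or.inr ⟨b + 1, ?_⟩)⟩
      · rcases Nat.lt_or_ge (i + 1) h with a | a
        · exact i4 i a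
        · exact h4 i (by omega)
      · rw [unl_one hh, arr_zero, arr_upd0]
    · obtain ⟨h1, -⟩ := (U_iff hm _ _ _ _ _).1 H
      simp at h1
    · have h1 := ((U_iff hm _ _ _ _ _).1 H).1
      simp only [reduceCtorEq, and_false, and_true, false_or] at h1
      have e : w ≡ b + 1 [MOD (m + 1) * (b + 1)] := by
        have := arr_kap h1
        rw [Nat.zero_add] at this
        exact this.trans (Nat.mod_eq_of_lt hs1).symm
      rw [unl_mod h d e] at H
      rcases h with _ | h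
      · have := ((U_iff hm _ _ _ _ _).1 H).2.1 0 hb
        rw [Nat.mod_eq_of_lt (lt_MM' hm (by omega)), add_comm, arr_prev _ _ _ _ hb] at this
        simp [blk, idx] at this
      · rw [unl_one hI.1] at H
        obtain ⟨-, -, -, rfl⟩ := (U_iff hm _ _ _ _ _).1 H
        refine ⟨h, ⟨hI.1.trans' (by omega), hI.2.1, hI.2.2.1,
          fun i hi => hI.2.2.2 i (by omega)⟩, Or.inl ?_⟩
        rw [arr_zero, arr_upd0, nor]
  · refine ⟨d, ⟨h, hI, ?_⟩, Or.inl rfl⟩
    rcases hc with rfl | rfl | ⟨w, rfl⟩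
    · obtain ⟨-, rfl⟩ := (B_iff hm _ _ _).1 H
      exact Or.inr (Or.inl (by rw [arr_one, arr_upd1, sem]))
    · obtain ⟨-, rfl⟩ := (B_iff hm _ _ _).1 H
      exact Or.inl (by rw [arr_one, arr_upd1, nor])
    · obtain ⟨h1, -⟩ := (B_iff hm _ _ _).1 H
      simp at h1
  · refine ⟨d, ⟨h, hI, ?_⟩, Or.inl rfl⟩
    rcases hc with rfl | rfl | ⟨w, rfl⟩
    · obtain ⟨h1, -⟩ := (A_iff hm _ _ _).1 H
      simp at h1
    · obtain ⟨-, -, rfl⟩ := (A_iff hm _ _ _).1 H
      exact Or.inr (Or.inr ⟨0, by rw [arr_zero, arr_upd0, unl_zero]⟩)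
    · have h1 := arr_kap ((A_iff hm _ _ _).1 H).2.1
      have e : w ≡ 0 [MOD (m + 1) * (b + 1)] :=
        Nat.ModEq.add_left_cancel' (b + 1) (h1.trans (Nat.mod_eq_of_lt hs1).symm)
      rw [unl_mod h d e, unl_zero] at H
      obtain ⟨-, -, rfl⟩ := (A_iff hm _ _ _).1 H
      exact Or.inr (Or.inl (by rw [arr_zero, arr_upd0, sem]))
  · refine ⟨d, ⟨h, hI, ?_⟩, Or.inl rfl⟩
    have h0 := hF 0 (MM_pos b m)
    rcases hc with rfl | rfl | ⟨w, rfl⟩
    · rw [nor, cf_cl _ _ (MM_pos b m), arr_zero] at h0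
      exact (h0 rfl).elim
    · rw [sem, cf_cl _ _ (MM_pos b m), arr_zero] at h0
      exact (h0 rfl).elim
    · rcases hS with hS | hS
      · exact Or.inr (Or.inr ⟨w + 1, hS.uniq (Sh_cf _ _ w)⟩)
      · refine Or.inr (Or.inr ⟨w + ((m + 1) * (b + 1) - 1), hS.uniq' ?_⟩)
        rw [unl_mod h d (w := w) (w' := w + ((m + 1) * (b + 1) - 1) + 1)]
        · exact Sh_cf _ _ _
        · rw [add_assoc, Nat.sub_add_cancel (MM_pos b m)]
          exact (Nat.add_mod_right _ _).symm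

theorem M_uniq (hb : 0 < b) (c : Option (Fin ((m + 1) * (b + 1))) → TT) (d d' : ℕ → ℕ)
    (hG : GoodM b m c d) (hR : RepM b m c d') : d' = d := by
  obtain ⟨h, hI, rfl⟩ := hG
  obtain ⟨h', hI', e | e | ⟨w, e⟩⟩ := hR
  · have key : ∀ q ≤ m, ∀ o < b, blk b m d (idx m h q) o = blk b m d' (idx m h' q) o := by
      intro q hq o ho
      have := congrFun e (cl b m (q * (b + 1) + (o + 1)))
      rw [nor, nor, cf_cl _ _ (cell_lt hq (by omega)), cf_cl _ _ (cell_lt hq (by omega)),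
        arr_gen _ _ _ _ _ (by omega), arr_gen _ _ _ _ _ (by omega)] at this
      simpa using this
    have i1 := hI.1
    have i1' := hI'.1
    obtain rfl : h = h' := by
      have := key (if h < m then h + 1 else 0) (by split_ifs <;> omega) 0 hb
      rw [blk, if_neg (by unfold idx; split_ifs <;> omega), blk] at this
      have : ¬ idx m h' (if h < m then h + 1 else 0) < m := fun a => by simp [a] at this
      unfold idx at this
      split_ifs at this <;> omega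
    funext i
    rcases Nat.lt_or_ge i m with a | a
    · have := key (if i ≤ h then h - i else h + m + 1 - i) (by split_ifs <;> omega)
      rw [show idx m h (if i ≤ h then h - i else h + m + 1 - i) = i by
        unfold idx; split_ifs <;> omega] at this
      refine (blk_letter (m := m) hb (hI'.2.1 i) (hI.2.1 i) fun o ho => ?_).2
      rw [← this o ho, blk, if_pos a]
    · rw [hI.2.2.1 i a, hI'.2.2.1 i a]
  · simpa [nor, sem, cf_none] using congrFun e none
  · simpa [nor, unl, cf_none] using congrFun e none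

theorem M_rot (h : ℕ) (d : ℕ → ℕ) (w : ℕ) :
    ReflTransGen (MS b m) (unl b m h d 0) (unl b m h d w) := by
  induction w with
  | zero => exact .refl
  | succ w ih =>
    refine ih.tail (Or.inr ⟨fun n hn => ?_, Or.inl (Sh_cf _ _ w)⟩)
    rw [unl, cf_cl _ _ hn]
    exact arr_ne_lam _ _ _

theorem M_move (hm : 0 < m) {d : ℕ → ℕ} (h : ℕ) : Inv b m h d →
    ReflTransGen (MS b m) (nor b m 0 d) (nor b m h d) := by
  induction h with
  | zero => exact fun _ => .refl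
  | succ h ih =>
    intro hI
    have hh : h < m := hI.1
    refine (ih ⟨hh.le, hI.2.1, hI.2.2.1, fun i hi => hI.2.2.2 i (by omega)⟩).trans ?_
    refine .head (b := unl b m (h + 1) d (b + 1))
      (Or.inl ⟨.inr (.inl (⟨d h, hI.2.1 h⟩, decide (h = 0))), (U_iff hm _ _ _ _ _).2
        ⟨Or.inl ⟨arr_zero .., rfl⟩, fun o ho => ?_, fun o ho => ?_, ?_⟩⟩) ?_
    · rw [arr_cur _ _ _ _ ho, blk, if_pos hh]
    · rw [arr_prev _ _ _ _ ho]
      exact pb_blk hh.le (fun i hi => hI.2.2.2 i (by omega)) o ho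
    · rw [unl_one hh, arr_zero, arr_upd0]
    refine (rtg_symm' (fun _ _ => ST.symm) (M_rot _ _ _)).trans ?_
    rw [unl_zero]
    refine .head (b := sem b m (h + 1) d) (Or.inl ⟨.inr (.inr true), (A_iff hm _ _ _).2
      ⟨Or.inl ⟨arr_zero .., rfl⟩, arr_one .., ?_⟩⟩) (.single (Or.inl ⟨.inr (.inr false),
        (B_iff hm _ _ _).2 ⟨Or.inr ⟨arr_one .., rfl⟩, ?_⟩⟩))
    · rw [arr_zero, arr_upd0, sem]
    · rw [arr_one, arr_upd1, nor]

theorem M_lift (hm : 0 < m) (c : Option (Fin ((m + 1) * (b + 1))) → TT) (d d' : ℕ → ℕ)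
    (hG : GoodM b m c d) (hs : Od m b.factorial d d') :
    ∃ c', GoodM b m c' d' ∧ ReflTransGen (MS b m) c c' := by
  obtain ⟨h0, hI, rfl⟩ := hG
  obtain ⟨h, hh, j, hj, h1, h2, h3⟩ := hs
  have hI' : Inv b m h d := ⟨hh.le, hI.2.1, hI.2.2.1, h2⟩
  have inv : ∀ k < b.factorial, Inv b m h (Function.update d h k) := fun k hk =>
    ⟨hh.le, fun i => (by rw [Function.update_apply]; split_ifs; exacts [hk, hI.2.1 i]),
      fun i hi => (by rw [Function.update_of_ne (by omega), hI.2.2.1 i hi]),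
      fun i hi => (by rw [Function.update_of_ne (by omega), h2 i hi])⟩
  obtain ⟨u, hu, v, hv, hw, hD⟩ := D_iff hm (⟨j, by omega⟩ : Fin (b.factorial - 1))
    (decide (h = 0))
  refine ⟨nor b m h d', ⟨h, ?_, rfl⟩, ((rtg_symm' (fun _ _ => ST.symm) (M_move hm h0 hI)).trans
    (M_move hm h hI')).tail (Or.inl ⟨_, (hD _ _ _).2 ⟨arr_zero .., ?_, fun o ho => ?_, ?_⟩⟩)⟩
  · rcases h1 with ⟨-, rfl⟩ | ⟨-, rfl⟩ <;> exact inv _ (by omega)
  · refine h1.imp (fun a o ho => ?_) fun a o ho => ?_ <;>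
      rw [arr_cur _ _ _ _ ho, blk, if_pos hh, a.1]
  · rw [arr_prev _ _ _ _ ho]
    exact pb_blk hh.le h3 o ho
  · rcases h1 with ⟨e, rfl⟩ | ⟨e, rfl⟩
    · exact (cf_congr _ (arr_swap hh d _ _ hu hv (e ▸ hw))).symm
    · refine (cf_congr _ (arr_swap hh d _ _ hu hv fun o ho => ?_)).symm
      rw [e, hw, Equiv.swap_apply_self]
      rw [Equiv.swap_apply_def]; split_ifs <;> omega

theorem main_hard (hb : 2 ≤ b) (m : ℕ) :
    ∃ n ≤ 2 * ((m + 2) * (b + 1)) + (Fintype.card (Rl b) * (21 * (2 * (b + 1)) + 23) + 4),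
      Hard n ((b.factorial - 2) ^ (m + 1) - 1) := by
  have h2 : 2 ∣ b.factorial := Nat.dvd_factorial (by omega) hb
  have hf := od_far (m := m) (B := b.factorial) (by omega) (Nat.le_of_dvd b.factorial_pos h2)
  obtain ⟨c1, -, hc⟩ := hf.sim (RL := MS b (m + 1)) (RepM b (m + 1)) (GoodM b (m + 1))
    (nor b (m + 1) 0 fun _ => 0)
    ⟨0, ⟨by omega, fun _ => b.factorial_pos, fun _ _ => rfl, fun _ _ => rfl⟩, rfl⟩
    (fun _ _ ⟨h, hI, e⟩ => ⟨h, hI, Or.inl e⟩) (M_uniq (by omega))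
    (M_sim (by omega) (by omega)) (M_lift (by omega))
  obtain ⟨n, hn, hH⟩ := hard_of_ST (MM_pos b (m + 1)) (cv_inj (MM_pos b (m + 1))) _ (rule_card b (m + 1)) hc
  refine ⟨n, hn.trans ?_, hH⟩
  rw [Fintype.card_option, Fintype.card_fin]
  show (m + 2) * (b + 1) + 1 + (m + 2) * (b + 1) + _ + 3 ≤ _
  omega

theorem not_exp : ¬ ∃ C : ℝ, ∀ n N : ℕ, Hard n N → (N : ℝ) ≤ Real.exp (C * n) := by
  rintro ⟨C, hC⟩
  have hpos : (0 : ℝ) < 1 / (4 * Real.exp (|C| * 3)) := by positivity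
  obtain ⟨b, hb1, hb⟩ := (((FloorSemiring.tendsto_pow_div_factorial_atTop
    (Real.exp (|C| * 2))).eventually (gt_mem_nhds hpos)).and
    (Filter.eventually_ge_atTop 2)).exists
  set E := Real.exp (|C| * (2 * b + 3)) with hE
  have hE1 : 1 ≤ E := Real.one_le_exp (by positivity)
  have h4 : 4 * E < b.factorial := by
    rw [div_lt_div_iff₀ (by positivity) (by positivity), ← Real.exp_nat_mul] at hb1
    rw [hE, show |C| * (2 * b + 3) = b * (|C| * 2) + |C| * 3 by ring, Real.exp_add]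
    linarith
  obtain ⟨K, hK⟩ : ∃ K, K = Fintype.card (Rl b) * (21 * (2 * (b + 1)) + 23) + 4 := ⟨_, rfl⟩
  obtain ⟨n, hn, hH⟩ := main_hard hb (2 * b + 1 + K)
  rw [← hK] at hn
  have h1 := hC _ _ hH
  obtain ⟨t, ht⟩ : ∃ t, t = 2 * b + 1 + K + 1 := ⟨_, rfl⟩
  have hn' : n ≤ t * (2 * b + 3) := by rw [ht]; nlinarith
  rw [← ht] at h1
  have h2 : Real.exp (C * n) ≤ E ^ t := by
    rw [hE, ← Real.exp_nat_mul]
    apply Real.exp_le_exp.2
    have a : (n : ℝ) ≤ t * (2 * b + 3) := by exact_mod_cast hn'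
    have := le_abs_self C
    have := abs_nonneg C
    have : (0 : ℝ) ≤ n := by positivity
    nlinarith
  have h5 : 2 ≤ b.factorial := by
    have : (2 : ℝ) ≤ b.factorial := by linarith
    exact_mod_cast this
  have h6 : (2 * E) ^ t ≤ ((b.factorial - 2 : ℕ) : ℝ) ^ t := by
    apply pow_le_pow_left₀ (by positivity)
    push_cast [h5]; linarith
  have h7 : (4 : ℝ) ≤ 2 ^ t := by
    calc (4 : ℝ) = 2 ^ 2 := by norm_num
      _ ≤ 2 ^ t := pow_le_pow_right₀ (by norm_num) (by omega)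
  have h8 : 1 ≤ E ^ t := one_le_pow₀ hE1
  have h9 : (((b.factorial - 2) ^ t : ℕ) : ℝ) ≤ (((b.factorial - 2) ^ t - 1 : ℕ) : ℝ) + 1 := by
    exact_mod_cast (by omega : (b.factorial - 2) ^ t ≤ (b.factorial - 2) ^ t - 1 + 1)
  rw [mul_pow] at h6
  rw [Nat.cast_pow] at h9
  nlinarith

end Pool.Agent.H.MP_f87a07_co
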